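import Pool.Agent.FewPath.Tail

namespace Pool.Agent.FewPath

open Classical

/-- The end point of a path; the bits of the path are listed from the last step to the first. -/
def endOf (m : ℕ) (step : List Bool → List Bool) : List Bool → List Bool
  | [] => List.replicate m false
  | b :: p => step (b :: (endOf m step p).tail)

/-- The sign of a path (`true` for negative). -/
def sgn (m : ℕ) (step : List Bool → List Bool) : List Bool → Bool
  | [] => false
  | b :: p => xor (sgn m step p) (b && (endOf m step p).headD false)

/-- A permutation of the basis states of `m` qubits. -/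
structure IsPerm (m : ℕ) (step back : List Bool → List Bool) : Prop where
  pos : 0 < m
  step_len : ∀ c, c.length = m → (step c).length = m
  back_len : ∀ c, c.length = m → (back c).length = m
  step_back : ∀ c, c.length = m → step (back c) = c
  back_step : ∀ c, c.length = m → back (step c) = c

section

variable {m : ℕ} {step back : List Bool → List Bool}

theorem length_endOf (h : IsPerm m step back) (p : List Bool) : (endOf m step p).length = m := by
  induction p with
  | nil => simp [endOf]
  | cons b p ih =>
    rw [endOf]
    refine h.step_len _ ?_
    have := h.pos
    rw [List.length_cons, List.length_tail, ih]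
    omega

/-- The sign of a path as a real number. -/
noncomputable def sg (m : ℕ) (step : List Bool → List Bool) (p : List Bool) : ℝ :=
  if sgn m step p = true then -1 else 1

/-- The paths of length `t` ending in `c`. -/
noncomputable def fib (m : ℕ) (step : List Bool → List Bool) (t : ℕ) (c : List Bool) :
    Finset (List Bool) :=
  (bits t).filter (fun p => endOf m step p = c)

theorem key (h : IsPerm m step back) {c : List Bool} (hc : c.length = m) (p : List Bool)
    (b : Bool) : endOf m step (b :: p) = c ↔
      b = (back c).headD false ∧ (endOf m step p = false :: (back c).tail ∨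
        endOf m step p = true :: (back c).tail) := by
  have h1 := length_endOf h p
  have h2 := h.back_len c hc
  have h3 := h.pos
  obtain ⟨e, u, he⟩ : ∃ e u, endOf m step p = e :: u := by
    cases hh : endOf m step p with
    | nil => rw [hh] at h1; simp at h1; omega
    | cons e u => exact ⟨e, u, rfl⟩
  obtain ⟨d, v, hd⟩ : ∃ d v, back c = d :: v := by
    cases hh : back c with
    | nil => rw [hh] at h2; simp at h2; omega
    | cons e u => exact ⟨e, u, rfl⟩
  rw [endOf, he, hd]
  simp only [List.tail_cons, List.headD_cons, List.cons.injEq]
  have hu : (b :: u).length = m := by rw [he] at h1; simpa using h1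
  constructor
  · intro h4
    have h5 := h.back_step _ hu
    rw [h4, hd] at h5
    obtain ⟨rfl, rfl⟩ := List.cons.inj h5
    refine ⟨rfl, ?_⟩
    cases e <;> simp
  · rintro ⟨rfl, h5⟩
    have : u = v := by rcases h5 with h5 | h5 <;> exact h5.2
    subst this
    rw [← hd]
    exact h.step_back _ hc

theorem paths_eq (h : IsPerm m step back) (t : ℕ) : ∀ {c : List Bool}, c.length = m →
    paths m back t c = (fib m step t c).card := by
  induction t with
  | zero =>
    intro c _
    rw [paths_zero, fib, Finset.card_filter, sum_bits_zero, endOf]
    simp only [eq_comm]
  | succ t ih =>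
    intro c hc
    have h2 := h.back_len c hc
    have h3 := h.pos
    have hl : ∀ b, (b :: (back c).tail).length = m := by
      intro b; rw [List.length_cons, List.length_tail, h2]; omega
    rw [paths_succ, ih (hl false), ih (hl true), fib, fib, fib, Finset.card_filter, Finset.card_filter,
      Finset.card_filter, sum_bits_succ, ← Finset.sum_add_distrib, ← Finset.sum_add_distrib]
    refine Finset.sum_congr rfl (fun p _ => ?_)
    simp only [key h hc]
    by_cases h5 : endOf m step p = false :: (back c).tail
    · have h6 : ¬ endOf m step p = true :: (back c).tail := by rw [h5]; simp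
      simp only [h5]
      cases (back c).headD false <;> simp
    · by_cases h6 : endOf m step p = true :: (back c).tail
      · simp only [h6]
        cases (back c).headD false <;> simp
      · simp [h5, h6]

theorem amp_eq (h : IsPerm m step back) (t : ℕ) : ∀ {c : List Bool}, c.length = m →
    amp m back t c = (∑ p ∈ fib m step t c, sg m step p) / Real.sqrt 2 ^ t := by
  induction t with
  | zero =>
    intro c _
    rw [amp_zero, fib, Finset.sum_filter, sum_bits_zero, endOf]
    simp only [eq_comm, sg, sgn]
    simp
  | succ t ih =>
    intro c hc
    have h2 := h.back_len c hc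
    have h3 := h.pos
    have hl : ∀ b, (b :: (back c).tail).length = m := by
      intro b; rw [List.length_cons, List.length_tail, h2]; omega
    have hkey : ∑ p ∈ fib m step (t + 1) c, sg m step p =
        ∑ p ∈ fib m step t (false :: (back c).tail), sg m step p +
        (if (back c).headD false = true then -1 else 1) *
          ∑ p ∈ fib m step t (true :: (back c).tail), sg m step p := by
      rw [fib, fib, fib, Finset.sum_filter, Finset.sum_filter, Finset.sum_filter, sum_bits_succ,
        Finset.mul_sum, ← Finset.sum_add_distrib, ← Finset.sum_add_distrib]
      refine Finset.sum_congr rfl (fun p _ => ?_)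
      simp only [key h hc]
      by_cases h5 : endOf m step p = false :: (back c).tail
      · simp only [h5, sg, sgn]
        cases (back c).headD false <;> simp
      · by_cases h6 : endOf m step p = true :: (back c).tail
        · simp only [h6, sg, sgn]
          cases (back c).headD false <;> cases sgn m step p <;> simp
        · simp [h5, h6]
    rw [amp_succ, ih (hl false), ih (hl true), hkey, pow_succ]
    have : Real.sqrt 2 ≠ 0 := by positivity
    field_simp

/-- The absolute value of the signed number of paths. -/
noncomputable def net (m : ℕ) (step : List Bool → List Bool) (t : ℕ) (c : List Bool) : ℕ :=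
  (((fib m step t c).filter (fun p => sgn m step p = false)).card -
    ((fib m step t c).filter (fun p => sgn m step p = true)).card) +
  (((fib m step t c).filter (fun p => sgn m step p = true)).card -
    ((fib m step t c).filter (fun p => sgn m step p = false)).card)

theorem net_le (t : ℕ) (c : List Bool) : net m step t c ≤ (fib m step t c).card := by
  have h1 := Finset.card_filter_le (fib m step t c) (fun p => sgn m step p = false)
  have h2 := Finset.card_filter_le (fib m step t c) (fun p => sgn m step p = true)
  rw [net]; omega

theorem amp_sq (h : IsPerm m step back) (t : ℕ) {c : List Bool} (hc : c.length = m) :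
    amp m back t c ^ 2 = (net m step t c : ℝ) ^ 2 / 2 ^ t := by
  rw [amp_eq h t hc, div_pow, ← pow_mul, mul_comm t 2, pow_mul, Real.sq_sqrt (by norm_num)]
  congr 1
  have h1 : ∑ p ∈ fib m step t c, sg m step p =
      (((fib m step t c).filter (fun p => sgn m step p = false)).card : ℝ) -
      ((fib m step t c).filter (fun p => sgn m step p = true)).card := by
    rw [Finset.card_filter, Finset.card_filter]
    push_cast
    rw [← Finset.sum_sub_distrib]
    refine Finset.sum_congr rfl (fun p _ => ?_)
    rw [sg]
    cases sgn m step p <;> simp
  rw [h1, net]
  rcases le_total ((fib m step t c).filter (fun p => sgn m step p = false)).card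
    ((fib m step t c).filter (fun p => sgn m step p = true)).card with h2 | h2
  · rw [Nat.sub_eq_zero_of_le h2]
    push_cast [h2]
    ring
  · rw [Nat.sub_eq_zero_of_le h2]
    push_cast [h2]
    ring

theorem sum_back (h : IsPerm m step back) (f : List Bool → ℝ) :
    ∑ c ∈ bits m, f (back c) = ∑ d ∈ bits m, f d := by
  refine Finset.sum_nbij' (fun c => back c) (fun d => step d) ?_ ?_ ?_ ?_ ?_
  · intro c hc; exact mem_bits.2 (h.back_len c (mem_bits.1 hc))
  · intro c hc; exact mem_bits.2 (h.step_len c (mem_bits.1 hc))
  · intro c hc; exact h.step_back c (mem_bits.1 hc)
  · intro c hc; exact h.back_step c (mem_bits.1 hc)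
  · intro c _; rfl

theorem norm_amp (h : IsPerm m step back) (t : ℕ) : ∑ c ∈ bits m, amp m back t c ^ 2 = 1 := by
  induction t with
  | zero =>
    have : ∀ c ∈ bits m, amp m back 0 c ^ 2 = if c = List.replicate m false then 1 else 0 := by
      intro c _; rw [amp_zero]; split <;> simp
    rw [Finset.sum_congr rfl this, Finset.sum_ite_eq']
    simp [mem_bits]
  | succ t ih =>
    obtain ⟨m', rfl⟩ : ∃ m', m = m' + 1 := ⟨m - 1, by have := h.pos; omega⟩
    let F : List Bool → ℝ := fun d => ((amp (m' + 1) back t (false :: d.tail) +
        (if d.headD false = true then -1 else 1) * amp (m' + 1) back t (true :: d.tail))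
        / Real.sqrt 2) ^ 2
    have h1 : ∀ c ∈ bits (m' + 1), amp (m' + 1) back (t + 1) c ^ 2 = F (back c) :=
      fun c _ => rfl
    rw [Finset.sum_congr rfl h1, sum_back h F, sum_bits_succ]
    rw [sum_bits_succ] at ih
    rw [← ih, ← Finset.sum_add_distrib, ← Finset.sum_add_distrib]
    refine Finset.sum_congr rfl (fun u _ => ?_)
    simp only [F, List.tail_cons, List.headD_cons, div_pow]
    rw [Real.sq_sqrt (by norm_num)]
    simp
    ring

end

end Pool.Agent.FewPath
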