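import Pool.Agent.FewPath.Defs

namespace Pool.Agent.FewPath

variable {A : List Bool → Bool} {α β γ δ : Type} [PTy α] [PTy β] [PTy γ] [PTy δ]

/-! ### Equations for the definitions -/

theorem PTy.sz_bool (x : Bool) : PTy.sz PTy.bool x = 1 := rfl
theorem PTy.sz_nat (x : ℕ) : PTy.sz PTy.nat x = x + 1 := rfl
theorem PTy.sz_prod {α β : Type} (a : PTy α) (b : PTy β) (x : α × β) :
    (PTy.prod a b).sz x = a.sz x.1 + b.sz x.2 := rfl
theorem PTy.sz_list {α : Type} (a : PTy α) (l : List α) :
    (PTy.list a).sz l = (l.map a.sz).sum + 1 := rfl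
theorem bits_zero : bits 0 = {[]} := rfl
theorem bits_succ (n : ℕ) : bits (n + 1) = (bits n).image (fun l => false :: l) ∪
    (bits n).image (fun l => true :: l) := rfl
theorem amp_zero (m : ℕ) (back : List Bool → List Bool) (c : List Bool) :
    amp m back 0 c = if c = List.replicate m false then 1 else 0 := rfl
theorem amp_succ (m : ℕ) (back : List Bool → List Bool) (t : ℕ) (c : List Bool) :
    amp m back (t + 1) c = (amp m back t (false :: (back c).tail) +
        (if (back c).headD false = true then -1 else 1) * amp m back t (true :: (back c).tail))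
        / Real.sqrt 2 := rfl
theorem paths_zero (m : ℕ) (back : List Bool → List Bool) (c : List Bool) :
    paths m back 0 c = if c = List.replicate m false then 1 else 0 := rfl
theorem paths_succ (m : ℕ) (back : List Bool → List Bool) (t : ℕ) (c : List Bool) :
    paths m back (t + 1) c = paths m back t (false :: (back c).tail) +
      paths m back t (true :: (back c).tail) := rfl
theorem qE_nil (m T : ℕ) (back : ℕ → List Bool → List Bool) (f : List (List Bool) → ℝ) :
    qE m T back [] f = f [] := rfl
theorem qE_cons (m T : ℕ) (back : ℕ → List Bool → List Bool) (j : ℕ) (js : List ℕ)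
    (f : List (List Bool) → ℝ) : qE m T back (j :: js) f =
      ∑ z ∈ bits m, amp m (back j) T z ^ 2 * qE m T back js (fun zs => f (z :: zs)) := rfl
@[simp] theorem binval_nil : binval [] = 0 := rfl
theorem binval_cons (a : Bool) (l : List Bool) :
    binval (a :: l) = (if a = true then 1 else 0) + 2 * binval l := rfl
@[simp] theorem lexLt_nil (l : List Bool) : lexLt l [] = false := by cases l <;> rfl
@[simp] theorem lexLt_nil_cons (b : Bool) (l : List Bool) : lexLt [] (b :: l) = true := rfl
theorem lexLt_cons (a b : Bool) (l k : List Bool) :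
    lexLt (a :: l) (b :: k) = ((!a && b) || ((a == b) && lexLt l k)) := rfl
theorem Machine.accFrom_zero (M : Machine A α) (u : α × List Bool × Hist) :
    M.accFrom 0 u = if M.dec u = true then 1 else 0 := rfl
theorem Machine.accFrom_succ (M : Machine A α) (i : ℕ) (u : α × List Bool × Hist) :
    M.accFrom (i + 1) u = M.round u (fun zs => M.accFrom i (u.1, u.2.1, zs :: u.2.2)) := rfl
theorem Machine.manyFrom_zero (M : Machine A α) (K : ℕ) (u : α × List Bool × Hist) :
    M.manyFrom K 0 u = 0 := rfl
open Classical in
theorem Machine.manyFrom_succ (M : Machine A α) (K i : ℕ) (u : α × List Bool × Hist) :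
    M.manyFrom K (i + 1) u = M.round u (fun zs => if M.Heavy K u zs then 1
      else M.manyFrom K i (u.1, u.2.1, zs :: u.2.2)) := rfl

/-! ### Sizes -/

theorem PTy.sz_pos {α : Type} (h : PTy α) : ∀ x : α, 0 < h.sz x := by
  induction h with
  | bool => exact fun _ => Nat.one_pos
  | nat => exact fun n => Nat.succ_pos n
  | prod a b iha ihb => exact fun x => Nat.add_pos_left (iha x.1) _
  | list a ih => exact fun l => Nat.succ_pos _

theorem size_pos (x : α) : 0 < size x := PTy.sz_pos _ x

@[simp] theorem size_bool (b : Bool) : size b = 1 := rfl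
@[simp] theorem size_nat (n : ℕ) : size n = n + 1 := rfl
@[simp] theorem size_prod (x : α × β) : size x = size x.1 + size x.2 := rfl
theorem size_list (l : List α) : size l = (l.map size).sum + 1 := rfl
@[simp] theorem size_nil : size ([] : List α) = 1 := rfl
@[simp] theorem size_cons (a : α) (l : List α) : size (a :: l) = size a + size l := by
  simp [size_list]; omega
theorem size_append (l k : List α) : size (l ++ k) + 1 = size l + size k := by
  simp [size_list]; omega

theorem length_lt_size (l : List α) : l.length < size l := by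
  induction l with
  | nil => simp
  | cons a l ih => simp only [List.length_cons, size_cons]; have := size_pos a; omega

theorem size_bits (l : List Bool) : size l = l.length + 1 := by
  induction l with
  | nil => simp
  | cons a l ih => simp only [List.length_cons, size_cons, size_bool, ih]; omega

theorem size_le_of_mem {l : List α} {a : α} (h : a ∈ l) : size a < size l := by
  induction l with
  | nil => simp at h
  | cons b l ih =>
    rw [size_cons]
    rcases List.mem_cons.1 h with h | h
    · subst h; have := size_pos l; omega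
    · have := ih h; omega

theorem size_le_of_sublist {l k : List α} (h : l.Sublist k) : size l ≤ size k := by
  induction h with
  | slnil => simp
  | cons a _ ih => rw [size_cons]; omega
  | cons_cons a _ ih => rw [size_cons, size_cons]; omega

theorem size_list_le {l : List α} {B : ℕ} (h : ∀ a ∈ l, size a ≤ B) :
    size l ≤ l.length * B + 1 := by
  induction l with
  | nil => simp
  | cons a l ih =>
    rw [size_cons, List.length_cons, Nat.add_mul]
    have h1 := h a (by simp)
    have h2 := ih (fun b hb => h b (by simp [hb]))
    omega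

/-! ### Polynomial bounds -/

theorem pow_add_pow_le {n : ℕ} (hn : 2 ≤ n) (k l : ℕ) : n ^ k + n ^ l ≤ n ^ (k + l + 1) := by
  have h1 : n ^ k ≤ n ^ (k + l) := Nat.pow_le_pow_right (by omega) (by omega)
  have h2 : n ^ l ≤ n ^ (k + l) := Nat.pow_le_pow_right (by omega) (by omega)
  calc n ^ k + n ^ l ≤ n ^ (k + l) * 2 := by omega
    _ ≤ n ^ (k + l) * n := Nat.mul_le_mul_left _ hn
    _ = n ^ (k + l + 1) := by rw [pow_succ]

theorem one_lt_base (x : α) : 2 ≤ size x + 1 := by have := size_pos x; omega

/-- Every polynomial-time function increases sizes at most polynomially. -/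
theorem FP.bdd {f : α → β} (hf : FP A f) : ∃ k, ∀ x, size (f x) ≤ (size x + 1) ^ k := by
  induction hf with
  | id => exact ⟨1, fun x => by simp⟩
  | const b => exact ⟨size b, fun x => by
      calc size b ≤ 2 ^ size b := Nat.lt_two_pow_self.le
        _ ≤ _ := Nat.pow_le_pow_left (one_lt_base x) _⟩
  | comp _ _ ihg ihf =>
    obtain ⟨k, hk⟩ := ihf
    obtain ⟨l, hl⟩ := ihg
    refine ⟨(k + 1) * l, fun x => (hl _).trans ?_⟩
    rw [pow_mul]
    refine Nat.pow_le_pow_left ?_ _
    have h1 := hk x
    have h2 := one_lt_base x
    have h3 : 1 ≤ (size x + 1) ^ k := Nat.one_le_pow _ _ (by omega)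
    rw [pow_succ]
    nlinarith
  | pair _ _ ihf ihg =>
    obtain ⟨k, hk⟩ := ihf
    obtain ⟨l, hl⟩ := ihg
    exact ⟨k + l + 1, fun x => (Nat.add_le_add (hk x) (hl x)).trans
      (pow_add_pow_le (one_lt_base x) _ _)⟩
  | fst => exact ⟨1, fun x => by simp; omega⟩
  | snd => exact ⟨1, fun x => by simp; omega⟩
  | ite _ _ _ _ ihf ihg =>
    obtain ⟨k, hk⟩ := ihf
    obtain ⟨l, hl⟩ := ihg
    refine ⟨k + l, fun x => ?_⟩
    have h2 := one_lt_base x
    dsimp only
    split
    · exact (hk x).trans (Nat.pow_le_pow_right (by omega) (by omega))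
    · exact (hl x).trans (Nat.pow_le_pow_right (by omega) (by omega))
  | add => exact ⟨1, fun x => by simp; omega⟩
  | sub => exact ⟨1, fun x => by simp; omega⟩
  | mul => exact ⟨2, fun x => by simp; nlinarith⟩
  | div => exact ⟨1, fun x => by
      have := Nat.div_le_self x.1 x.2
      simp only [size_nat, size_prod, pow_one]; omega⟩
  | le => exact ⟨0, fun x => by simp⟩
  | log => exact ⟨1, fun n => by simp; exact (Nat.log_le_self 2 n).trans (by omega)⟩
  | pow => exact ⟨1, fun n => by
      simp only [size_nat, pow_one]
      rcases Nat.eq_zero_or_pos n with h | h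
      · subst h; simp
      · have := Nat.pow_log_le_self 2 h.ne'; omega⟩
  | sz => exact ⟨1, fun x => by simp⟩
  | cons => exact ⟨1, fun x => by simp⟩
  | head => exact ⟨1, fun x => by
      obtain ⟨a, l⟩ := x
      cases l with
      | nil => simp; omega
      | cons b l => simp; omega⟩
  | tail => exact ⟨1, fun l => by
      cases l with
      | nil => simp
      | cons b l => simp; omega⟩
  | append => exact ⟨1, fun x => by
      have := size_append x.1 x.2
      simp only [size_prod, pow_one]; omega⟩
  | length => exact ⟨1, fun l => by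
      have := length_lt_size l
      simp only [size_nat, pow_one]; omega⟩
  | take => exact ⟨1, fun x => by
      have := size_le_of_sublist (List.take_sublist x.1 x.2)
      simp only [size_prod, pow_one]; omega⟩
  | drop => exact ⟨1, fun x => by
      have := size_le_of_sublist (List.drop_sublist x.1 x.2)
      simp only [size_prod, pow_one]; omega⟩
  | range => exact ⟨2, fun n => by
      have : ∀ a ∈ List.range n, size a ≤ n := by
        intro a ha; have := List.mem_range.1 ha; simp; omega
      have := size_list_le this
      rw [List.length_range] at this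
      simp only [size_nat]; nlinarith⟩
  | zip => exact ⟨1, fun x => by
      obtain ⟨l, k⟩ := x
      simp only [size_prod, pow_one]
      induction l generalizing k with
      | nil => simp
      | cons a l ih =>
        cases k with
        | nil => simp
        | cons b k =>
          have := ih k
          simp only [List.zip_cons_cons, size_cons, size_prod]; omega⟩
  | sum => exact ⟨1, fun l => by
      simp only [size_nat, pow_one]
      have : l.sum ≤ size l := by
        induction l with
        | nil => simp
        | cons a l ih => simp only [List.sum_cons, size_cons, size_nat]; omega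
      omega⟩
  | eqb => exact ⟨0, fun x => by simp⟩
  | lt => exact ⟨0, fun x => by simp⟩
  | binlt => exact ⟨0, fun x => by simp⟩
  | oracle => exact ⟨0, fun x => by simp⟩
  | @map _ _ _ _ _ _ g _ ih =>
    obtain ⟨k, hk⟩ := ih
    refine ⟨k + 2, fun x => ?_⟩
    obtain ⟨a, l⟩ := x
    simp only [size_prod]
    have h0 := one_lt_base (a, l)
    simp only [size_prod] at h0
    have h1 : ∀ c ∈ l.map (fun y => g (a, y)), size c ≤ (size a + size l + 1) ^ k := by
      intro c hc
      obtain ⟨y, hy, rfl⟩ := List.mem_map.1 hc
      refine (hk (a, y)).trans (Nat.pow_le_pow_left ?_ _)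
      have := size_le_of_mem hy
      simp only [size_prod]; omega
    have h2 := size_list_le h1
    rw [List.length_map] at h2
    have h3 := length_lt_size l
    have h4 : 1 ≤ (size a + size l + 1) ^ k := Nat.one_le_pow _ _ (by omega)
    refine h2.trans ?_
    have h5 : l.length * (size a + size l + 1) ^ k + 1 ≤
        (size a + size l + 1) * (size a + size l + 1) ^ k := by nlinarith
    refine h5.trans ?_
    rw [pow_succ, pow_succ]
    nlinarith
  | @filter _ _ _ _ g _ _ => exact ⟨1, fun x => by
      have := size_le_of_sublist (List.filter_sublist (p := fun y => g (x.1, y)) (l := x.2))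
      simp only [size_prod, pow_one]
      exact this.trans (by omega)⟩
  | fold k hk _ _ => exact ⟨k, fun x => (hk _ _ _).trans (Nat.pow_le_pow_left (by simp) _)⟩

/-! ### Derived closure properties, in applied form -/

namespace FP

theorem comp₂ {g : β × γ → δ} {f₁ : α → β} {f₂ : α → γ} (hg : FP A g) (h₁ : FP A f₁)
    (h₂ : FP A f₂) : FP A (fun x => g (f₁ x, f₂ x)) :=
  FP.comp hg (FP.pair h₁ h₂)

theorem fst' {f : α → β × γ} (h : FP A f) : FP A (fun x => (f x).1) := FP.comp FP.fst h
theorem snd' {f : α → β × γ} (h : FP A f) : FP A (fun x => (f x).2) := FP.comp FP.snd h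

theorem add' {f g : α → ℕ} (hf : FP A f) (hg : FP A g) : FP A (fun x => f x + g x) :=
  comp₂ FP.add hf hg
theorem sub' {f g : α → ℕ} (hf : FP A f) (hg : FP A g) : FP A (fun x => f x - g x) :=
  comp₂ FP.sub hf hg
theorem mul' {f g : α → ℕ} (hf : FP A f) (hg : FP A g) : FP A (fun x => f x * g x) :=
  comp₂ FP.mul hf hg
theorem div' {f g : α → ℕ} (hf : FP A f) (hg : FP A g) : FP A (fun x => f x / g x) :=
  comp₂ FP.div hf hg
theorem le' {f g : α → ℕ} (hf : FP A f) (hg : FP A g) : FP A (fun x => decide (f x ≤ g x)) :=
  comp₂ FP.le hf hg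
theorem pow' {f : α → ℕ} (hf : FP A f) (k : ℕ) : FP A (fun x => f x ^ k) := by
  induction k with
  | zero => simpa using FP.const 1
  | succ k ih => simpa only [pow_succ] using mul' ih hf
theorem size' {f : α → β} (hf : FP A f) : FP A (fun x => size (f x)) := FP.comp FP.sz hf

theorem lt' {f g : α → ℕ} (hf : FP A f) (hg : FP A g) : FP A (fun x => decide (f x < g x)) :=
  le' (add' hf (FP.const 1)) hg

theorem ite' {c : α → Bool} {f g : α → β} (hc : FP A c) (hf : FP A f) (hg : FP A g) :
    FP A (fun x => if c x = true then f x else g x) := FP.ite hc hf hg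

theorem congr {f g : α → β} (hf : FP A f) (h : ∀ x, f x = g x) : FP A g := by
  have : f = g := funext h
  exact this ▸ hf

theorem and' {f g : α → Bool} (hf : FP A f) (hg : FP A g) : FP A (fun x => f x && g x) :=
  congr (FP.ite hf hg (FP.const false)) (fun x => by cases f x <;> simp)

theorem or' {f g : α → Bool} (hf : FP A f) (hg : FP A g) : FP A (fun x => f x || g x) :=
  congr (FP.ite hf (FP.const true) hg) (fun x => by cases f x <;> simp)

theorem not' {f : α → Bool} (hf : FP A f) : FP A (fun x => !f x) :=
  congr (FP.ite hf (FP.const false) (FP.const true)) (fun x => by cases f x <;> simp)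

theorem xor' {f g : α → Bool} (hf : FP A f) (hg : FP A g) : FP A (fun x => xor (f x) (g x)) :=
  congr (FP.ite hf (not' hg) hg) (fun x => by cases f x <;> simp)

theorem beq' {f g : α → Bool} (hf : FP A f) (hg : FP A g) : FP A (fun x => f x == g x) :=
  congr (not' (xor' hf hg)) (fun x => by cases f x <;> cases g x <;> simp)

theorem eqN' {f g : α → ℕ} (hf : FP A f) (hg : FP A g) : FP A (fun x => decide (f x = g x)) :=
  congr (and' (le' hf hg) (le' hg hf)) (fun x => by
    rw [Bool.eq_iff_iff]; simp only [Bool.and_eq_true, decide_eq_true_eq]; omega)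

theorem eqb' {f g : α → List Bool} (hf : FP A f) (hg : FP A g) :
    FP A (fun x => decide (f x = g x)) := comp₂ FP.eqb hf hg
theorem lex' {f g : α → List Bool} (hf : FP A f) (hg : FP A g) :
    FP A (fun x => lexLt (f x) (g x)) := comp₂ FP.lt hf hg
theorem binlt' {f : α → List Bool} {g : α → ℕ} (hf : FP A f) (hg : FP A g) :
    FP A (fun x => decide (binval (f x) < g x)) := comp₂ FP.binlt hf hg

theorem cons' {f : α → β} {g : α → List β} (hf : FP A f) (hg : FP A g) :
    FP A (fun x => f x :: g x) := comp₂ FP.cons hf hg
theorem head' {f : α → β} {g : α → List β} (hf : FP A f) (hg : FP A g) :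
    FP A (fun x => (g x).headD (f x)) := comp₂ FP.head hf hg
theorem tail' {g : α → List β} (hg : FP A g) : FP A (fun x => (g x).tail) := FP.comp FP.tail hg
theorem append' {f g : α → List β} (hf : FP A f) (hg : FP A g) :
    FP A (fun x => f x ++ g x) := comp₂ FP.append hf hg
theorem length' {g : α → List β} (hg : FP A g) : FP A (fun x => (g x).length) :=
  FP.comp FP.length hg
theorem take' {f : α → ℕ} {g : α → List β} (hf : FP A f) (hg : FP A g) :
    FP A (fun x => (g x).take (f x)) := comp₂ FP.take hf hg
theorem drop' {f : α → ℕ} {g : α → List β} (hf : FP A f) (hg : FP A g) :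
    FP A (fun x => (g x).drop (f x)) := comp₂ FP.drop hf hg
theorem range' {f : α → ℕ} (hf : FP A f) : FP A (fun x => List.range (f x)) :=
  FP.comp FP.range hf
theorem zip' {f : α → List β} {g : α → List γ} (hf : FP A f) (hg : FP A g) :
    FP A (fun x => (f x).zip (g x)) := comp₂ FP.zip hf hg
theorem sum' {g : α → List ℕ} (hg : FP A g) : FP A (fun x => (g x).sum) := FP.comp FP.sum hg

theorem map' {g : α → List β} {f : α → β → γ} (hg : FP A g)
    (hf : FP A (fun p : α × β => f p.1 p.2)) : FP A (fun x => (g x).map (fun y => f x y)) :=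
  FP.comp (FP.map hf) (FP.pair FP.id hg)

theorem filter' {g : α → List β} {f : α → β → Bool} (hg : FP A g)
    (hf : FP A (fun p : α × β => f p.1 p.2)) : FP A (fun x => (g x).filter (fun y => f x y)) :=
  FP.comp (FP.filter hf) (FP.pair FP.id hg)

theorem any' {g : α → List β} {f : α → β → Bool} (hg : FP A g)
    (hf : FP A (fun p : α × β => f p.1 p.2)) : FP A (fun x => (g x).any (fun y => f x y)) :=
  congr (lt' (FP.const 0) (length' (filter' hg hf))) (fun x => by
    rw [Bool.eq_iff_iff]
    simp [List.length_pos_iff_exists_mem])

theorem all' {g : α → List β} {f : α → β → Bool} (hg : FP A g)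
    (hf : FP A (fun p : α × β => f p.1 p.2)) : FP A (fun x => (g x).all (fun y => f x y)) :=
  congr (not' (any' (f := fun x y => !f x y) hg (not' hf)))
    (fun x => by rw [List.all_eq_not_any_not])

theorem fold' {l : α → List β} {z : α → γ} {f : α → β → γ → γ} (hl : FP A l) (hz : FP A z)
    (hf : FP A (fun p : α × β × γ => f p.1 p.2.1 p.2.2)) (k : ℕ)
    (hk : ∀ (x : α) (l : List β) (z : γ),
      size (l.foldr (fun y w => f x y w) z) ≤ (size (x, l, z)) ^ k) :
    FP A (fun x => (l x).foldr (fun y w => f x y w) (z x)) :=
  FP.comp (FP.fold k hk hf) (FP.pair FP.id (FP.pair hl hz))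

/-- Folds with Boolean values. -/
theorem foldBool' {l : α → List β} {z : α → Bool} {f : α → β → Bool → Bool} (hl : FP A l)
    (hz : FP A z) (hf : FP A (fun p : α × β × Bool => f p.1 p.2.1 p.2.2)) :
    FP A (fun x => (l x).foldr (fun y w => f x y w) (z x)) :=
  fold' hl hz hf 0 (fun x l z => by simp)

theorem replicate' {n : α → ℕ} {f : α → β} (hn : FP A n) (hf : FP A f) :
    FP A (fun x => List.replicate (n x) (f x)) :=
  congr (map' (f := fun x _ => f x) (range' hn) (FP.comp hf FP.fst)) (fun x => by simp)

end FP

/-! ### Chunks of a bit string -/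

/-- The first `k` blocks of length `n` of a bit string. -/
def chunks (n k : ℕ) (l : List Bool) : List (List Bool) :=
  (List.range k).map (fun i => (l.drop (i * n)).take n)

theorem FP.chunks' {n k : α → ℕ} {f : α → List Bool} (hn : FP A n) (hk : FP A k) (hf : FP A f) :
    FP A (fun x => chunks (n x) (k x) (f x)) :=
  map' (f := fun x i => ((f x).drop (i * n x)).take (n x)) (range' hk)
    (take' (FP.comp hn FP.fst) (drop' (mul' FP.snd (FP.comp hn FP.fst)) (FP.comp hf FP.fst)))

@[simp] theorem chunks_zero (n : ℕ) (l : List Bool) : chunks n 0 l = [] := rfl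

@[simp] theorem length_chunks (n k : ℕ) (l : List Bool) : (chunks n k l).length = k := by
  simp [chunks]

theorem chunks_succ (n k : ℕ) (l : List Bool) :
    chunks n (k + 1) l = l.take n :: chunks n k (l.drop n) := by
  simp only [chunks, List.range_succ_eq_map, List.map_cons, List.map_map]
  congr 1
  · simp
  · refine List.map_congr_left (fun i _ => ?_)
    simp only [Function.comp, List.drop_drop]
    congr 2
    rw [Nat.succ_mul, Nat.add_comm]

theorem chunks_append {n k : ℕ} {l l' : List Bool} (h : l.length = n) :
    chunks n (k + 1) (l ++ l') = l :: chunks n k l' := by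
  rw [chunks_succ, ← h, List.take_left, List.drop_left]

theorem length_of_mem_chunks {n k : ℕ} {l c : List Bool} (h : l.length = k * n)
    (hc : c ∈ chunks n k l) : c.length = n := by
  obtain ⟨i, hi, rfl⟩ := List.mem_map.1 hc
  have hi := List.mem_range.1 hi
  rw [List.length_take, List.length_drop, h]
  have : (i + 1) * n ≤ k * n := Nat.mul_le_mul_right _ hi
  rw [Nat.add_mul, Nat.one_mul] at this
  omega

/-! ### Sums over bit strings -/

theorem mem_bits {n : ℕ} {l : List Bool} : l ∈ bits n ↔ l.length = n := by
  induction n generalizing l with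
  | zero => simp [bits_zero]
  | succ n ih =>
    cases l with
    | nil => simp [bits_succ]
    | cons a l => cases a <;> simp [bits_succ, ih]

theorem sum_bits_zero {M : Type*} [AddCommMonoid M] (f : List Bool → M) :
    ∑ l ∈ bits 0, f l = f [] := by simp [bits_zero]

theorem sum_bits_succ {M : Type*} [AddCommMonoid M] (n : ℕ) (f : List Bool → M) :
    ∑ l ∈ bits (n + 1), f l = ∑ l ∈ bits n, f (false :: l) + ∑ l ∈ bits n, f (true :: l) := by
  rw [bits_succ, Finset.sum_union, Finset.sum_image, Finset.sum_image]
  · intro a _ b _ h; exact (List.cons.inj h).2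
  · intro a _ b _ h; exact (List.cons.inj h).2
  · rw [Finset.disjoint_left]
    intro l h1 h2
    obtain ⟨a, _, rfl⟩ := Finset.mem_image.1 h1
    obtain ⟨b, _, h⟩ := Finset.mem_image.1 h2
    simp at h

theorem sum_bits_add {M : Type*} [AddCommMonoid M] (a b : ℕ) (f : List Bool → M) :
    ∑ l ∈ bits (a + b), f l = ∑ l ∈ bits a, ∑ k ∈ bits b, f (l ++ k) := by
  induction a generalizing f with
  | zero => simp [sum_bits_zero]
  | succ a ih =>
    rw [Nat.add_right_comm, sum_bits_succ, sum_bits_succ, ih, ih]
    simp

theorem card_bits (n : ℕ) : (bits n).card = 2 ^ n := by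
  induction n with
  | zero => simp [bits_zero]
  | succ n ih =>
    have h := sum_bits_succ n (fun _ => 1)
    simp only [Finset.sum_const, smul_eq_mul, mul_one, ih] at h
    rw [h, pow_succ]; omega

/-- Bitwise exclusive or. -/
def xorL (l k : List Bool) : List Bool := (l.zip k).map (fun p => xor p.1 p.2)

theorem FP.xorL' {f g : α → List Bool} (hf : FP A f) (hg : FP A g) :
    FP A (fun x => xorL (f x) (g x)) :=
  FP.map' (f := fun _ (p : Bool × Bool) => xor p.1 p.2) (FP.zip' hf hg)
    (FP.xor' (FP.fst' FP.snd) (FP.snd' FP.snd))

@[simp] theorem xorL_cons (a b : Bool) (l k : List Bool) :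
    xorL (a :: l) (b :: k) = xor a b :: xorL l k := rfl

theorem length_xorL {l k : List Bool} (h : l.length = k.length) :
    (xorL l k).length = l.length := by
  simp [xorL, h]

theorem sum_xorL {M : Type*} [AddCommMonoid M] {n : ℕ} {k : List Bool} (hk : k.length = n)
    (f : List Bool → M) : ∑ l ∈ bits n, f (xorL l k) = ∑ l ∈ bits n, f l := by
  induction n generalizing k f with
  | zero =>
    have : k = [] := List.length_eq_zero_iff.1 hk
    subst this
    rw [sum_bits_zero, sum_bits_zero]; rfl
  | succ n ih =>
    cases k with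
    | nil => simp at hk
    | cons b k =>
      rw [sum_bits_succ, sum_bits_succ]
      simp only [xorL_cons]
      rw [ih (by simpa using hk) (fun l => f (xor false b :: l)),
        ih (by simpa using hk) (fun l => f (xor true b :: l))]
      cases b
      · simp
      · simp [add_comm]

theorem sum_xorL_left {M : Type*} [AddCommMonoid M] {n : ℕ} {k : List Bool} (hk : k.length = n)
    (f : List Bool → M) : ∑ l ∈ bits n, f (xorL k l) = ∑ l ∈ bits n, f l := by
  rw [← sum_xorL hk f]
  refine Finset.sum_congr rfl (fun l _ => ?_)
  congr 1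
  simp only [xorL]
  rw [← List.zip_swap, List.map_map]
  congr 1
  funext p
  simp [Bool.xor_comm]

end Pool.Agent.FewPath
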