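import Mathlib

namespace Pool.Agent.FewPath

/-- Data types: Booleans, natural numbers (written in unary), pairs and lists. -/
inductive PTy : Type → Type 1
  | bool : PTy Bool
  | nat : PTy ℕ
  | prod {α β : Type} : PTy α → PTy β → PTy (α × β)
  | list {α : Type} : PTy α → PTy (List α)

attribute [class] PTy

instance instBool : PTy Bool := PTy.bool
instance instNat : PTy ℕ := PTy.nat
instance instProd {α β : Type} [a : PTy α] [b : PTy β] : PTy (α × β) := PTy.prod a b
instance instList {α : Type} [a : PTy α] : PTy (List α) := PTy.list a

/-- The size of a datum: Booleans have size 1, `n` has size `n + 1`, a pair has the sum of the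
sizes of its components, a list has the sum of the sizes of its elements plus 1. -/
noncomputable def PTy.sz {α : Type} (h : PTy α) : α → ℕ :=
  PTy.rec (motive := fun {α} _ => α → ℕ) (fun _ => 1) (fun n => n + 1)
    (fun _ _ s t x => s x.1 + t x.2) (fun _ s l => (l.map s).sum + 1) h

/-- The size of a datum. -/
noncomputable def size {α : Type} [h : PTy α] (x : α) : ℕ := h.sz x

/-- Lexicographic order of bit strings. -/
def lexLt (l : List Bool) : List Bool → Bool :=
  List.rec (fun k => !k.isEmpty) (fun a _ F k => !k.isEmpty &&
    ((!a && k.headD false) || ((a == k.headD false) && F k.tail))) l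

/-- The value of a bit string as a binary number (last bit most significant). -/
def binval (l : List Bool) : ℕ := l.foldr (fun a v => (if a = true then 1 else 0) + 2 * v) 0

/-- Functions computable in polynomial time with oracle `A`, as a function algebra: the least
class of functions between data types which contains the basic functions below and is closed
under composition, pairing, case distinction, map, filter and bounded recursion on lists. -/
inductive FP (A : List Bool → Bool) :
    {α β : Type} → [PTy α] → [PTy β] → (α → β) → Prop
  | id {α : Type} [PTy α] : FP A (fun x : α => x)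
  | const {α β : Type} [PTy α] [PTy β] (b : β) : FP A (fun _ : α => b)
  | comp {α β γ : Type} [PTy α] [PTy β] [PTy γ] {g : β → γ} {f : α → β} :
      FP A g → FP A f → FP A (fun x => g (f x))
  | pair {α β γ : Type} [PTy α] [PTy β] [PTy γ] {f : α → β} {g : α → γ} :
      FP A f → FP A g → FP A (fun x => (f x, g x))
  | fst {α β : Type} [PTy α] [PTy β] : FP A (fun x : α × β => x.1)
  | snd {α β : Type} [PTy α] [PTy β] : FP A (fun x : α × β => x.2)
  | ite {α β : Type} [PTy α] [PTy β] {c : α → Bool} {f g : α → β} :
      FP A c → FP A f → FP A g → FP A (fun x => if c x = true then f x else g x)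
  | add : FP A (fun x : ℕ × ℕ => x.1 + x.2)
  | sub : FP A (fun x : ℕ × ℕ => x.1 - x.2)
  | mul : FP A (fun x : ℕ × ℕ => x.1 * x.2)
  | div : FP A (fun x : ℕ × ℕ => x.1 / x.2)
  | le : FP A (fun x : ℕ × ℕ => decide (x.1 ≤ x.2))
  | log : FP A (fun n : ℕ => Nat.log 2 n)
  | pow : FP A (fun n : ℕ => 2 ^ Nat.log 2 n)
  | sz {α : Type} [PTy α] : FP A (fun x : α => size x)
  | cons {α : Type} [PTy α] : FP A (fun x : α × List α => x.1 :: x.2)
  | head {α : Type} [PTy α] : FP A (fun x : α × List α => x.2.headD x.1)
  | tail {α : Type} [PTy α] : FP A (fun l : List α => l.tail)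
  | append {α : Type} [PTy α] : FP A (fun x : List α × List α => x.1 ++ x.2)
  | length {α : Type} [PTy α] : FP A (fun l : List α => l.length)
  | take {α : Type} [PTy α] : FP A (fun x : ℕ × List α => x.2.take x.1)
  | drop {α : Type} [PTy α] : FP A (fun x : ℕ × List α => x.2.drop x.1)
  | range : FP A (fun n : ℕ => List.range n)
  | zip {α β : Type} [PTy α] [PTy β] : FP A (fun x : List α × List β => x.1.zip x.2)
  | sum : FP A (fun l : List ℕ => l.sum)
  | eqb : FP A (fun x : List Bool × List Bool => decide (x.1 = x.2))
  | lt : FP A (fun x : List Bool × List Bool => lexLt x.1 x.2)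
  | binlt : FP A (fun x : List Bool × ℕ => decide (binval x.1 < x.2))
  | oracle : FP A A
  | map {α β γ : Type} [PTy α] [PTy β] [PTy γ] {f : α × β → γ} :
      FP A f → FP A (fun x : α × List β => x.2.map (fun y => f (x.1, y)))
  | filter {α β : Type} [PTy α] [PTy β] {f : α × β → Bool} :
      FP A f → FP A (fun x : α × List β => x.2.filter (fun y => f (x.1, y)))
  | fold {α β γ : Type} [PTy α] [PTy β] [PTy γ] {f : α × β × γ → γ} (k : ℕ) :
      (∀ (x : α) (l : List β) (z : γ),
        size (l.foldr (fun y w => f (x, y, w)) z) ≤
          (size (x, l, z)) ^ k) →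
      FP A f → FP A (fun x : α × List β × γ => x.2.1.foldr (fun y w => f (x.1, y, w)) x.2.2)

/-- Levels of the polynomial hierarchy relative to `A`: `Sig A 0` is P, and `Sig A (n+1)`
consists of the sets `{x | ∃ y, |y| ≤ (|x|+1)^k ∧ M (x, y)}` with the complement of `M` in
`Sig A n`. -/
def Sig (A : List Bool → Bool) (n : ℕ) : {α : Type} → [PTy α] → (α → Prop) → Prop :=
  Nat.rec (motive := fun _ => {α : Type} → [PTy α] → (α → Prop) → Prop)
    (fun L => ∃ f, FP A f ∧ ∀ x, L x ↔ f x = true)
    (fun _ S {α} _ L => ∃ (β : Type) (_ : PTy β) (M : α × β → Prop) (k : ℕ),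
      S (fun p => ¬ M p) ∧ ∀ x, L x ↔ ∃ y, size y ≤ (size x + 1) ^ k ∧ M (x, y)) n

/-- The bit strings of length `n`. -/
def bits (n : ℕ) : Finset (List Bool) :=
  Nat.rec {[]} (fun _ S => S.image (fun l => false :: l) ∪ S.image (fun l => true :: l)) n

/-- The amplitude of the basis state `c` after `t` steps. -/
noncomputable def amp (m : ℕ) (back : List Bool → List Bool) (t : ℕ) : List Bool → ℝ :=
  Nat.rec (fun c => if c = List.replicate m false then 1 else 0)
    (fun _ a c => (a (false :: (back c).tail) +
        (if (back c).headD false = true then -1 else 1) * a (true :: (back c).tail))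
        / Real.sqrt 2) t

/-- The number of computation paths which lead to the basis state `c` in `t` steps. -/
def paths (m : ℕ) (back : List Bool → List Bool) (t : ℕ) : List Bool → ℕ :=
  Nat.rec (fun c => if c = List.replicate m false then 1 else 0)
    (fun _ a c => a (false :: (back c).tail) + a (true :: (back c).tail)) t

/-- The expectation of `f` over the outcomes of measuring the final states of the quantum
computations with numbers in the list `js`. -/
noncomputable def qE (m T : ℕ) (back : ℕ → List Bool → List Bool) (js : List ℕ) :
    (List (List Bool) → ℝ) → ℝ :=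
  List.rec (fun f => f [])
    (fun j _ E f => ∑ z ∈ bits m, amp m (back j) T z ^ 2 * E (fun zs => f (z :: zs))) js

/-- The outcomes of the quantum computations of the rounds made so far, the last round first. -/
abbrev Hist := List (List (List Bool))

/-- Polynomial-time machines with a constant number of rounds of quantum calls. On input `x` the
machine tosses `R x` coins `r` and then makes `rounds` rounds. In each round it makes `b x` quantum
computations on `m x` qubits (numbers which depend on `x` only); the computations may depend on
`u = (x, r, h)`, where `h` is the list of the outcomes of the previous rounds. The `j`-th one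
starts in the state `|0…0⟩` and makes `T x` steps, each of which applies a Hadamard gate to the
first qubit and then the permutation `step (u, j, ·)` of the basis states (the bit strings of
length `m x`), whose inverse is `back (u, j, ·)`; then all qubits are measured. At the end the
machine accepts if `dec (x, r, h)` is true. Without the condition `FewPaths` below these machines
decide the sets in BQP relative to `A` (a single computation is enough for that). -/
structure Machine (A : List Bool → Bool) (α : Type) [PTy α] where
  rounds : ℕ
  R : α → ℕ
  b : α → ℕ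
  T : α → ℕ
  m : α → ℕ
  step : (α × List Bool × Hist) × ℕ × List Bool → List Bool
  back : (α × List Bool × Hist) × ℕ × List Bool → List Bool
  dec : α × List Bool × Hist → Bool
  R_fp : FP A R
  b_fp : FP A b
  T_fp : FP A T
  m_fp : FP A m
  step_fp : FP A step
  back_fp : FP A back
  dec_fp : FP A dec
  m_pos : ∀ x, 0 < m x
  step_len : ∀ u j c, c.length = m u.1 → (step (u, j, c)).length = m u.1
  back_len : ∀ u j c, c.length = m u.1 → (back (u, j, c)).length = m u.1
  step_back : ∀ u j c, c.length = m u.1 → step (u, j, back (u, j, c)) = c
  back_step : ∀ u j c, c.length = m u.1 → back (u, j, step (u, j, c)) = c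

section

variable {A : List Bool → Bool} {α : Type} [PTy α]

/-- The expectation of `f` over the outcomes of the next round of `M`. -/
noncomputable def Machine.round (M : Machine A α) (u : α × List Bool × Hist)
    (f : List (List Bool) → ℝ) : ℝ :=
  qE (M.m u.1) (M.T u.1) (fun j c => M.back (u, j, c)) (List.range (M.b u.1)) f

/-- The probability that `M` accepts when `i` rounds are left. -/
noncomputable def Machine.accFrom (M : Machine A α) (i : ℕ) : α × List Bool × Hist → ℝ :=
  Nat.rec (fun u => if M.dec u = true then 1 else 0)
    (fun _ a u => M.round u (fun zs => a (u.1, u.2.1, zs :: u.2.2))) i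

/-- The probability that the machine `M` accepts the input `x`. -/
noncomputable def Machine.acc (M : Machine A α) (x : α) : ℝ :=
  (∑ r ∈ bits (M.R x), M.accFrom M.rounds (x, r, [])) / 2 ^ M.R x

/-- `M` decides `L` with error probability at most `1/3`. -/
def Machine.Decides (M : Machine A α) (L : α → Prop) : Prop :=
  ∀ x, (L x → 2 / 3 ≤ M.acc x) ∧ (¬ L x → M.acc x ≤ 1 / 3)

/-- Some outcome in the list `zs` of the outcomes of the next round of `M` is reached by more than
`K` computation paths. -/
def Machine.Heavy (M : Machine A α) (K : ℕ) (u : α × List Bool × Hist)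
    (zs : List (List Bool)) : Prop :=
  ∃ p ∈ (List.range (M.b u.1)).zip zs,
    K < paths (M.m u.1) (fun c => M.back (u, p.1, c)) (M.T u.1) p.2

open Classical in
/-- The probability that in one of the `i` rounds which are left some outcome is reached by more
than `K` computation paths. -/
noncomputable def Machine.manyFrom (M : Machine A α) (K i : ℕ) : α × List Bool × Hist → ℝ :=
  Nat.rec (fun _ => 0)
    (fun _ a u => M.round u (fun zs => if M.Heavy K u zs then 1
      else a (u.1, u.2.1, zs :: u.2.2))) i

/-- The probability that, on input `x`, some outcome of a quantum computation of `M` is reached by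
more than `(|x| + 1) ^ k` computation paths. -/
noncomputable def Machine.many (M : Machine A α) (k : ℕ) (x : α) : ℝ :=
  (∑ r ∈ bits (M.R x), M.manyFrom ((size x + 1) ^ k) M.rounds (x, r, [])) / 2 ^ M.R x

end

/-- With probability at least `99/100` all outcomes of the quantum computations of `M` are reached
by at most polynomially many computation paths. -/
def Machine.FewPaths {A : List Bool → Bool} {α : Type} [PTy α] (M : Machine A α) : Prop :=
  ∃ k : ℕ, ∀ x, M.many k x ≤ 1 / 100

/-- The languages decided with bounded error by machines with few paths. -/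
def Few (A : List Bool → Bool) {α : Type} [PTy α] (L : α → Prop) : Prop :=
  ∃ M : Machine A α, M.FewPaths ∧ M.Decides L

/-- The languages with witnesses of polynomial size which are verified by machines of the kind
allowed in `Few`. -/
def ExFew (A : List Bool → Bool) {α : Type} [PTy α] (L : α → Prop) : Prop :=
  ∃ (β : Type) (_ : PTy β) (N : α × β → Prop) (k : ℕ),
    Few A N ∧ ∀ x, L x ↔ ∃ y, size y ≤ (size x + 1) ^ k ∧ N (x, y)

open Classical in
/-- The class AM (Arthur-Merlin proofs with error probability at most `1/3`) relative to `A`. -/
def AM (A : List Bool → Bool) {α : Type} [PTy α] (L : α → Prop) : Prop :=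
  ∃ (β : Type) (_ : PTy β) (ell : α → ℕ) (V : α × List Bool × β → Bool) (k : ℕ),
    FP A ell ∧ FP A V ∧
    (∀ x, L x → 2 / 3 ≤ (((bits (ell x)).filter (fun r =>
      ∃ w, size w ≤ (size x + 1) ^ k ∧ V (x, r, w) = true)).card : ℝ) / 2 ^ ell x) ∧
    (∀ x, ¬ L x → (((bits (ell x)).filter (fun r =>
      ∃ w, size w ≤ (size x + 1) ^ k ∧ V (x, r, w) = true)).card : ℝ) / 2 ^ ell x ≤ 1 / 3)

end Pool.Agent.FewPath
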