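import Pool.Agent.FewPath.PH

namespace Pool.Agent.FewPath

/-! Auxiliary classes used in the proof only. -/

/-- Interactive-proof style average (internal). -/
def AMavg (A : List Bool → Bool) {α : Type} [PTy α] (L : α → Prop) : Prop :=
  ∃ (β : Type) (_ : PTy β) (ell B sc : α → ℕ) (pos neg : α × List Bool × β → ℕ)
    (ok : α × List Bool × β → Bool) (S : α → List Bool → ℝ) (k : ℕ),
    FP A ell ∧ FP A B ∧ FP A sc ∧ FP A pos ∧ FP A neg ∧ FP A ok ∧ (∀ x, 1 ≤ sc x) ∧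
    (∀ x ρ, ρ.length = ell x → |S x ρ| ≤ B x) ∧
    (∀ x ρ w, ρ.length = ell x → ok (x, ρ, w) = true →
      S x ρ ≤ (pos (x, ρ, w) : ℝ) - neg (x, ρ, w)) ∧
    (∀ x ρ, ρ.length = ell x → ∃ w, size w ≤ (size x + 1) ^ k ∧ ok (x, ρ, w) = true ∧
      (pos (x, ρ, w) : ℝ) - neg (x, ρ, w) ≤ S x ρ) ∧
    (∀ x, L x → (∑ ρ ∈ bits (ell x), S x ρ) / 2 ^ ell x ≤ 9 / 20 * sc x) ∧
    (∀ x, ¬ L x → 11 / 20 * sc x ≤ (∑ ρ ∈ bits (ell x), S x ρ) / 2 ^ ell x)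

open Classical in
/-- Arthur-Merlin proofs with exponentially small error (internal). -/
def AMs (A : List Bool → Bool) {α : Type} [PTy α] (L : α → Prop) : Prop :=
  ∃ (β : Type) (_ : PTy β) (ell : α × ℕ → ℕ) (V : (α × ℕ) × List Bool × β → Bool) (k : ℕ),
    FP A ell ∧ FP A V ∧
    (∀ x s, L x → ((bits (ell (x, s))).filter (fun ρ =>
      ¬ ∃ w, size w ≤ (size (x, s) + 1) ^ k ∧ V ((x, s), ρ, w) = true)).card * 2 ^ s ≤
        2 ^ ell (x, s)) ∧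
    (∀ x s, ¬ L x → ((bits (ell (x, s))).filter (fun ρ =>
      ∃ w, V ((x, s), ρ, w) = true)).card * 2 ^ s ≤ 2 ^ ell (x, s))

end Pool.Agent.FewPath
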