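import Pool.Agent.FewPath.WitRun

namespace Pool.Agent.FewPath

open Classical

variable {A : List Bool → Bool} {α β γ : Type} [PTy α] [PTy β] [PTy γ]

/-! ### The checks of the verifier are computable in polynomial time -/

/-- Boolean test for lists without repetitions. -/
noncomputable def nodupB (l : List (List Bool)) : Bool :=
  l.all (fun y => decide ((l.filter (fun z => decide (z = y))).length ≤ 1))

theorem nodupB_iff (l : List (List Bool)) : nodupB l = true ↔ l.Nodup := by
  rw [nodupB, List.all_eq_true, List.nodup_iff_count_le_one]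
  constructor
  · intro h a
    by_cases ha : a ∈ l
    · have := h a ha
      rw [decide_eq_true_eq] at this
      rw [List.count_eq_length_filter]
      refine le_trans (le_of_eq ?_) this
      congr 2
      funext z
      rw [beq_eq_decide]
    · rw [List.count_eq_zero_of_not_mem ha]; omega
  · intro h a _
    have := h a
    rw [decide_eq_true_eq]
    rw [List.count_eq_length_filter] at this
    refine le_trans (le_of_eq ?_) this
    congr 2
    funext z
    rw [beq_eq_decide]

theorem FP.nodup' {f : α → List (List Bool)} (hf : FP A f) : FP A (fun x => nodupB (f x)) :=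
  FP.all' (f := fun x y => decide (((f x).filter (fun z => decide (z = y))).length ≤ 1)) hf
    (FP.le' (FP.length' (FP.filter' (f := fun (p : α × List Bool) z => decide (z = p.2))
      (FP.comp hf FP.fst) (FP.eqb' FP.snd (FP.snd' FP.fst)))) (FP.const 1))

theorem FP.dot' {f g : α → List Bool} (hf : FP A f) (hg : FP A g) :
    FP A (fun x => dot (f x) (g x)) :=
  FP.foldBool' (f := fun _ (p : Bool × Bool) acc => xor (p.1 && p.2) acc)
    (FP.zip' hf hg) (FP.const false)
    (FP.xor' (FP.and' (FP.fst' (FP.fst' FP.snd)) (FP.snd' (FP.fst' FP.snd))) (FP.snd' FP.snd))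

theorem FP.hit' {f : α → List Bool} {g : α → List (List Bool)} (hf : FP A f) (hg : FP A g) :
    FP A (fun x => hit (f x) (g x)) :=
  FP.all' (f := fun x row => hitRow (f x) row) hg
    (FP.beq' (FP.head' (FP.const false) FP.snd) (FP.dot' (FP.tail' FP.snd) (FP.comp hf FP.fst)))

theorem FP.min' {f g : α → ℕ} (hf : FP A f) (hg : FP A g) : FP A (fun x => min (f x) (g x)) :=
  (FP.sub' hf (FP.sub' hf hg)).congr (fun x => by omega)

theorem FP.om' {K s n : α → ℕ} (hK : FP A K) (hs : FP A s) (hn : FP A n) :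
    FP A (fun x => om (K x) (s x) (n x)) :=
  have h1 := FP.min' hn (FP.add' hK (FP.const 1))
  FP.mul' hs (FP.mul' h1 (FP.sub' (FP.add' (FP.mul' (FP.const 2) hK) (FP.const 2)) h1))

theorem FP.ph' {K s n : α → ℕ} (hK : FP A K) (hs : FP A s) (hn : FP A n) :
    FP A (fun x => ph (K x) (s x) (n x)) :=
  (FP.ite' (FP.le' hn (FP.add' hK (FP.const 1)))
    (FP.mul' hs (FP.sub' (FP.add' (FP.mul' (FP.const 2) hK) (FP.const 2)) hn))
    (FP.add' (FP.div' (FP.mul' hs (FP.pow' (FP.add' hK (FP.const 1)) 2)) hn)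
      (FP.const 1))).congr (fun x => by simp only [ph, decide_eq_true_eq])

section

variable (M : Machine A α) (k0 : ℕ)

/-- The step permutations of `M`. -/
noncomputable def stp (u : α × List Bool × Hist) (j : ℕ) (c : List Bool) : List Bool := M.step (u, j, c)
noncomputable def bck (u : α × List Bool × Hist) (j : ℕ) (c : List Bool) : List Bool := M.back (u, j, c)

theorem isPerm (u : α × List Bool × Hist) (j : ℕ) : IsPerm (M.m u.1) (stp M u j) (bck M u j) :=
  ⟨M.m_pos u.1, M.step_len u j, M.back_len u j, M.step_back u j, M.back_step u j⟩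

/-- Simulation of a path. -/
noncomputable def sim (v : (α × List Bool × Hist) × ℕ) (p : List Bool) : List Bool × Bool :=
  p.foldr (fun b st => ((M.step (v.1, v.2, b :: st.1.tail)).take (M.m v.1.1),
    xor st.2 (b && st.1.headD false))) (List.replicate (M.m v.1.1) false, false)

theorem sim_eq (v : (α × List Bool × Hist) × ℕ) (p : List Bool) :
    sim M v p = (endOf (M.m v.1.1) (stp M v.1 v.2) p, sgn (M.m v.1.1) (stp M v.1 v.2) p) := by
  induction p with
  | nil => rfl
  | cons b p ih =>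
    have h1 := length_endOf (isPerm M v.1 v.2) (b :: p)
    rw [sim] at ih ⊢
    rw [List.foldr_cons, ih]
    refine Prod.ext ?_ rfl
    dsimp only
    have h2 : M.step (v.1, v.2, b :: (endOf (M.m v.1.1) (stp M v.1 v.2) p).tail) =
        endOf (M.m v.1.1) (stp M v.1 v.2) (b :: p) := rfl
    rw [h2, List.take_of_length_le h1.le]

theorem sim_fp : FP A (fun q : ((α × List Bool × Hist) × ℕ) × List Bool => sim M q.1 q.2) := by
  obtain ⟨κ, hκ⟩ := M.m_fp.bddNat
  refine FP.fold' (f := fun (q : ((α × List Bool × Hist) × ℕ) × List Bool) b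
    (st : List Bool × Bool) => ((M.step (q.1.1, q.1.2, b :: st.1.tail)).take (M.m q.1.1.1),
    xor st.2 (b && st.1.headD false))) FP.snd ?_ ?_ (κ + 1) ?_
  · exact FP.pair (FP.replicate' (FP.comp M.m_fp (FP.fst' (FP.fst' FP.fst))) (FP.const false))
      (FP.const false)
  · have h1 : FP A (fun p : (((α × List Bool × Hist) × ℕ) × List Bool) × Bool ×
        (List Bool × Bool) => p.1.1) := FP.fst' FP.fst
    have h2 : FP A (fun p : (((α × List Bool × Hist) × ℕ) × List Bool) × Bool ×
        (List Bool × Bool) => p.2.2.1) := FP.fst' (FP.snd' FP.snd)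
    refine FP.pair (FP.take' (FP.comp M.m_fp (FP.fst' (FP.fst' h1))) (FP.comp M.step_fp
      (FP.pair (FP.fst' h1) (FP.pair (FP.snd' h1) (FP.cons' (FP.fst' FP.snd) (FP.tail' h2))))))
      (FP.xor' (FP.snd' (FP.snd' FP.snd)) (FP.and' (FP.fst' FP.snd)
        (FP.head' (FP.const false) h2)))
  · intro x l z
    cases l with
    | nil =>
      rw [List.foldr_nil, size_prod]
      have h1 := size_pos x
      calc size z ≤ size x + (size ([] : List Bool) + size z) := by omega
        _ = (size x + (size ([] : List Bool) + size z)) ^ 1 := by rw [pow_one]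
        _ ≤ _ := Nat.pow_le_pow_right (by omega) (by omega)
    | cons b l =>
      rw [List.foldr_cons, size_prod]
      set st := l.foldr (fun b (st : List Bool × Bool) =>
        ((M.step (x.1.1, x.1.2, b :: st.1.tail)).take (M.m x.1.1.1),
        xor st.2 (b && st.1.headD false))) z
      dsimp only
      rw [size_bits, size_bool]
      have h1 : ((M.step (x.1.1, x.1.2, b :: st.1.tail)).take (M.m x.1.1.1)).length ≤
          M.m x.1.1.1 := List.length_take_le _ _
      have h2 := hκ x.1.1.1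
      have h3 : size x.1.1.1 + 1 ≤ size (x, b :: l, z) := by
        have h4 := size_pos x.2
        simp only [size_prod]
        omega
      have h4 : (size x.1.1.1 + 1) ^ κ ≤ size (x, b :: l, z) ^ κ := Nat.pow_le_pow_left h3 _
      have h5 : 3 ≤ size (x, b :: l, z) := by
        have h4 := size_pos x
        have h5 := size_pos (b :: l)
        have h6 := size_pos z
        have h7 : size (x, b :: l, z) = size x + (size (b :: l) + size z) := rfl
        omega
      have h6 : 1 ≤ size (x, b :: l, z) ^ κ := Nat.one_le_pow _ _ (by omega)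
      rw [pow_succ]
      nlinarith

theorem endF_fp : FP A (fun q : ((α × List Bool × Hist) × ℕ) × List Bool =>
    endOf (M.m q.1.1.1) (stp M q.1.1 q.1.2) q.2) :=
  (FP.fst' (sim_fp M)).congr (fun q => by rw [sim_eq])

theorem sgnF_fp : FP A (fun q : ((α × List Bool × Hist) × ℕ) × List Bool =>
    sgn (M.m q.1.1.1) (stp M q.1.1 q.1.2) q.2) :=
  (FP.snd' (sim_fp M)).congr (fun q => by rw [sim_eq])

theorem FP.endOf' {f : β → (α × List Bool × Hist) × ℕ} {g : β → List Bool} (hf : FP A f)
    (hg : FP A g) : FP A (fun y => endOf (M.m (f y).1.1) (stp M (f y).1 (f y).2) (g y)) :=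
  FP.comp (endF_fp M) (FP.pair hf hg)

theorem FP.sgn' {f : β → (α × List Bool × Hist) × ℕ} {g : β → List Bool} (hf : FP A f)
    (hg : FP A g) : FP A (fun y => sgn (M.m (f y).1.1) (stp M (f y).1 (f y).2) (g y)) :=
  FP.comp (sgnF_fp M) (FP.pair hf hg)

/-! ### Parameters -/

noncomputable def pK (x : α) : ℕ := (size x + 1) ^ k0
noncomputable def pE (x : α) : ℕ := Nat.log 2 (pK k0 x) + 1
noncomputable def pN (x : α) : ℕ := (M.rounds + 1) * (M.b x + 1)
noncomputable def pL (x : α) : ℕ := 2 ^ pE k0 x * (2 * (80 * pN M x))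
noncomputable def pSc (x : α) : ℕ := 120 * pN M x * pL M k0 x

/-- The scale of a round in terms of a bound for the statistics of the later rounds. -/
noncomputable def sOf (B : α → ℕ) (x : α) : ℕ := 2 * B x + 2
noncomputable def aOf (B : α → ℕ) (x : α) : ℕ := sOf B x * (pK k0 x + 1) ^ 2
noncomputable def cOf (B : α → ℕ) (x : α) : ℕ := Nat.log 2 (aOf k0 B x) + 1

/-- A bound for the statistic of the last `i` rounds. -/
noncomputable def pB : ℕ → α → ℕ
  | 0, x => pSc M k0 x
  | i + 1, x => pB i x + M.b x * (pL M k0 x * (sOf (pB i) x * (2 * pK k0 x + 2) +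
      2 ^ cOf k0 (pB i) x * aOf k0 (pB i) x))

/-- The parameters of the round after which `i` rounds are left. -/
noncomputable def par (i : ℕ) (x : α) : Par where
  m := M.m x
  T := M.T x
  e := pE k0 x
  c := cOf k0 (pB M k0 i) x
  K := pK k0 x
  s := sOf (pB M k0 i) x
  Kp := aOf k0 (pB M k0 i) x + pK k0 x + 2
  L := pL M k0 x

theorem lt_two_pow_log (n : ℕ) : n < 2 ^ (Nat.log 2 n + 1) :=
  Nat.lt_pow_succ_log_self (by norm_num) n

theorem par_ok (i : ℕ) (x : α) : (par M k0 i x).Ok where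
  s_ge := by change 2 ≤ 2 * pB M k0 i x + 2; omega
  K_le := (lt_two_pow_log _).le
  c_ge := (lt_two_pow_log (aOf k0 (pB M k0 i) x)).le
  Kp_gt := by
    change aOf k0 (pB M k0 i) x < aOf k0 (pB M k0 i) x + pK k0 x + 2
    omega
  Kp_ge := by
    change pK k0 x + 2 ≤ aOf k0 (pB M k0 i) x + pK k0 x + 2
    omega

theorem pK_fp : FP A (fun x : α => pK k0 x) := FP.sizePow FP.id k0

theorem pE_fp : FP A (fun x : α => pE k0 x) :=
  FP.add' (FP.comp FP.log (pK_fp k0)) (FP.const 1)

theorem pE2_fp : FP A (fun x : α => 2 ^ pE k0 x) :=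
  (FP.mul' (FP.comp FP.pow (pK_fp k0)) (FP.const 2)).congr
    (fun _ => (pow_succ _ _).symm)

theorem pN_fp : FP A (pN M) := FP.mul' (FP.const _) (FP.add' M.b_fp (FP.const 1))

theorem pL_fp : FP A (pL M k0) :=
  FP.mul' (pE2_fp k0) (FP.mul' (FP.const 2) (FP.mul' (FP.const 80) (pN_fp M)))

theorem pSc_fp : FP A (pSc M k0) :=
  FP.mul' (FP.mul' (FP.const 120) (pN_fp M)) (pL_fp M k0)

theorem sOf_fp {B : α → ℕ} (hB : FP A B) : FP A (sOf B) :=
  FP.add' (FP.mul' (FP.const 2) hB) (FP.const 2)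

theorem aOf_fp {B : α → ℕ} (hB : FP A B) : FP A (aOf k0 B) :=
  FP.mul' (sOf_fp hB) (FP.pow' (FP.add' (pK_fp k0) (FP.const 1)) 2)

theorem cOf_fp {B : α → ℕ} (hB : FP A B) : FP A (cOf k0 B) :=
  FP.add' (FP.comp FP.log (aOf_fp k0 hB)) (FP.const 1)

theorem cOf2_fp {B : α → ℕ} (hB : FP A B) : FP A (fun x : α => 2 ^ cOf k0 B x) :=
  (FP.mul' (FP.comp FP.pow (aOf_fp k0 hB)) (FP.const 2)).congr
    (fun _ => (pow_succ _ _).symm)

theorem pB_fp (i : ℕ) : FP A (pB M k0 i) := by
  induction i with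
  | zero => exact pSc_fp M k0
  | succ i ih =>
    exact FP.add' ih (FP.mul' M.b_fp (FP.mul' (pL_fp M k0) (FP.add' (FP.mul' (sOf_fp ih)
      (FP.add' (FP.mul' (FP.const 2) (pK_fp k0)) (FP.const 2)))
      (FP.mul' (cOf2_fp k0 ih) (aOf_fp k0 ih)))))

variable (i : ℕ)

section

variable {x : β → α} (hx : FP A x)

include hx

theorem m_fp' : FP A (fun y => (par M k0 i (x y)).m) :=
  (FP.comp M.m_fp hx).congr (fun _ => rfl)
theorem T_fp' : FP A (fun y => (par M k0 i (x y)).T) :=
  (FP.comp M.T_fp hx).congr (fun _ => rfl)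
theorem e_fp' : FP A (fun y => (par M k0 i (x y)).e) :=
  (FP.comp (pE_fp k0) hx).congr (fun _ => rfl)
theorem c_fp' : FP A (fun y => (par M k0 i (x y)).c) :=
  (FP.comp (cOf_fp k0 (pB_fp M k0 i)) hx).congr (fun _ => rfl)
theorem c2_fp' : FP A (fun y => 2 ^ (par M k0 i (x y)).c) :=
  (FP.comp (g := fun x => 2 ^ cOf k0 (pB M k0 i) x) (cOf2_fp k0 (pB_fp M k0 i)) hx).congr
    (fun _ => rfl)
theorem K_fp' : FP A (fun y => (par M k0 i (x y)).K) :=
  (FP.comp (pK_fp k0) hx).congr (fun _ => rfl)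
theorem s_fp' : FP A (fun y => (par M k0 i (x y)).s) :=
  (FP.comp (sOf_fp (pB_fp M k0 i)) hx).congr (fun _ => rfl)
theorem Kp_fp' : FP A (fun y => (par M k0 i (x y)).Kp) :=
  (FP.comp (g := fun x => aOf k0 (pB M k0 i) x + pK k0 x + 2)
    (FP.add' (FP.add' (aOf_fp k0 (pB_fp M k0 i)) (pK_fp k0)) (FP.const 2)) hx).congr
    (fun _ => rfl)
theorem L_fp' : FP A (fun y => (par M k0 i (x y)).L) :=
  (FP.comp (pL_fp M k0) hx).congr (fun _ => rfl)

theorem ell2_fp' : FP A (fun y => ell2 (par M k0 i (x y))) :=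
  FP.add' (T_fp' M k0 i hx) (FP.add' (e_fp' M k0 i hx) (FP.mul' (FP.add' (T_fp' M k0 i hx)
    (c_fp' M k0 i hx)) (FP.add' (m_fp' M k0 i hx) (FP.const 1))))

theorem posC_fp {w : β → WC} (hw : FP A w) :
    FP A (fun y => posC (par M k0 i (x y)) (w y)) :=
  FP.ph' (K_fp' M k0 i hx) (s_fp' M k0 i hx) (FP.min' (FP.length' (FP.fst' hw))
    (Kp_fp' M k0 i hx))

theorem negC_fp {w : β → WC} (hw : FP A w) :
    FP A (fun y => negC (par M k0 i (x y)) (w y)) :=
  FP.mul' (c2_fp' M k0 i hx) (FP.om' (K_fp' M k0 i hx) (s_fp' M k0 i hx)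
    (FP.length' (FP.snd' hw)))

theorem posL_fp {cl : β → List (List Bool)} {Wl : β → List WC}
    (hcl : FP A cl) (hW : FP A Wl) : FP A (fun y => posL (par M k0 i (x y)) (cl y) (Wl y)) := by
  have h1 : FP A (fun p : β × (List Bool × WC) => x p.1) := FP.comp hx FP.fst
  have h2 : FP A (fun p : β × (List Bool × WC) => p.2.2) := FP.snd' FP.snd
  exact FP.sum' (FP.map' (f := fun y (q : List Bool × WC) => posC (par M k0 i (x y)) q.2)
    (FP.zip' hcl hW) (posC_fp M k0 i h1 h2))

theorem negL_fp {cl : β → List (List Bool)} {Wl : β → List WC}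
    (hcl : FP A cl) (hW : FP A Wl) :
    FP A (fun y => negL (par M k0 i (x y)) (cl y) (Wl y)) := by
  have h1 : FP A (fun p : β × (List Bool × WC) => x p.1) := FP.comp hx FP.fst
  have h2 : FP A (fun p : β × (List Bool × WC) => p.2.2) := FP.snd' FP.snd
  exact FP.sum' (FP.map' (f := fun y (q : List Bool × WC) => negC (par M k0 i (x y)) q.2)
    (FP.zip' hcl hW) (negC_fp M k0 i h1 h2))

end

/-! ### Candidates -/

/-- Boolean version of `chk`. -/
noncomputable def chkB (v : (α × List Bool × Hist) × ℕ) (ch : List Bool) (w : WC) : Bool :=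
  ((nodupB w.1 && w.1.all (fun p => decide (p.length = M.T v.1.1) &&
    decide (endOf (M.m v.1.1) (stp M v.1 v.2) p =
      endOf (M.m v.1.1) (stp M v.1 v.2) (ch.take (M.T v.1.1))))) &&
  (nodupB w.2 && w.2.all (fun p => decide (p.length = M.T v.1.1) &&
    decide (endOf (M.m v.1.1) (stp M v.1 v.2) p =
      endOf (M.m v.1.1) (stp M v.1 v.2) (w.2.headD []))))) &&
  (decide (w.2.length ≤ 0) || hit (endOf (M.m v.1.1) (stp M v.1 v.2) (w.2.headD []))
    (rowsOf (par M k0 i v.1.1) ch))

theorem chkB_iff (u : α × List Bool × Hist) (j : ℕ) (ch : List Bool) (w : WC) :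
    chkB M k0 i (u, j) ch w = true ↔ chk (par M k0 i u.1) (stp M u) j ch w := by
  simp only [chkB, chk, Bool.and_eq_true, nodupB_iff, List.all_eq_true, decide_eq_true_eq,
    Bool.or_eq_true, nonpos_iff_eq_zero, List.length_eq_zero_iff, and_assoc]
  rfl

theorem rowsOf_fp {x : β → α} {g : β → List Bool} (hx : FP A x) (hg : FP A g) :
    FP A (fun y => rowsOf (par M k0 i (x y)) (g y)) :=
  FP.chunks' (FP.add' (m_fp' M k0 i hx) (FP.const 1)) (FP.add' (T_fp' M k0 i hx)
    (c_fp' M k0 i hx)) (FP.drop' (e_fp' M k0 i hx) (FP.drop' (T_fp' M k0 i hx) hg))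

theorem chkB_fp {f : β → (α × List Bool × Hist) × ℕ} {g : β → List Bool} {w : β → WC}
    (hf : FP A f) (hg : FP A g) (hw : FP A w) :
    FP A (fun y => chkB M k0 i (f y) (g y) (w y)) := by
  have hx : FP A (fun y => (f y).1.1) := FP.fst' (FP.fst' hf)
  have h1 : FP A (fun y => nodupB (w y).1) := FP.nodup' (FP.fst' hw)
  have h2 : FP A (fun y => nodupB (w y).2) := FP.nodup' (FP.snd' hw)
  have hT : FP A (fun y => M.T (f y).1.1) := FP.comp M.T_fp hx
  have h3 : FP A (fun y => (w y).1.all (fun p => decide (p.length = M.T (f y).1.1) &&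
    decide (endOf (M.m (f y).1.1) (stp M (f y).1 (f y).2) p =
      endOf (M.m (f y).1.1) (stp M (f y).1 (f y).2) ((g y).take (M.T (f y).1.1))))) := by
    refine FP.all' (f := fun y p => decide (p.length = M.T (f y).1.1) &&
      decide (endOf (M.m (f y).1.1) (stp M (f y).1 (f y).2) p =
      endOf (M.m (f y).1.1) (stp M (f y).1 (f y).2) ((g y).take (M.T (f y).1.1))))
      (FP.fst' hw) ?_
    exact FP.and' (FP.eqN' (FP.length' FP.snd)
        (FP.comp (g := fun y => M.T (f y).1.1) hT FP.fst))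
      (FP.eqb' (FP.endOf' M (FP.comp hf FP.fst) FP.snd) (FP.endOf' M (FP.comp hf FP.fst)
        (FP.take' (FP.comp (g := fun y => M.T (f y).1.1) hT FP.fst) (FP.comp hg FP.fst))))
  have h4 : FP A (fun y => (w y).2.all (fun p => decide (p.length = M.T (f y).1.1) &&
    decide (endOf (M.m (f y).1.1) (stp M (f y).1 (f y).2) p =
      endOf (M.m (f y).1.1) (stp M (f y).1 (f y).2) ((w y).2.headD [])))) := by
    refine FP.all' (f := fun y p => decide (p.length = M.T (f y).1.1) &&
      decide (endOf (M.m (f y).1.1) (stp M (f y).1 (f y).2) p =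
      endOf (M.m (f y).1.1) (stp M (f y).1 (f y).2) ((w y).2.headD [])))
      (FP.snd' hw) ?_
    exact FP.and' (FP.eqN' (FP.length' FP.snd)
        (FP.comp (g := fun y => M.T (f y).1.1) hT FP.fst))
      (FP.eqb' (FP.endOf' M (FP.comp hf FP.fst) FP.snd) (FP.endOf' M (FP.comp hf FP.fst)
        (FP.head' (FP.const []) (FP.comp (g := fun y => (w y).2) (FP.snd' hw) FP.fst))))
  have h5 : FP A (fun y => hit (endOf (M.m (f y).1.1) (stp M (f y).1 (f y).2)
      ((w y).2.headD [])) (rowsOf (par M k0 i (f y).1.1) (g y))) :=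
    FP.hit' (FP.endOf' M hf (FP.head' (FP.const []) (FP.snd' hw)))
      (rowsOf_fp M k0 i (x := fun y => (f y).1.1) hx hg)
  exact FP.and' (FP.and' (FP.and' h1 h3) (FP.and' h2 h4))
    (FP.or' (FP.le' (FP.length' (FP.snd' hw)) (FP.const 0)) h5)

theorem accW_fp {f : β → (α × List Bool × Hist) × ℕ} {g : β → List Bool}
    {l : β → List (List Bool)} (hf : FP A f) (hg : FP A g) (hl : FP A l) :
    FP A (fun y => accW (par M k0 i (f y).1.1) (stp M (f y).1) (f y).2 (g y) (l y)) := by
  have hx : FP A (fun y => (f y).1.1) := FP.fst' (FP.fst' hf)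
  have hT : FP A (fun y => M.T (f y).1.1) := FP.comp M.T_fp hx
  have h1 : FP A (fun y => ((l y).filter (fun p =>
      !sgn (M.m (f y).1.1) (stp M (f y).1 (f y).2) p)).length) :=
    FP.length' (FP.filter' (f := fun y p =>
      !sgn (M.m (f y).1.1) (stp M (f y).1 (f y).2) p) hl
      (FP.not' (FP.sgn' M (FP.comp hf FP.fst) FP.snd)))
  have h2 : FP A (fun y => ((l y).filter (fun p =>
      sgn (M.m (f y).1.1) (stp M (f y).1 (f y).2) p)).length) :=
    FP.length' (FP.filter' (f := fun y p =>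
      sgn (M.m (f y).1.1) (stp M (f y).1 (f y).2) p) hl
      (FP.sgn' M (FP.comp hf FP.fst) FP.snd))
  have h3 : FP A (fun y => netW (par M k0 i (f y).1.1) (stp M (f y).1) (f y).2 (l y)) :=
    FP.add' (FP.sub' h1 h2) (FP.sub' h2 h1)
  have h4 : FP A (fun y => ((l y).filter (fun q =>
      lexLt q ((g y).take (M.T (f y).1.1)))).length) :=
    FP.length' (FP.filter' (f := fun y q => lexLt q ((g y).take (M.T (f y).1.1))) hl
      (FP.lex' FP.snd (FP.take' (FP.comp (g := fun y => M.T (f y).1.1) hT FP.fst)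
        (FP.comp hg FP.fst))))
  exact FP.and' (FP.le' (FP.length' hl) (K_fp' M k0 i hx))
    (FP.and' (FP.lt' h4 h3) (FP.binlt' (FP.take' (e_fp' M k0 i hx)
      (FP.drop' hT hg)) h3))

theorem zOf_fp {f : β → (α × List Bool × Hist) × ℕ} {g : β → List Bool} (hf : FP A f)
    (hg : FP A g) :
    FP A (fun y => zOf (par M k0 i (f y).1.1) (stp M (f y).1) (f y).2 (g y)) :=
  (FP.endOf' M hf (FP.take' (FP.comp M.T_fp (FP.fst' (FP.fst' hf))) hg)).congr (fun _ => rfl)

/-! ### Blocks -/

theorem outWl_fp {f : β → (α × List Bool × Hist) × ℕ} {cl : β → List (List Bool)}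
    {Wl : β → List WC} (hf : FP A f) (hcl : FP A cl) (hW : FP A Wl) :
    FP A (fun y => outWl (par M k0 i (f y).1.1) (stp M (f y).1) (f y).2 (cl y) (Wl y)) := by
  have h1 : FP A (fun p : β × (List Bool × WC) => f p.1) := FP.comp hf FP.fst
  have h2 : FP A (fun p : β × (List Bool × WC) => p.2.1) := FP.fst' FP.snd
  have h3 : FP A (fun p : β × (List Bool × WC) => p.2.2.1) := FP.fst' (FP.snd' FP.snd)
  exact FP.head' (FP.const []) (FP.map' (g := fun y => ((cl y).zip (Wl y)).filter
    (fun q => accW (par M k0 i (f y).1.1) (stp M (f y).1) (f y).2 q.1 q.2.1))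
      (f := fun y q => zOf (par M k0 i (f y).1.1) (stp M (f y).1) (f y).2 q.1)
      (FP.filter' (f := fun y q =>
          accW (par M k0 i (f y).1.1) (stp M (f y).1) (f y).2 q.1 q.2.1)
            (FP.zip' hcl hW) (accW_fp M k0 i h1 h2 h3)) (zOf_fp M k0 i h1 h2))

noncomputable def okLB (v : (α × List Bool × Hist) × ℕ) (cl : List (List Bool)) (Wl : List WC) : Bool :=
  decide (Wl.length = cl.length) && (cl.zip Wl).all (fun q => chkB M k0 i v q.1 q.2)

theorem okLB_iff (u : α × List Bool × Hist) (j : ℕ) (cl : List (List Bool)) (Wl : List WC) :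
    okLB M k0 i (u, j) cl Wl = true ↔ okL (par M k0 i u.1) (stp M u) j cl Wl := by
  simp only [okLB, okL, Bool.and_eq_true, decide_eq_true_eq, List.all_eq_true, chkB_iff]

theorem okLB_fp {f : β → (α × List Bool × Hist) × ℕ} {cl : β → List (List Bool)}
    {Wl : β → List WC} (hf : FP A f) (hcl : FP A cl) (hW : FP A Wl) :
    FP A (fun y => okLB M k0 i (f y) (cl y) (Wl y)) := by
  have h1 : FP A (fun p : β × (List Bool × WC) => f p.1) := FP.comp hf FP.fst
  have h2 : FP A (fun p : β × (List Bool × WC) => p.2.1) := FP.fst' FP.snd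
  have h3 : FP A (fun p : β × (List Bool × WC) => p.2.2) := FP.snd' FP.snd
  exact FP.and' (FP.eqN' (FP.length' hW) (FP.length' hcl))
    (FP.all' (f := fun y (q : List Bool × WC) => chkB M k0 i (f y) q.1 q.2) (FP.zip' hcl hW)
      (chkB_fp M k0 i h1 h2 h3))

end

end Pool.Agent.FewPath
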