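import Pool.Agent.FewPath.Mean

namespace Pool.Agent.FewPath

open Classical

variable {A : List Bool → Bool} {α : Type} [PTy α]

section

variable (M : Machine A α) (k0 : ℕ)

/-- The witness type. -/
abbrev WR := List (List (List WC))

/-- The state of the verification after one round. -/
noncomputable def nxt (i : ℕ) (q : (α × List Bool × Hist) × List Bool × WR) :
    (α × List Bool × Hist) × List Bool × WR :=
  ((q.1.1, q.1.2.1, outsW (par M k0 i q.1.1) (stp M q.1) (List.range (M.b q.1.1))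
      (blks M k0 i q.1.1 q.2.1) (q.2.2.headD []) :: q.1.2.2),
    q.2.1.drop (rlen M k0 i q.1.1), q.2.2.tail)

noncomputable def okM : ℕ → (α × List Bool × Hist) × List Bool × WR → Bool
  | 0, _ => true
  | i + 1, q => (decide ((q.2.2.headD []).length = M.b q.1.1) &&
      ((List.range (M.b q.1.1)).zip ((blks M k0 i q.1.1 q.2.1).zip (q.2.2.headD []))).all
        (fun v => okLB M k0 i (q.1, v.1) (chunks (ell2 (par M k0 i q.1.1))
          (par M k0 i q.1.1).L v.2.1) v.2.2)) && okM i (nxt M k0 i q)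

noncomputable def posM : ℕ → (α × List Bool × Hist) × List Bool × WR → ℕ
  | 0, q => if M.dec q.1 = true then pSc M k0 q.1.1 else 0
  | i + 1, q => posR (par M k0 i q.1.1) (List.range (M.b q.1.1)) (blks M k0 i q.1.1 q.2.1)
      (q.2.2.headD []) + posM i (nxt M k0 i q)

noncomputable def negM : ℕ → (α × List Bool × Hist) × List Bool × WR → ℕ
  | 0, _ => 0
  | i + 1, q => negR (par M k0 i q.1.1) (List.range (M.b q.1.1)) (blks M k0 i q.1.1 q.2.1)
      (q.2.2.headD []) + negM i (nxt M k0 i q)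

/-- A bound for the size of witnesses. -/
noncomputable def szM : ℕ → α → ℕ
  | 0, _ => 1
  | i + 1, x => (M.b x * ((par M k0 i x).L * (2 * ((par M k0 i x).Kp *
      ((par M k0 i x).T + 1) + 1)) + 1) + 1) + szM i x

/-! ### Computability -/

theorem blen_fp (i : ℕ) : FP A (blen M k0 i) :=
  FP.mul' (pL_fp M k0) (ell2_fp' M k0 i (x := fun x => x) FP.id)

theorem rlen_fp (i : ℕ) : FP A (rlen M k0 i) := FP.mul' M.b_fp (blen_fp M k0 i)

theorem ellR_fp (i : ℕ) : FP A (ellR M k0 i) := by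
  induction i with
  | zero => exact FP.const 0
  | succ i ih => exact FP.add' (rlen_fp M k0 i) ih

theorem szM_fp (i : ℕ) : FP A (szM M k0 i) := by
  induction i with
  | zero => exact FP.const 1
  | succ i ih =>
    have h1 := L_fp' M k0 i (x := fun x => x) FP.id
    have h2 := Kp_fp' M k0 i (x := fun x => x) FP.id
    have h3 := T_fp' M k0 i (x := fun x => x) FP.id
    exact FP.add' (FP.add' (FP.mul' M.b_fp (FP.add' (FP.mul' h1 (FP.mul' (FP.const 2)
      (FP.add' (FP.mul' h2 (FP.add' h3 (FP.const 1))) (FP.const 1)))) (FP.const 1)))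
      (FP.const 1)) ih

theorem blks_fp (i : ℕ) : FP A (fun q : (α × List Bool × Hist) × List Bool × WR =>
    blks M k0 i q.1.1 q.2.1) :=
  FP.chunks' (FP.comp (blen_fp M k0 i) (FP.fst' FP.fst)) (FP.comp M.b_fp (FP.fst' FP.fst))
    (FP.take' (FP.comp (rlen_fp M k0 i) (FP.fst' FP.fst)) (FP.fst' FP.snd))

theorem items_fp (i : ℕ) : FP A (fun q : (α × List Bool × Hist) × List Bool × WR =>
    (List.range (M.b q.1.1)).zip ((blks M k0 i q.1.1 q.2.1).zip (q.2.2.headD []))) :=
  FP.zip' (FP.range' (FP.comp M.b_fp (FP.fst' FP.fst))) (FP.zip' (blks_fp M k0 i)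
    (FP.head' (FP.const []) (FP.snd' FP.snd)))

theorem ctx_fp : FP A (fun p : ((α × List Bool × Hist) × List Bool × WR) ×
    (ℕ × List Bool × List WC) => (p.1.1, p.2.1)) :=
  FP.pair (FP.fst' FP.fst) (FP.fst' FP.snd)

theorem cl_fp (i : ℕ) : FP A (fun p : ((α × List Bool × Hist) × List Bool × WR) ×
    (ℕ × List Bool × List WC) =>
    chunks (ell2 (par M k0 i p.1.1.1)) (par M k0 i p.1.1.1).L p.2.2.1) :=
  FP.chunks' (ell2_fp' M k0 i (FP.fst' (FP.fst' FP.fst))) (L_fp' M k0 i
    (FP.fst' (FP.fst' FP.fst))) (FP.fst' (FP.snd' FP.snd))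

theorem wl_fp : FP A (fun p : ((α × List Bool × Hist) × List Bool × WR) ×
    (ℕ × List Bool × List WC) => p.2.2.2) := FP.snd' (FP.snd' FP.snd)

theorem nxt_fp (i : ℕ) : FP A (nxt M k0 i) := by
  refine FP.pair (FP.pair (FP.fst' FP.fst) (FP.pair (FP.fst' (FP.snd' FP.fst))
    (FP.cons' ?_ (FP.snd' (FP.snd' FP.fst))))) (FP.pair (FP.drop' (FP.comp (rlen_fp M k0 i)
      (FP.fst' FP.fst)) (FP.fst' FP.snd)) (FP.tail' (FP.snd' FP.snd)))
  exact FP.map' (f := fun (q : (α × List Bool × Hist) × List Bool × WR) v =>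
    outWl (par M k0 i q.1.1) (stp M q.1) v.1 (chunks (ell2 (par M k0 i q.1.1))
      (par M k0 i q.1.1).L v.2.1) v.2.2) (items_fp M k0 i)
      (outWl_fp M k0 i ctx_fp (cl_fp M k0 i) wl_fp)

theorem okM_fp (i : ℕ) : FP A (okM M k0 i) := by
  induction i with
  | zero => exact FP.const true
  | succ i ih =>
    refine FP.and' (FP.and' (FP.eqN' (FP.length' (FP.head' (FP.const []) (FP.snd' FP.snd)))
      (FP.comp M.b_fp (FP.fst' FP.fst))) (FP.all'
      (f := fun (q : (α × List Bool × Hist) × List Bool × WR) v =>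
        okLB M k0 i (q.1, v.1) (chunks (ell2 (par M k0 i q.1.1))
          (par M k0 i q.1.1).L v.2.1) v.2.2) (items_fp M k0 i)
      (okLB_fp M k0 i ctx_fp (cl_fp M k0 i) wl_fp))) (FP.comp ih (nxt_fp M k0 i))

theorem xx_fp : FP A (fun p : ((α × List Bool × Hist) × List Bool × WR) ×
    (ℕ × List Bool × List WC) => p.1.1.1) := FP.fst' (FP.fst' FP.fst)

theorem posR_fp (i : ℕ) : FP A (fun q : (α × List Bool × Hist) × List Bool × WR =>
    posR (par M k0 i q.1.1) (List.range (M.b q.1.1)) (blks M k0 i q.1.1 q.2.1)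
      (q.2.2.headD [])) := by
  have h0 := posL_fp M k0 i (β := ((α × List Bool × Hist) × List Bool × WR) ×
    (ℕ × List Bool × List WC)) xx_fp (cl_fp M k0 i) wl_fp
  have h1 := FP.map' (f := fun (q : (α × List Bool × Hist) × List Bool × WR)
    (v : ℕ × List Bool × List WC) =>
        posL (par M k0 i q.1.1) (chunks (ell2 (par M k0 i q.1.1))
          (par M k0 i q.1.1).L v.2.1) v.2.2) (items_fp M k0 i) h0
  exact FP.sum' h1

theorem negR_fp (i : ℕ) : FP A (fun q : (α × List Bool × Hist) × List Bool × WR =>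
    negR (par M k0 i q.1.1) (List.range (M.b q.1.1)) (blks M k0 i q.1.1 q.2.1)
      (q.2.2.headD [])) := by
  have h0 := negL_fp M k0 i (β := ((α × List Bool × Hist) × List Bool × WR) ×
    (ℕ × List Bool × List WC)) xx_fp (cl_fp M k0 i) wl_fp
  have h1 := FP.map' (f := fun (q : (α × List Bool × Hist) × List Bool × WR)
    (v : ℕ × List Bool × List WC) =>
        negL (par M k0 i q.1.1) (chunks (ell2 (par M k0 i q.1.1))
          (par M k0 i q.1.1).L v.2.1) v.2.2) (items_fp M k0 i) h0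
  exact FP.sum' h1

theorem posM_fp (i : ℕ) : FP A (posM M k0 i) := by
  induction i with
  | zero =>
    have h1 : FP A (fun q : (α × List Bool × Hist) × List Bool × WR => M.dec q.1) :=
      FP.comp M.dec_fp FP.fst
    have h2 : FP A (fun q : (α × List Bool × Hist) × List Bool × WR => pSc M k0 q.1.1) :=
      FP.comp (pSc_fp M k0) (FP.fst' FP.fst)
    exact FP.ite' h1 h2 (FP.const 0)
  | succ i ih =>
    have h1 : FP A (fun q => posM M k0 i (nxt M k0 i q)) := FP.comp ih (nxt_fp M k0 i)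
    exact FP.add' (posR_fp M k0 i) h1

theorem negM_fp (i : ℕ) : FP A (negM M k0 i) := by
  induction i with
  | zero => exact FP.const 0
  | succ i ih =>
    have h1 : FP A (fun q => negM M k0 i (nxt M k0 i q)) := FP.comp ih (nxt_fp M k0 i)
    exact FP.add' (negR_fp M k0 i) h1

/-! ### Correctness of the verification -/

theorem okM_succ (i : ℕ) (q : (α × List Bool × Hist) × List Bool × WR) :
    okM M k0 (i + 1) q = true ↔ okR (par M k0 i q.1.1) (stp M q.1) (List.range (M.b q.1.1))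
      (blks M k0 i q.1.1 q.2.1) (q.2.2.headD []) ∧ okM M k0 i (nxt M k0 i q) = true := by
  rw [okM, Bool.and_eq_true, okR]
  refine and_congr_left (fun _ => ?_)
  simp only [Bool.and_eq_true, decide_eq_true_eq, List.all_eq_true, List.length_range,
    okLB_iff]

theorem zeta_abs {P : Par} (hP : P.Ok) {stepf : ℕ → List Bool → List Bool} {j : ℕ}
    (ch : List Bool) : |zetaJ P stepf j ch| ≤
      P.s * (2 * P.K + 2) + 2 ^ P.c * (P.s * (P.K + 1) ^ 2) := by
  have h1 : maxw P.m (fun z => om P.K P.s (nf P stepf j z)) (rowsOf P ch) ≤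
      P.s * (P.K + 1) ^ 2 := Finset.sup_le (fun z _ => om_le _ _ _)
  have h2 : (maxw P.m (fun z => om P.K P.s (nf P stepf j z)) (rowsOf P ch) : ℝ) ≤
      P.s * (P.K + 1) ^ 2 := by exact_mod_cast h1
  have h3 : ((ph P.K P.s (min (nf P stepf j (zOf P stepf j ch)) P.Kp) : ℕ) : ℝ) ≤
      P.s * (2 * P.K + 2) := by
    exact_mod_cast ph_le (n := min (nf P stepf j (zOf P stepf j ch)) P.Kp) hP.s_ge
  have h4 : (0 : ℝ) ≤ ((ph P.K P.s (min (nf P stepf j (zOf P stepf j ch)) P.Kp) : ℕ) : ℝ) :=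
    Nat.cast_nonneg _
  have h5 : (0 : ℝ) ≤ (maxw P.m (fun z => om P.K P.s (nf P stepf j z)) (rowsOf P ch) : ℝ) :=
    Nat.cast_nonneg _
  have h6 : (0 : ℝ) < 2 ^ P.c := by positivity
  have h7 := mul_le_mul_of_nonneg_left h2 h6.le
  have h8 := mul_nonneg h6.le h5
  have h9 : (0 : ℝ) ≤ P.s * (2 * P.K + 2) := by positivity
  rw [zetaJ, abs_le]
  constructor <;> linarith

theorem abs_sum_le {ι : Type} (l : List ι) (f : ι → ℝ) {B : ℝ} (h : ∀ i ∈ l, |f i| ≤ B) :
    |(l.map f).sum| ≤ l.length * B := by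
  induction l with
  | nil => simp
  | cons a l ih =>
    rw [List.map_cons, List.sum_cons, List.length_cons]
    refine (abs_add_le _ _).trans ?_
    have h1 := h a (by simp)
    have h2 := ih (fun i hi => h i (by simp [hi]))
    push_cast
    linarith

theorem length_blks (i : ℕ) (x : α) (ρ : List Bool) :
    (blks M k0 i x ρ).length = (List.range (M.b x)).length := by
  rw [blks, length_chunks, List.length_range]

theorem sst_abs (i : ℕ) : ∀ (u : α × List Bool × Hist) (ρ : List Bool),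
    |Sst M k0 i u ρ| ≤ pB M k0 i u.1 := by
  induction i with
  | zero =>
    intro u ρ
    rw [Sst, pB]
    split
    · rw [abs_of_nonneg (Nat.cast_nonneg _)]
    · rw [abs_zero]; exact Nat.cast_nonneg _
  | succ i ih =>
    intro u ρ
    rw [Sst, pB]
    have h1 : |zsum (par M k0 i u.1) (stp M u) (List.range (M.b u.1)) (blks M k0 i u.1 ρ)| ≤
        M.b u.1 * (pL M k0 u.1 * ((par M k0 i u.1).s * (2 * (par M k0 i u.1).K + 2) +
          2 ^ (par M k0 i u.1).c * ((par M k0 i u.1).s * ((par M k0 i u.1).K + 1) ^ 2))) := by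
      have h2 : ∀ p ∈ (List.range (M.b u.1)).zip (blks M k0 i u.1 ρ),
          |((chunks (ell2 (par M k0 i u.1)) (par M k0 i u.1).L p.2).map
            (zetaJ (par M k0 i u.1) (stp M u) p.1)).sum| ≤
          pL M k0 u.1 * ((par M k0 i u.1).s * (2 * (par M k0 i u.1).K + 2) +
          2 ^ (par M k0 i u.1).c * ((par M k0 i u.1).s * ((par M k0 i u.1).K + 1) ^ 2)) := by
        intro p _
        have h4 := abs_sum_le (chunks (ell2 (par M k0 i u.1)) (par M k0 i u.1).L p.2)
          (zetaJ (par M k0 i u.1) (stp M u) p.1)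
          (fun ch _ => zeta_abs (par_ok M k0 i u.1) ch)
        rwa [length_chunks] at h4
      have h3 := abs_sum_le _ _ h2
      have h4 : ((List.range (M.b u.1)).zip (blks M k0 i u.1 ρ)).length = M.b u.1 := by
        rw [List.length_zip, length_blks, List.length_range, min_self]
      rw [h4] at h3
      exact h3
    have h2 := ih (u.1, u.2.1, outR M k0 i u ρ :: u.2.2) (ρ.drop (rlen M k0 i u.1))
    refine (abs_add_le _ _).trans ?_
    push_cast
    have e1 : ((sOf (pB M k0 i) u.1 : ℕ) : ℝ) = (par M k0 i u.1).s := rfl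
    have e2 : ((pK k0 u.1 : ℕ) : ℝ) = (par M k0 i u.1).K := rfl
    have e3 : (2 : ℝ) ^ (cOf k0 (pB M k0 i) u.1) = 2 ^ (par M k0 i u.1).c := rfl
    have e4 : ((aOf k0 (pB M k0 i) u.1 : ℕ) : ℝ) = (par M k0 i u.1).s *
        ((par M k0 i u.1).K + 1) ^ 2 := by
      rw [aOf]; push_cast; rfl
    rw [e1, e2, e3, e4]
    linarith

theorem sst_lower (i : ℕ) : ∀ (u : α × List Bool × Hist) (ρ : List Bool) (W : WR),
    okM M k0 i (u, ρ, W) = true →
      Sst M k0 i u ρ ≤ (posM M k0 i (u, ρ, W) : ℝ) - negM M k0 i (u, ρ, W) := by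
  induction i with
  | zero =>
    intro u ρ W _
    rw [Sst, posM, negM]
    dsimp only
    split <;> simp
  | succ i ih =>
    intro u ρ W hok
    rw [okM_succ] at hok
    obtain ⟨hok1, hok2⟩ := hok
    dsimp only at hok1
    obtain ⟨D, hD1, hD2⟩ := run_lower (stepf := stp M u) (backf := bck M u)
      (par_ok M k0 i u.1) (List.range (M.b u.1)) (fun j _ => isPerm M u j)
      (blks M k0 i u.1 ρ) (W.headD []) (length_blks M k0 i u.1 ρ) hok1
    have h1 := ih _ _ _ hok2
    rw [Sst, posM, negM]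
    dsimp only
    push_cast
    set u' : α × List Bool × Hist := (u.1, u.2.1, outsW (par M k0 i u.1) (stp M u)
      (List.range (M.b u.1)) (blks M k0 i u.1 ρ) (W.headD []) :: u.2.2) with hu'
    set ρ' := ρ.drop (rlen M k0 i u.1) with hρ'
    have hn : nxt M k0 i (u, ρ, W) = (u', ρ', W.tail) := rfl
    rw [hn]
    have h1 : Sst M k0 i u' ρ' ≤ (posM M k0 i (u', ρ', W.tail) : ℝ) -
      negM M k0 i (u', ρ', W.tail) := h1
    rcases Nat.eq_zero_or_pos D with h0 | h0
    · have h2 : u' = (u.1, u.2.1, outR M k0 i u ρ :: u.2.2) := by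
        rw [hu', hD2 h0]; rfl
      rw [← h2]
      subst h0
      push_cast at hD1
      linarith
    · have h2 : (1 : ℝ) ≤ D := by exact_mod_cast h0
      have h3 := (abs_le.1 (sst_abs M k0 i (u.1, u.2.1, outR M k0 i u ρ :: u.2.2) ρ')).2
      have h4 := (abs_le.1 (sst_abs M k0 i u' ρ')).1
      have h5 : ((par M k0 i u.1).s : ℝ) = 2 * pB M k0 i u.1 + 2 := by
        have : (par M k0 i u.1).s = 2 * pB M k0 i u.1 + 2 := rfl
        rw [this]; push_cast; rfl
      have h6 : (0 : ℝ) ≤ pB M k0 i u.1 := Nat.cast_nonneg _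
      have h7 := mul_le_mul_of_nonneg_left h2 (show (0 : ℝ) ≤ (par M k0 i u.1).s from
        Nat.cast_nonneg _)
      dsimp only at h3 h4
      have h8 : (u'.1 : α) = u.1 := rfl
      rw [h8] at h4
      linarith

theorem sst_exists (i : ℕ) : ∀ (u : α × List Bool × Hist) (ρ : List Bool),
    ∃ W : WR, okM M k0 i (u, ρ, W) = true ∧
      (posM M k0 i (u, ρ, W) : ℝ) - negM M k0 i (u, ρ, W) = Sst M k0 i u ρ ∧
      size W ≤ szM M k0 i u.1 := by
  induction i with
  | zero =>
    intro u ρ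
    refine ⟨[], rfl, ?_, le_of_eq rfl⟩
    rw [Sst, posM, negM]
    dsimp only
    split <;> simp
  | succ i ih =>
    intro u ρ
    obtain ⟨Ws, hW1, hW2, hW3, hW4⟩ := run_exists (stepf := stp M u) (par_ok M k0 i u.1)
      (List.range (M.b u.1)) (blks M k0 i u.1 ρ) (length_blks M k0 i u.1 ρ)
    obtain ⟨W, h1, h2, h3⟩ := ih (u.1, u.2.1, outR M k0 i u ρ :: u.2.2)
      (ρ.drop (rlen M k0 i u.1))
    have hn : nxt M k0 i (u, ρ, Ws :: W) = ((u.1, u.2.1, outR M k0 i u ρ :: u.2.2),
        ρ.drop (rlen M k0 i u.1), W) := by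
      rw [nxt]
      dsimp only [List.headD_cons, List.tail_cons]
      rw [hW3]
      rfl
    refine ⟨Ws :: W, ?_, ?_, ?_⟩
    · rw [okM_succ, hn]
      exact ⟨hW1, h1⟩
    · rw [Sst, posM, negM, hn, ← h2]
      dsimp only [List.headD_cons]
      push_cast
      linarith
    · rw [szM, size_cons]
      have h5 := size_list_le hW4
      rw [hW1.1, List.length_range] at h5
      exact Nat.add_le_add h5 h3

end

theorem Few.avg {N : α → Prop} (h : Few A N) : AMavg A (fun x => ¬ N x) := by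
  obtain ⟨M, ⟨k0, hfew⟩, hdec⟩ := h
  obtain ⟨k, hk⟩ := FP.bddNat (szM_fp M k0 M.rounds)
  set q : α × List Bool × WR → (α × List Bool × Hist) × List Bool × WR :=
    fun p => ((p.1, p.2.1.take (M.R p.1), []), p.2.1.drop (M.R p.1), p.2.2) with hq
  have hqf : FP A q := FP.pair (FP.pair FP.fst (FP.pair (FP.take' (FP.comp M.R_fp FP.fst)
    (FP.fst' FP.snd)) (FP.const []))) (FP.pair (FP.drop' (FP.comp M.R_fp FP.fst)
      (FP.fst' FP.snd)) (FP.snd' FP.snd))
  have hmean : ∀ x, pSc M k0 x * (M.acc x - 21 / 400) ≤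
      ev (M.R x + ellR M k0 M.rounds x) (fun ρ => Sst M k0 M.rounds
        (x, ρ.take (M.R x), []) (ρ.drop (M.R x))) ∧
      ev (M.R x + ellR M k0 M.rounds x) (fun ρ => Sst M k0 M.rounds
        (x, ρ.take (M.R x), []) (ρ.drop (M.R x))) ≤
      pSc M k0 x * (M.acc x + 7 / 100) := by
    intro x
    have h1 : ev (M.R x + ellR M k0 M.rounds x) (fun ρ => Sst M k0 M.rounds
        (x, ρ.take (M.R x), []) (ρ.drop (M.R x))) =
        ev (M.R x) (fun r => ev (ellR M k0 M.rounds x) (Sst M k0 M.rounds (x, r, []))) := by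
      rw [ev_split]
      refine ev_congr (fun r hr => ev_congr (fun l _ => ?_))
      rw [← hr, List.take_left, List.drop_left]
    rw [h1]
    have h2 := ev_mono (n := M.R x) (fun r _ => (sst_mean M k0 M.rounds (x, r, [])).1)
    have h3 := ev_mono (n := M.R x) (fun r _ => (sst_mean M k0 M.rounds (x, r, [])).2)
    dsimp only at h2 h3
    rw [ev_mul] at h2
    rw [ev_add, ev_mul, ev_const] at h3
    have h4 : M.acc x = ev (M.R x) (fun r => M.accFrom M.rounds (x, r, [])) := rfl
    have h5 : M.many k0 x = ev (M.R x) (fun r => M.manyFrom (pK k0 x) M.rounds (x, r, [])) := rfl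
    have h6 := ev_mono (n := M.R x) (fun r _ => (abs_le.1 (pr_err M k0 M.rounds (x, r, []))).1)
    have h7 := ev_mono (n := M.R x) (fun r _ => (abs_le.1 (pr_err M k0 M.rounds (x, r, []))).2)
    dsimp only at h6 h7
    rw [ev_sub, ← h4] at h6 h7
    have h8 : ev (M.R x) (fun r => 4 * M.manyFrom (pK k0 x) M.rounds (x, r, []) +
        M.rounds * (M.b x / (80 * pN M x))) =
        4 * M.many k0 x + M.rounds * (M.b x / (80 * pN M x)) := by
      rw [ev_add, ev_mul, ev_const, h5]
    have h9 : ev (M.R x) (fun r => -(4 * M.manyFrom (pK k0 x) M.rounds (x, r, []) +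
        M.rounds * (M.b x / (80 * pN M x)))) =
        -(4 * M.many k0 x + M.rounds * (M.b x / (80 * pN M x))) := by
      rw [← h8]
      have := ev_mul (M.R x) (-1) (fun r => 4 * M.manyFrom (pK k0 x) M.rounds (x, r, []) +
        M.rounds * (M.b x / (80 * pN M x)))
      simpa using this
    rw [h9] at h6
    rw [h8] at h7
    have hN : ((M.rounds : ℝ) * M.b x) ≤ pN M x := by
      have : M.rounds * M.b x ≤ pN M x := Nat.mul_le_mul (Nat.le_succ _) (Nat.le_succ _)
      exact_mod_cast this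
    have hN0 : (0 : ℝ) < pN M x := by
      have : 0 < pN M x := by rw [pN]; positivity
      exact_mod_cast this
    have e1 : (M.rounds : ℝ) * (M.b x / (80 * pN M x)) ≤ 1 / 80 := by
      rw [← mul_div_assoc, div_le_div_iff₀ (by positivity) (by norm_num)]
      linarith
    have e2 : (M.rounds : ℝ) * (M.b x * (pL M k0 x * 2)) ≤ pSc M k0 x / 60 := by
      have e3 : (pSc M k0 x : ℝ) = 120 * pN M x * pL M k0 x := by
        rw [pSc]; push_cast; rfl
      have e4 := mul_le_mul_of_nonneg_right hN (show (0 : ℝ) ≤ pL M k0 x from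
        Nat.cast_nonneg _)
      rw [e3]
      linarith
    have e5 := hfew x
    have e6 : (0 : ℝ) ≤ pSc M k0 x := Nat.cast_nonneg _
    have e7 := mul_le_mul_of_nonneg_left (show M.acc x - 21 / 400 ≤
      ev (M.R x) (fun r => Pr M k0 M.rounds (x, r, [])) by linarith) e6
    have e8 := mul_le_mul_of_nonneg_left (show
      ev (M.R x) (fun r => Pr M k0 M.rounds (x, r, [])) ≤ M.acc x + 21 / 400 by linarith) e6
    constructor
    · linarith
    · linarith
  refine ⟨WR, inferInstance, fun x => M.R x + ellR M k0 M.rounds x, pB M k0 M.rounds,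
    pSc M k0, fun p => posM M k0 M.rounds (q p), fun p => negM M k0 M.rounds (q p),
    fun p => okM M k0 M.rounds (q p), fun x ρ => Sst M k0 M.rounds
        (x, ρ.take (M.R x), []) (ρ.drop (M.R x)), k,
    FP.add' M.R_fp (ellR_fp M k0 _), pB_fp M k0 _, pSc_fp M k0,
    FP.comp (posM_fp M k0 _) hqf, FP.comp (negM_fp M k0 _) hqf, FP.comp (okM_fp M k0 _) hqf,
    ?_, ?_, ?_, ?_, ?_, ?_⟩
  · intro x
    rw [pSc, pL, pN]
    have : 0 < 120 * ((M.rounds + 1) * (M.b x + 1)) *
      (2 ^ pE k0 x * (2 * (80 * ((M.rounds + 1) * (M.b x + 1))))) := by positivity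
    omega
  · intro x ρ _
    exact sst_abs M k0 M.rounds _ _
  · intro x ρ w _ hok
    exact sst_lower M k0 M.rounds _ _ _ hok
  · intro x ρ _
    obtain ⟨W, h1, h2, h3⟩ := sst_exists M k0 M.rounds (x, ρ.take (M.R x), [])
      (ρ.drop (M.R x))
    exact ⟨W, h3.trans (hk x), h1, h2.le⟩
  · intro x hx
    have h1 := (hdec x).2 hx
    have h2 := (hmean x).2
    change ev _ _ ≤ _
    have h3 : (0 : ℝ) ≤ pSc M k0 x := Nat.cast_nonneg _
    have h4 := mul_le_mul_of_nonneg_left (show M.acc x + 7 / 100 ≤ 9 / 20 by linarith) h3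
    linarith
  · intro x hx
    rw [not_not] at hx
    have h1 := (hdec x).1 hx
    have h2 := (hmean x).1
    change _ ≤ ev _ _
    have h3 : (0 : ℝ) ≤ pSc M k0 x := Nat.cast_nonneg _
    have h4 := mul_le_mul_of_nonneg_left (show (11 / 20 : ℝ) ≤ M.acc x - 21 / 400 by linarith) h3
    linarith

end Pool.Agent.FewPath
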