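import Pool.Agent.FewPath.Rank

namespace Pool.Agent.FewPath

open Classical

/-- The inner product modulo 2. -/
def dot (v z : List Bool) : Bool := (v.zip z).foldr (fun p acc => xor (p.1 && p.2) acc) false

/-- The affine condition `row` holds for `z`. -/
def hitRow (z row : List Bool) : Bool := row.headD false == dot row.tail z

/-- All affine conditions in `rows` hold for `z`. -/
def hit (z : List Bool) (rows : List (List Bool)) : Bool := rows.all (fun row => hitRow z row)

@[simp] theorem dot_cons (a b : Bool) (v z : List Bool) :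
    dot (a :: v) (b :: z) = xor (a && b) (dot v z) := rfl

theorem card_dot_eq (m : ℕ) : ∀ {z z' : List Bool}, z.length = m → z'.length = m → z ≠ z' →
    2 * ∑ v ∈ bits m, (if dot v z = dot v z' then (1 : ℝ) else 0) = 2 ^ m := by
  induction m with
  | zero =>
    intro z z' hz hz' hne
    rw [List.length_eq_zero_iff] at hz hz'
    exact absurd (hz.trans hz'.symm) hne
  | succ m ih =>
    intro z z' hz hz' hne
    cases z with
    | nil => simp at hz
    | cons a z =>
      cases z' with
      | nil => simp at hz'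
      | cons b z' =>
        rw [sum_bits_succ]
        simp only [dot_cons, Bool.false_and, Bool.true_and, Bool.false_bne]
        by_cases hab : a = b
        · subst hab
          have hne' : z ≠ z' := fun h => hne (by rw [h])
          have h1 := ih (by simpa using hz) (by simpa using hz') hne'
          have h2 : ∀ v ∈ bits m, (if (a ^^ dot v z) = (a ^^ dot v z') then (1 : ℝ) else 0) =
              if dot v z = dot v z' then 1 else 0 := by
            intro v _
            cases a <;> simp
          rw [Finset.sum_congr rfl h2, pow_succ]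
          linarith
        · have h2 : ∀ v ∈ bits m, (if (a ^^ dot v z) = (b ^^ dot v z') then (1 : ℝ) else 0) =
              1 - if dot v z = dot v z' then 1 else 0 := by
            intro v _
            cases a <;> cases b <;> cases dot v z <;> cases dot v z' <;> simp_all
          rw [Finset.sum_congr rfl h2, Finset.sum_sub_distrib, Finset.sum_const, card_bits,
            pow_succ]
          simp
          ring

theorem sum_hitRow (m : ℕ) (z : List Bool) :
    ∑ row ∈ bits (m + 1), (if hitRow z row = true then (1 : ℝ) else 0) = 2 ^ m := by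
  rw [sum_bits_succ, ← Finset.sum_add_distrib]
  have : ∀ v ∈ bits m, (if hitRow z (false :: v) = true then (1 : ℝ) else 0) +
      (if hitRow z (true :: v) = true then (1 : ℝ) else 0) = 1 := by
    intro v _
    simp only [hitRow, List.headD_cons, List.tail_cons]
    rcases Bool.eq_false_or_eq_true (dot v z) with h | h <;> simp [h]
  rw [Finset.sum_congr rfl this, Finset.sum_const, card_bits]
  simp

theorem sum_hitRow_pair {m : ℕ} {z z' : List Bool} (hz : z.length = m) (hz' : z'.length = m)
    (hne : z ≠ z') :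
    ∑ row ∈ bits (m + 1), (if hitRow z row = true ∧ hitRow z' row = true then (1 : ℝ) else 0) =
      2 ^ m / 2 := by
  rw [sum_bits_succ, ← Finset.sum_add_distrib, ← card_dot_eq m hz hz' hne]
  have : ∀ v ∈ bits m,
      (if hitRow z (false :: v) = true ∧ hitRow z' (false :: v) = true then (1 : ℝ) else 0) +
      (if hitRow z (true :: v) = true ∧ hitRow z' (true :: v) = true then (1 : ℝ) else 0) =
      if dot v z = dot v z' then 1 else 0 := by
    intro v _
    simp only [hitRow, List.headD_cons, List.tail_cons]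
    rcases Bool.eq_false_or_eq_true (dot v z) with h | h <;>
      rcases Bool.eq_false_or_eq_true (dot v z') with h' | h' <;> simp [h, h']
  rw [Finset.sum_congr rfl this]
  ring

theorem prod_ind (P : List Bool → Prop) [DecidablePred P] (l : List (List Bool)) :
    (l.map (fun c => if P c then (1 : ℝ) else 0)).prod = if (∀ c ∈ l, P c) then 1 else 0 := by
  induction l with
  | nil => simp
  | cons a l ih =>
    rw [List.map_cons, List.prod_cons, ih]
    by_cases h1 : P a
    · by_cases h2 : ∀ c ∈ l, P c
      · rw [if_pos h1, if_pos h2, if_pos (by simpa [h1] using h2), mul_one]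
      · rw [if_pos h1, if_neg h2, if_neg (by simpa [h1] using h2), mul_zero]
    · have h3 : ¬ ∀ c ∈ a :: l, P c := fun h => h1 (h a List.mem_cons_self)
      rw [if_neg h1, if_neg h3, zero_mul]

theorem sum_hit (m k : ℕ) (z : List Bool) :
    ∑ G ∈ bits (k * (m + 1)), (if hit z (chunks (m + 1) k G) = true then (1 : ℝ) else 0) =
      (2 ^ m) ^ k := by
  rw [← sum_hitRow m z, ← sum_prod_chunks]
  refine Finset.sum_congr rfl (fun G _ => ?_)
  rw [prod_ind]
  have : hit z (chunks (m + 1) k G) = true ↔
      ∀ c ∈ chunks (m + 1) k G, hitRow z c = true := by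
    simp only [hit, List.all_eq_true]
  by_cases h : hit z (chunks (m + 1) k G) = true
  · rw [if_pos h, if_pos (this.1 h)]
  · rw [if_neg h, if_neg (fun h' => h (this.2 h'))]

theorem sum_hit_pair {m k : ℕ} {z z' : List Bool} (hz : z.length = m) (hz' : z'.length = m)
    (hne : z ≠ z') :
    ∑ G ∈ bits (k * (m + 1)), (if hit z (chunks (m + 1) k G) = true ∧
      hit z' (chunks (m + 1) k G) = true then (1 : ℝ) else 0) = (2 ^ m / 2) ^ k := by
  rw [← sum_hitRow_pair hz hz' hne, ← sum_prod_chunks]
  refine Finset.sum_congr rfl (fun G _ => ?_)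
  rw [prod_ind]
  have : (hit z (chunks (m + 1) k G) = true ∧ hit z' (chunks (m + 1) k G) = true) ↔
      ∀ c ∈ chunks (m + 1) k G, hitRow z c = true ∧ hitRow z' c = true := by
    simp only [hit, List.all_eq_true, forall_and]
  by_cases h : hit z (chunks (m + 1) k G) = true ∧ hit z' (chunks (m + 1) k G) = true
  · rw [if_pos h, if_pos (this.1 h)]
  · rw [if_neg h, if_neg (fun h' => h (this.2 h'))]

/-- The maximal weight of a state which satisfies the affine conditions. -/
noncomputable def maxw (m : ℕ) (om : List Bool → ℕ) (rows : List (List Bool)) : ℕ :=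
  ((bits m).filter (fun z => hit z rows = true)).sup om

theorem maxw_upper {m k : ℕ} (om : List Bool → ℕ) :
    (∑ G ∈ bits (k * (m + 1)), (maxw m om (chunks (m + 1) k G) : ℝ)) / 2 ^ (k * (m + 1)) ≤
      (∑ z ∈ bits m, (om z : ℝ)) / 2 ^ k := by
  have h1 : ∀ G ∈ bits (k * (m + 1)), (maxw m om (chunks (m + 1) k G) : ℝ) ≤
      ∑ z ∈ bits m, (om z : ℝ) * (if hit z (chunks (m + 1) k G) = true then (1 : ℝ) else 0) := by
    intro G _
    have h2 : maxw m om (chunks (m + 1) k G) ≤
        ∑ z ∈ (bits m).filter (fun z => hit z (chunks (m + 1) k G) = true), om z := by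
      refine Finset.sup_le (fun z hz => ?_)
      exact Finset.single_le_sum (f := om) (fun _ _ => Nat.zero_le _) hz
    refine (Nat.cast_le.2 h2).trans (le_of_eq ?_)
    rw [Finset.sum_filter]
    push_cast
    refine Finset.sum_congr rfl (fun z _ => ?_)
    split <;> simp
  have h2 := Finset.sum_le_sum h1
  rw [Finset.sum_comm] at h2
  simp only [← Finset.mul_sum, sum_hit] at h2
  rw [← Finset.sum_mul] at h2
  rw [div_le_div_iff₀ (by positivity) (by positivity)]
  calc _ ≤ ((∑ z ∈ bits m, (om z : ℝ)) * (2 ^ m) ^ k) * 2 ^ k :=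
        mul_le_mul_of_nonneg_right h2 (by positivity)
    _ = _ := by
        rw [mul_assoc, ← mul_pow, ← pow_succ, ← pow_mul, mul_comm (m + 1) k]

theorem maxw_lower {m k T : ℕ} (om : List Bool → ℕ) {W : ℕ} (hW : ∀ z ∈ bits m, om z ≤ W)
    {I : Finset (List Bool)} (hI : I ⊆ bits m) (hIc : I.card ≤ 2 ^ T)
    (hsupp : ∀ z ∈ bits m, z ∉ I → om z = 0) :
    (∑ z ∈ bits m, (om z : ℝ)) / 2 ^ k - W * (2 ^ T) ^ 2 / 4 ^ k ≤
    (∑ G ∈ bits (k * (m + 1)), (maxw m om (chunks (m + 1) k G) : ℝ)) / 2 ^ (k * (m + 1)) := by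
  have hsum : ∑ z ∈ bits m, (om z : ℝ) = ∑ z ∈ I, (om z : ℝ) := by
    rw [← Finset.sum_subset hI]
    intro z hz hz'
    rw [hsupp z hz hz']; simp
  have h1 : ∀ G ∈ bits (k * (m + 1)),
      ∑ z ∈ I, (om z : ℝ) * (if hit z (chunks (m + 1) k G) = true then (1 : ℝ) else 0) -
      W * ∑ q ∈ I.offDiag, (if hit q.1 (chunks (m + 1) k G) = true ∧
        hit q.2 (chunks (m + 1) k G) = true then (1 : ℝ) else 0) ≤
      (maxw m om (chunks (m + 1) k G) : ℝ) := by
    intro G _
    generalize chunks (m + 1) k G = rows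
    have h2 : ∑ z ∈ I, (om z : ℝ) * (if hit z rows = true then (1 : ℝ) else 0) =
        ∑ z ∈ I.filter (fun z => hit z rows = true), (om z : ℝ) := by
      rw [Finset.sum_filter]
      refine Finset.sum_congr rfl (fun z _ => ?_)
      split <;> simp
    have h3 : ∑ q ∈ I.offDiag, (if hit q.1 rows = true ∧ hit q.2 rows = true then (1 : ℝ) else 0)
        = ((I.filter (fun z => hit z rows = true)).offDiag.card : ℝ) := by
      have : (I.filter (fun z => hit z rows = true)).offDiag =
          I.offDiag.filter (fun q => hit q.1 rows = true ∧ hit q.2 rows = true) := by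
        ext q
        simp only [Finset.mem_offDiag, Finset.mem_filter]
        tauto
      rw [this, Finset.card_filter]
      push_cast
      rfl
    rw [h2, h3, Finset.offDiag_card]
    set H := I.filter (fun z => hit z rows = true) with hH
    rcases H.eq_empty_or_nonempty with h4 | ⟨z0, hz0⟩
    · rw [h4]; simp
    · have h5 : ∀ z ∈ H, om z ≤ maxw m om rows := fun z hz => by
        refine Finset.le_sup (f := om) ?_
        rw [hH, Finset.mem_filter] at hz
        exact Finset.mem_filter.2 ⟨hI hz.1, hz.2⟩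
      have h6 : ∑ z ∈ H, (om z : ℝ) ≤ maxw m om rows + (H.card - 1 : ℕ) * (W : ℝ) := by
        rw [← Finset.add_sum_erase H _ hz0]
        refine add_le_add (Nat.cast_le.2 (h5 z0 hz0)) ?_
        rw [← Finset.card_erase_of_mem hz0, ← nsmul_eq_mul, ← Finset.sum_const]
        refine Finset.sum_le_sum (fun z hz => Nat.cast_le.2 (hW z (hI ?_)))
        exact (Finset.mem_filter.1 (Finset.mem_of_mem_erase hz)).1
      have h7 : 1 ≤ H.card := Finset.card_pos.2 ⟨z0, hz0⟩
      have h8 : ((H.card - 1 : ℕ) : ℝ) ≤ (H.card * H.card - H.card : ℕ) := by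
        have : H.card - 1 ≤ H.card * H.card - H.card := by
          have : H.card * H.card - H.card = H.card * (H.card - 1) := by
            rw [Nat.mul_sub_one]
          rw [this]
          exact Nat.le_mul_of_pos_left _ h7
        exact_mod_cast this
      have h9 := mul_le_mul_of_nonneg_right h8 (show (0 : ℝ) ≤ W from Nat.cast_nonneg _)
      nlinarith
  have h2 := Finset.sum_le_sum h1
  have e1 : ∑ G ∈ bits (k * (m + 1)), ∑ z ∈ I, (om z : ℝ) *
      (if hit z (chunks (m + 1) k G) = true then (1 : ℝ) else 0) =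
      ∑ z ∈ I, (om z : ℝ) * (2 ^ m) ^ k := by
    rw [Finset.sum_comm]
    exact Finset.sum_congr rfl (fun z _ => by rw [← Finset.mul_sum, sum_hit])
  have e2 : ∑ G ∈ bits (k * (m + 1)), (W : ℝ) * ∑ q ∈ I.offDiag,
      (if hit q.1 (chunks (m + 1) k G) = true ∧
        hit q.2 (chunks (m + 1) k G) = true then (1 : ℝ) else 0) =
      W * ∑ q ∈ I.offDiag, ∑ G ∈ bits (k * (m + 1)),
      (if hit q.1 (chunks (m + 1) k G) = true ∧
        hit q.2 (chunks (m + 1) k G) = true then (1 : ℝ) else 0) := by
    rw [← Finset.mul_sum, Finset.sum_comm]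
  rw [Finset.sum_sub_distrib, e1, e2] at h2
  have h3 : ∑ q ∈ I.offDiag, ∑ G ∈ bits (k * (m + 1)),
      (if hit q.1 (chunks (m + 1) k G) = true ∧
        hit q.2 (chunks (m + 1) k G) = true then (1 : ℝ) else 0) ≤
      (2 ^ T) ^ 2 * (2 ^ m / 2) ^ k := by
    have h4 : ∀ q ∈ I.offDiag, ∑ G ∈ bits (k * (m + 1)),
      (if hit q.1 (chunks (m + 1) k G) = true ∧
        hit q.2 (chunks (m + 1) k G) = true then (1 : ℝ) else 0) = (2 ^ m / 2) ^ k := by
      intro q hq
      rw [Finset.mem_offDiag] at hq
      exact sum_hit_pair (mem_bits.1 (hI hq.1)) (mem_bits.1 (hI hq.2.1)) hq.2.2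
    rw [Finset.sum_congr rfl h4, Finset.sum_const, nsmul_eq_mul]
    refine mul_le_mul_of_nonneg_right ?_ (by positivity)
    have h5 : I.offDiag.card ≤ (2 ^ T) ^ 2 := by
      rw [Finset.offDiag_card]
      calc I.card * I.card - I.card ≤ I.card * I.card := Nat.sub_le _ _
        _ ≤ 2 ^ T * 2 ^ T := Nat.mul_le_mul hIc hIc
        _ = (2 ^ T) ^ 2 := by ring
    exact_mod_cast h5
  rw [← Finset.sum_mul, ← hsum] at h2
  rw [le_div_iff₀ (by positivity)]
  have h4 : ((∑ z ∈ bits m, (om z : ℝ)) / 2 ^ k - W * (2 ^ T) ^ 2 / 4 ^ k) *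
      2 ^ (k * (m + 1)) = (∑ z ∈ bits m, (om z : ℝ)) * (2 ^ m) ^ k -
        W * ((2 ^ T) ^ 2 * (2 ^ m / 2) ^ k) := by
    have h5 : (2 : ℝ) ^ (k * (m + 1)) = (2 ^ m) ^ k * 2 ^ k := by
      rw [← mul_pow, ← pow_succ, ← pow_mul, mul_comm (m + 1) k]
    have h6 : (4 : ℝ) ^ k = 2 ^ k * 2 ^ k := by rw [← mul_pow]; norm_num
    rw [h5, h6, div_pow]
    field_simp
  rw [h4]
  have h5 := mul_le_mul_of_nonneg_left h3 (show (0 : ℝ) ≤ W from Nat.cast_nonneg _)
  linarith

end Pool.Agent.FewPath
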