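import Pool.Agent.FewPath.DefsB

namespace Pool.Agent.FewPath

open Classical

variable {A : List Bool → Bool}

/-! ### Encoding of data by bit strings, and a union bound -/

/-- Prefix-free encoding of data. -/
def PTy.enc : {α : Type} → PTy α → α → List Bool
  | _, PTy.bool, b => [b]
  | _, PTy.nat, n => List.replicate n true ++ [false]
  | _, PTy.prod a b, x => a.enc x.1 ++ b.enc x.2
  | _, PTy.list a, l => l.foldr (fun y w => true :: (a.enc y ++ w)) [false]

theorem PTy.enc_inj : {α : Type} → (h : PTy α) → (x y : α) → (l k : List Bool) →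
    h.enc x ++ l = h.enc y ++ k → x = y ∧ l = k
  | _, PTy.bool, x, y, l, k, h => by simpa [PTy.enc] using h
  | _, PTy.nat, x, y, l, k, h => by
      induction x generalizing y with
      | zero =>
        cases y with
        | zero => simpa [PTy.enc] using h
        | succ y => simp [PTy.enc, List.replicate_succ] at h
      | succ x ih =>
        cases y with
        | zero => simp [PTy.enc, List.replicate_succ] at h
        | succ y =>
          have := ih y (by simpa [PTy.enc, List.replicate_succ] using h)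
          exact ⟨by rw [this.1], this.2⟩
  | _, PTy.prod a b, x, y, l, k, h => by
      simp only [PTy.enc, List.append_assoc] at h
      obtain ⟨h1, h2⟩ := PTy.enc_inj a _ _ _ _ h
      obtain ⟨h3, h4⟩ := PTy.enc_inj b _ _ _ _ h2
      exact ⟨Prod.ext h1 h3, h4⟩
  | _, PTy.list a, x, y, l, k, h => by
      induction x generalizing y with
      | nil =>
        cases y with
        | nil => simpa [PTy.enc] using h
        | cons b y => simp [PTy.enc] at h
      | cons b x ih =>
        cases y with
        | nil => simp [PTy.enc] at h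
        | cons c y =>
          simp only [PTy.enc, List.foldr_cons, List.cons_append, List.append_assoc,
            List.cons.injEq, true_and] at h
          obtain ⟨h1, h2⟩ := PTy.enc_inj a _ _ _ _ h
          obtain ⟨h3, h4⟩ := ih y h2
          exact ⟨by rw [h1, h3], h4⟩

theorem PTy.enc_len : {α : Type} → (h : PTy α) → ∃ c : ℕ, ∀ x : α, (h.enc x).length ≤ c * h.sz x
  | _, PTy.bool => ⟨1, fun x => by simp [PTy.enc, PTy.sz_bool]⟩
  | _, PTy.nat => ⟨1, fun x => by simp [PTy.enc, PTy.sz_nat]⟩
  | _, PTy.prod a b => by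
      obtain ⟨c, hc⟩ := PTy.enc_len a
      obtain ⟨d, hd⟩ := PTy.enc_len b
      refine ⟨c + d, fun x => ?_⟩
      simp only [PTy.enc, PTy.sz_prod, List.length_append]
      have h1 := hc x.1
      have h2 := hd x.2
      nlinarith [Nat.zero_le (d * a.sz x.1), Nat.zero_le (c * b.sz x.2)]
  | _, PTy.list a => by
      obtain ⟨c, hc⟩ := PTy.enc_len a
      refine ⟨c + 1, fun x => ?_⟩
      induction x with
      | nil => simp [PTy.enc, PTy.sz_list]
      | cons b x ih =>
        have h1 := hc b
        have h2 := PTy.sz_pos a b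
        simp only [PTy.enc, PTy.sz_list, List.foldr_cons, List.length_cons, List.length_append,
          List.map_cons, List.sum_cons] at ih ⊢
        nlinarith

/-- Padding to length `N`. -/
def pad (N : ℕ) (l : List Bool) : List Bool := l ++ List.replicate (N - l.length) false

theorem union_bound {β : Type} [hβ : PTy β] : ∃ c : ℕ, ∀ (B q : ℕ) (X : Finset (List Bool))
    (P : β → List Bool → Prop),
    (∀ y, size y ≤ B → (X.filter (P y)).card ≤ q) →
    (X.filter (fun ρ => ∃ y, size y ≤ B ∧ P y ρ)).card ≤ 2 ^ (c * B) * q := by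
  obtain ⟨c, hc⟩ := PTy.enc_len hβ
  refine ⟨c, fun B q X P h => ?_⟩
  have hsub : X.filter (fun ρ => ∃ y, size y ≤ B ∧ P y ρ) ⊆
      (bits (c * B)).biUnion (fun u => X.filter (fun ρ => ∃ y, size y ≤ B ∧
        pad (c * B) (hβ.enc y) = u ∧ P y ρ)) := by
    intro ρ hρ
    obtain ⟨h1, y, hy, hp⟩ := Finset.mem_filter.1 hρ
    refine Finset.mem_biUnion.2 ⟨pad (c * B) (hβ.enc y), ?_, Finset.mem_filter.2
      ⟨h1, y, hy, rfl, hp⟩⟩
    rw [mem_bits, pad, List.length_append, List.length_replicate]
    have : (hβ.enc y).length ≤ c * B := (hc y).trans (Nat.mul_le_mul_left _ hy)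
    omega
  refine (Finset.card_le_card hsub).trans (Finset.card_biUnion_le.trans ?_)
  calc ∑ u ∈ bits (c * B), (X.filter (fun ρ => ∃ y, size y ≤ B ∧
        pad (c * B) (hβ.enc y) = u ∧ P y ρ)).card ≤ ∑ u ∈ bits (c * B), q := by
        refine Finset.sum_le_sum (fun u _ => ?_)
        by_cases hu : ∃ y, size y ≤ B ∧ pad (c * B) (hβ.enc y) = u
        · obtain ⟨y, hy, rfl⟩ := hu
          refine (Finset.card_le_card ?_).trans (h y hy)
          intro ρ hρ
          obtain ⟨h1, y', _, h3, hp⟩ := Finset.mem_filter.1 hρ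
          obtain ⟨rfl, _⟩ := PTy.enc_inj hβ _ _ _ _ h3
          exact Finset.mem_filter.2 ⟨h1, hp⟩
        · have : X.filter (fun ρ => ∃ y, size y ≤ B ∧
            pad (c * B) (hβ.enc y) = u ∧ P y ρ) = ∅ := by
            refine Finset.filter_eq_empty_iff.2 (fun ρ _ hρ => hu ?_)
            obtain ⟨y, hy, h3, _⟩ := hρ
            exact ⟨y, hy, h3⟩
          rw [this]; simp
    _ = 2 ^ (c * B) * q := by rw [Finset.sum_const, card_bits, smul_eq_mul]

/-! ### Shifts -/

theorem card_shift {E : ℕ} {s : List Bool} (hs : s.length = E) (φ : List Bool → Prop) :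
    ((bits E).filter (fun r => φ (xorL r s))).card = ((bits E).filter φ).card := by
  rw [Finset.card_filter, Finset.card_filter]
  exact sum_xorL hs (fun l => if φ l then 1 else 0)

theorem card_shift_left {E : ℕ} {s : List Bool} (hs : s.length = E) (φ : List Bool → Prop) :
    ((bits E).filter (fun r => φ (xorL s r))).card = ((bits E).filter φ).card := by
  rw [Finset.card_filter, Finset.card_filter]
  exact sum_xorL_left hs (fun l => if φ l then 1 else 0)

theorem shifts_exists {E : ℕ} {φ : List Bool → Prop}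
    (h : ((bits E).filter φ).card * 2 ≤ 2 ^ E) (t : ℕ) :
    ∃ S : List (List Bool), S.length = t ∧ (∀ s ∈ S, s.length = E) ∧
      ((bits E).filter (fun r => ∀ s ∈ S, φ (xorL r s))).card * 2 ^ t ≤ 2 ^ E := by
  induction t with
  | zero =>
    refine ⟨[], rfl, by simp, ?_⟩
    have : (bits E).filter (fun r => ∀ s ∈ ([] : List (List Bool)), φ (xorL r s)) ⊆ bits E :=
      Finset.filter_subset _ _
    have := Finset.card_le_card this
    rw [card_bits] at this
    simpa using this
  | succ t ih =>
    obtain ⟨S, hS, hl, hc⟩ := ih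
    set X := (bits E).filter (fun r => ∀ s ∈ S, φ (xorL r s)) with hX
    have hsum : ∑ s ∈ bits E, (X.filter (fun r => φ (xorL r s))).card * 2 ≤
        ∑ s ∈ bits E, X.card := by
      rw [← Finset.sum_mul]
      have h1 : ∑ s ∈ bits E, (X.filter (fun r => φ (xorL r s))).card =
          ∑ r ∈ X, ((bits E).filter (fun s => φ (xorL r s))).card := by
        simp only [Finset.card_filter]
        exact Finset.sum_comm
      rw [h1]
      have h2 : ∀ r ∈ X, ((bits E).filter (fun s => φ (xorL r s))).card =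
          ((bits E).filter φ).card := fun r hr =>
        card_shift_left (mem_bits.1 (Finset.mem_filter.1 hr).1) φ
      rw [Finset.sum_congr rfl h2, Finset.sum_const, Finset.sum_const, card_bits, smul_eq_mul,
        smul_eq_mul]
      calc X.card * ((bits E).filter φ).card * 2 = X.card * (((bits E).filter φ).card * 2) := by
            ring
        _ ≤ X.card * 2 ^ E := Nat.mul_le_mul_left _ h
        _ = 2 ^ E * X.card := by ring
    obtain ⟨s, hs, hle⟩ := Finset.exists_le_of_sum_le (by
      refine ⟨List.replicate E false, mem_bits.2 (by simp)⟩) hsum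
    refine ⟨s :: S, by simp [hS], ?_, ?_⟩
    · intro s' hs'
      rcases List.mem_cons.1 hs' with h' | h'
      · rw [h']; exact mem_bits.1 hs
      · exact hl s' h'
    · have : (bits E).filter (fun r => ∀ s' ∈ s :: S, φ (xorL r s')) =
          X.filter (fun r => φ (xorL r s)) := by
        ext r
        simp only [hX, Finset.mem_filter, List.mem_cons, forall_eq_or_imp]
        tauto
      rw [this, pow_succ]
      calc (X.filter (fun r => φ (xorL r s))).card * (2 ^ t * 2) =
          (X.filter (fun r => φ (xorL r s))).card * 2 * 2 ^ t := by ring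
        _ ≤ X.card * 2 ^ t := Nat.mul_le_mul_right _ hle
        _ ≤ 2 ^ E := hc

theorem shift_good {E : ℕ} {φ : List Bool → Prop} {S : List (List Bool)}
    (h : ((bits E).filter (fun r => ¬ φ r)).card * S.length < 2 ^ E)
    (hS : ∀ s ∈ S, s.length = E) : ∃ r ∈ bits E, ∀ s ∈ S, φ (xorL r s) := by
  by_contra hcon
  push Not at hcon
  have hsub : bits E ⊆ S.toFinset.biUnion
      (fun s => (bits E).filter (fun r => ¬ φ (xorL r s))) := by
    intro r hr
    obtain ⟨s, hs, h'⟩ := hcon r hr
    exact Finset.mem_biUnion.2 ⟨s, List.mem_toFinset.2 hs, Finset.mem_filter.2 ⟨hr, h'⟩⟩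
  have h1 := (Finset.card_le_card hsub).trans Finset.card_biUnion_le
  rw [card_bits] at h1
  have h2 : ∑ s ∈ S.toFinset, ((bits E).filter (fun r => ¬ φ (xorL r s))).card ≤
      ∑ s ∈ S.toFinset, ((bits E).filter (fun r => ¬ φ r)).card :=
    Finset.sum_le_sum (fun s hs => by
      have := (card_shift (hS s (List.mem_toFinset.1 hs)) (fun r => ¬ φ r)).le
      convert this)
  rw [Finset.sum_const, smul_eq_mul] at h2
  have h3 : S.toFinset.card * ((bits E).filter (fun r => ¬ φ r)).card ≤
      ((bits E).filter (fun r => ¬ φ r)).card * S.length := by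
    rw [mul_comm]
    exact Nat.mul_le_mul_left _ (List.toFinset_card_le S)
  omega

theorem card_take {E ℓ : ℕ} (h : ℓ ≤ E) (P : List Bool → Prop) :
    ((bits E).filter (fun r => P (r.take ℓ))).card = ((bits ℓ).filter P).card * 2 ^ (E - ℓ) := by
  obtain ⟨d, rfl⟩ := Nat.exists_eq_add_of_le h
  rw [Finset.card_filter, sum_bits_add, Finset.card_filter, Finset.sum_mul]
  refine Finset.sum_congr rfl (fun l hl => ?_)
  have : ∀ k ∈ bits d, (if P ((l ++ k).take ℓ) then 1 else 0) = (if P l then 1 else 0) := by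
    intro k _
    rw [← mem_bits.1 hl, List.take_left]
  rw [Finset.sum_congr rfl this, Finset.sum_const, card_bits, smul_eq_mul, mul_comm]
  simp

theorem exp_beats (κ : ℕ) : ∃ C : ℕ, ∀ s, C ≤ s → (2 * s + 2) ^ κ + 1 < 2 ^ s := by
  have h := tendsto_pow_const_div_const_pow_of_one_lt (2 * κ + 1) (r := (2 : ℝ)) (by norm_num)
  have h1 := (h.eventually (gt_mem_nhds (show (0 : ℝ) < 1 by norm_num)))
  obtain ⟨C, hC⟩ := Filter.eventually_atTop.1 h1
  refine ⟨max C 4, fun s hs => ?_⟩
  have hs1 : C ≤ s := (le_max_left _ _).trans hs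
  have hs2 : 4 ≤ s := (le_max_right _ _).trans hs
  have h2 := hC s hs1
  rw [div_lt_one (by positivity)] at h2
  have h3 : s ^ (2 * κ + 1) < 2 ^ s := by exact_mod_cast h2
  have h4 : 2 * s + 2 ≤ s ^ 2 := by nlinarith
  have h5 : (2 * s + 2) ^ κ ≤ (s ^ 2) ^ κ := Nat.pow_le_pow_left h4 _
  have h6 : (s ^ 2) ^ κ + 1 ≤ s ^ (2 * κ + 1) := by
    rw [← pow_mul, pow_succ]
    have : 1 ≤ s ^ (2 * κ) := Nat.one_le_pow _ _ (by omega)
    nlinarith
  omega

/-! ### `∃ · AM ⊆ Π₂` -/

theorem pi2 {α β : Type} [PTy α] [PTy β] {M : α × β → Prop} (hM : AMs A M) (K : ℕ) :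
    Sig A 2 (fun x => ¬ ∃ y, size y ≤ (size x + 1) ^ K ∧ M (x, y)) := by
  obtain ⟨γ, _, ell, V, k, hell, hV, hyes, hno⟩ := hM
  obtain ⟨c, hub⟩ := union_bound (β := β)
  obtain ⟨κ, hκ⟩ := hell.bddNat
  obtain ⟨C, hC⟩ := exp_beats κ
  -- parameters
  let B : α → ℕ := fun x => (size x + 1) ^ K
  let s : α → ℕ := fun x => size x + B x + c * B x + C + 1
  let E : α → ℕ := fun x => (2 * s x + 2) ^ κ
  let W : α → ℕ := fun x => (2 * s x + 2) ^ k
  have hB : FP A B := FP.sizePow FP.id K
  have hs : FP A s := FP.add' (FP.add' (FP.add' (FP.add' FP.sz hB) (FP.mul' (FP.const c) hB))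
    (FP.const C)) (FP.const 1)
  have hE : FP A E := FP.pow' (FP.add' (FP.mul' (FP.const 2) hs) (FP.const 2)) κ
  have hW : FP A W := FP.pow' (FP.add' (FP.mul' (FP.const 2) hs) (FP.const 2)) k
  -- the predicates
  let wf : α × List (List Bool) → Bool := fun p =>
    decide (p.2.length = E p.1 + 1) && p.2.all (fun u => decide (u.length = E p.1))
  have hwf : FP A wf := FP.and' (FP.eqN' (FP.length' FP.snd)
    (FP.add' (FP.comp hE FP.fst) (FP.const 1)))
    (FP.all' (f := fun (p : α × List (List Bool)) u => decide (u.length = E p.1)) FP.snd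
      (FP.eqN' (FP.length' FP.snd) (FP.comp hE (FP.fst' FP.fst))))
  let item : α × List Bool × List Bool × β × γ → Bool := fun q =>
    decide (size q.2.2.2.1 ≤ B q.1) &&
      V (((q.1, q.2.2.2.1), s q.1), (xorL q.2.1 q.2.2.1).take (ell ((q.1, q.2.2.2.1), s q.1)),
        q.2.2.2.2)
  have hitem : FP A item := by
    have h0 : FP A (fun q : α × List Bool × List Bool × β × γ => ((q.1, q.2.2.2.1), s q.1)) :=
      FP.pair (FP.pair FP.fst (FP.fst' (FP.snd' (FP.snd' FP.snd)))) (FP.comp hs FP.fst)
    exact FP.and' (FP.le' (FP.size' (FP.fst' (FP.snd' (FP.snd' FP.snd)))) (FP.comp hB FP.fst))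
      (FP.comp hV (FP.pair h0 (FP.pair (FP.take' (FP.comp hell h0)
        (FP.xorL' (FP.fst' FP.snd) (FP.fst' (FP.snd' FP.snd))))
          (FP.snd' (FP.snd' (FP.snd' FP.snd))))))
  let G : (α × List (List Bool)) × (List Bool × List (β × γ)) → Bool := fun p =>
    !wf p.1 || (decide (p.2.1.length = E p.1.1) && decide (p.2.2.length = p.1.2.length) &&
      (p.1.2.zip p.2.2).all (fun v => item (p.1.1, p.2.1, v.1, v.2.1, v.2.2)))
  have hG : FP A G := by
    refine FP.or' (FP.not' (FP.comp hwf FP.fst)) (FP.and' (FP.and' (FP.eqN'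
      (FP.length' (FP.fst' FP.snd)) (FP.comp hE (FP.fst' FP.fst)))
      (FP.eqN' (FP.length' (FP.snd' FP.snd)) (FP.length' (FP.snd' FP.fst)))) (FP.all'
      (f := fun (p : (α × List (List Bool)) × (List Bool × List (β × γ))) v =>
        item (p.1.1, p.2.1, v.1, v.2.1, v.2.2))
      (FP.zip' (FP.snd' FP.fst) (FP.snd' FP.snd)) ?_))
    exact FP.comp hitem (FP.pair (FP.fst' (FP.fst' FP.fst)) (FP.pair (FP.fst' (FP.snd' FP.fst))
      (FP.pair (FP.fst' FP.snd) (FP.pair (FP.fst' (FP.snd' FP.snd)) (FP.snd' (FP.snd' FP.snd))))))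
  -- bounds
  have hbd1 : FP A (fun x => (E x + 1) * (E x + 1) + 1) :=
    FP.add' (FP.mul' (FP.add' hE (FP.const 1)) (FP.add' hE (FP.const 1))) (FP.const 1)
  have hbd2 : FP A (fun x => (E x + 1) * (B x + W x) + E x + 2) :=
    FP.add' (FP.add' (FP.mul' (FP.add' hE (FP.const 1)) (FP.add' hB hW)) hE) (FP.const 2)
  obtain ⟨k1, hk1⟩ := hbd1.bddNat
  obtain ⟨k2, hk2⟩ := hbd2.bddNat
  refine ⟨List (List Bool), inferInstance, fun p => ¬ ∃ q, size q ≤ (size p + 1) ^ k2 ∧
    G (p, q) = true, k1, ⟨List Bool × List (β × γ), inferInstance,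
      fun u => G u = true, k2, ⟨fun u => !G u, FP.not' hG, fun u => by simp⟩,
      fun p => by simp⟩, fun x => ?_⟩
  -- the random predicate
  let φ : List Bool → Prop := fun ρ => ∃ y, size y ≤ B x ∧
    ∃ w, size w ≤ W x ∧ V (((x, y), s x), ρ.take (ell ((x, y), s x)), w) = true
  have hell_le : ∀ y, size y ≤ B x → ell ((x, y), s x) ≤ E x := by
    intro y hy
    refine (hκ _).trans (Nat.pow_le_pow_left ?_ _)
    simp only [size_prod, size_nat]
    simp only [s] at hy ⊢
    omega
  have hs1 : C ≤ s x := by simp only [s]; omega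
  have hEs : E x + 1 < 2 ^ s x := hC _ hs1
  by_cases hL : ∃ y, size y ≤ (size x + 1) ^ K ∧ M (x, y)
  · -- Merlin can convince
    refine iff_of_false (not_not.2 hL) ?_
    rintro ⟨S, _, hS⟩
    apply hS
    obtain ⟨y, hy, hMy⟩ := hL
    have hbad := hyes (x, y) (s x) hMy
    by_cases hw : wf (x, S) = true
    · have hw' : S.length = E x + 1 ∧ ∀ u ∈ S, u.length = E x := by
        simpa [wf] using hw
      obtain ⟨ψ, hψ⟩ : ∃ ψ : List Bool → Prop, ∀ r, ψ r ↔ ¬ ∃ w,
        size w ≤ (size ((x, y), s x) + 1) ^ k ∧ V (((x, y), s x), r, w) = true :=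
        ⟨_, fun r => Iff.rfl⟩
      have hbad' : ((bits (ell ((x, y), s x))).filter ψ).card * 2 ^ s x ≤
          2 ^ ell ((x, y), s x) := by
        refine le_trans (Nat.mul_le_mul_right _ (le_of_eq ?_)) hbad
        congr 1
        ext r
        simp only [Finset.mem_filter, hψ]
      have hcard : ((bits (E x)).filter (fun r => ¬ φ r)).card * S.length < 2 ^ E x := by
        have h1 : ((bits (E x)).filter (fun r => ¬ φ r)).card ≤
            ((bits (E x)).filter (fun r => ψ (r.take (ell ((x, y), s x))))).card := by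
          refine Finset.card_le_card (fun r hr => ?_)
          rw [Finset.mem_filter] at hr ⊢
          refine ⟨hr.1, (hψ _).2 (fun h => hr.2 ?_)⟩
          obtain ⟨w, hw1, hw2⟩ := h
          refine ⟨y, hy, w, hw1.trans (Nat.pow_le_pow_left ?_ _), hw2⟩
          simp only [size_prod, size_nat]
          simp only [s, B]
          omega
        rw [card_take (hell_le y hy) ψ] at h1
        rw [hw'.1]
        by_contra hcon
        push Not at hcon
        have h2 : 2 ^ E x * 2 ^ s x ≤ 2 ^ E x * (E x + 1) := by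
          calc 2 ^ E x * 2 ^ s x ≤
              ((bits (E x)).filter (fun r => ¬ φ r)).card * (E x + 1) * 2 ^ s x :=
                Nat.mul_le_mul_right _ hcon
            _ ≤ _ * 2 ^ (E x - ell ((x, y), s x)) * (E x + 1) * 2 ^ s x :=
                Nat.mul_le_mul_right _ (Nat.mul_le_mul_right _ h1)
            _ = (_ * 2 ^ s x) * (2 ^ (E x - ell ((x, y), s x)) * (E x + 1)) := by ring
            _ ≤ 2 ^ ell ((x, y), s x) * (2 ^ (E x - ell ((x, y), s x)) * (E x + 1)) :=
                Nat.mul_le_mul_right _ hbad'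
            _ = 2 ^ E x * (E x + 1) := by
                rw [← mul_assoc, ← pow_add, Nat.add_sub_cancel' (hell_le y hy)]
        have h3 := Nat.le_of_mul_le_mul_left h2 (by positivity)
        omega
      obtain ⟨r, hr, hφ⟩ := shift_good hcard hw'.2
      have : Nonempty β := ⟨PTy.dflt inferInstance⟩
      have : Nonempty γ := ⟨PTy.dflt inferInstance⟩
      choose! fy hfy fw hfw hVf using hφ
      refine ⟨(r, S.map (fun u => (fy u, fw u))), ?_, ?_⟩
      · have hsz : size (r, S.map (fun u => (fy u, fw u))) ≤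
            (E x + 1) * (B x + W x) + E x + 2 := by
          rw [size_prod]
          dsimp only
          rw [size_bits, mem_bits.1 hr]
          have : ∀ v ∈ S.map (fun u => (fy u, fw u)), size v ≤ B x + W x := by
            intro v hv
            obtain ⟨u, hu, rfl⟩ := List.mem_map.1 hv
            exact Nat.add_le_add (hfy u hu) (hfw u hu)
          have := size_list_le this
          rw [List.length_map, hw'.1] at this
          omega
        refine hsz.trans ((hk2 x).trans (Nat.pow_le_pow_left ?_ _))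
        rw [size_prod]; dsimp only; omega
      · simp only [G, Bool.or_eq_true, Bool.and_eq_true, decide_eq_true_eq, List.all_eq_true,
          List.length_map]
        refine Or.inr ⟨⟨mem_bits.1 hr, trivial⟩, ?_⟩
        intro v hv
        rw [List.zip_map_right, List.mem_map] at hv
        obtain ⟨⟨a, b⟩, hab, rfl⟩ := hv
        have hab2 := List.of_mem_zip hab
        have hab3 : a = b := by
          have := List.mem_iff_getElem.1 hab
          obtain ⟨i, hi, he⟩ := this
          rw [List.getElem_zip] at he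
          exact (Prod.mk.inj he).1.symm.trans (Prod.mk.inj he).2
        subst hab3
        simp only [item, Prod.map, Bool.and_eq_true, decide_eq_true_eq, id]
        exact ⟨hfy a hab2.1, hVf a hab2.1⟩
    · refine ⟨([], []), ?_, ?_⟩
      · rw [size_prod]
        calc size ([] : List Bool) + size ([] : List (β × γ)) = 2 := by simp
          _ ≤ (E x + 1) * (B x + W x) + E x + 2 := by omega
          _ ≤ (size x + 1) ^ k2 := hk2 x
          _ ≤ _ := Nat.pow_le_pow_left (by rw [size_prod]; dsimp only; omega) _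
      · simp only [G]
        rw [Bool.not_eq_true] at hw
        rw [hw]; rfl
  · -- the shifts refute
    refine iff_of_true hL ?_
    let φ₂ : List Bool → Prop := fun ρ => ∃ y, size y ≤ B x ∧
      ∃ w, V (((x, y), s x), ρ.take (ell ((x, y), s x)), w) = true
    have hφcard : ((bits (E x)).filter φ₂).card * 2 ≤ 2 ^ E x := by
      have hq : ∀ y, size y ≤ B x → ((bits (E x)).filter (fun ρ => ∃ w,
          V (((x, y), s x), ρ.take (ell ((x, y), s x)), w) = true)).card ≤
          2 ^ E x / 2 ^ s x := by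
        intro y hy
        have hMy : ¬ M (x, y) := fun h => hL ⟨y, hy, h⟩
        have hbad := hno (x, y) (s x) hMy
        rw [Nat.le_div_iff_mul_le (by positivity)]
        rw [card_take (hell_le y hy) (fun r => ∃ w, V (((x, y), s x), r, w) = true)]
        calc _ = (_ * 2 ^ s x) * 2 ^ (E x - ell ((x, y), s x)) := by ring
          _ ≤ 2 ^ ell ((x, y), s x) * 2 ^ (E x - ell ((x, y), s x)) :=
              Nat.mul_le_mul_right _ hbad
          _ = 2 ^ E x := by rw [← pow_add, Nat.add_sub_cancel' (hell_le y hy)]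
      have h2 := hub (B x) (2 ^ E x / 2 ^ s x) (bits (E x)) _ hq
      have hcs : c * B x + 1 ≤ s x := by simp only [s]; omega
      calc ((bits (E x)).filter φ₂).card * 2 ≤ 2 ^ (c * B x) * (2 ^ E x / 2 ^ s x) * 2 :=
            Nat.mul_le_mul_right _ h2
        _ = 2 ^ (c * B x + 1) * (2 ^ E x / 2 ^ s x) := by rw [pow_succ]; ring
        _ ≤ 2 ^ s x * (2 ^ E x / 2 ^ s x) :=
            Nat.mul_le_mul_right _ (Nat.pow_le_pow_right (by norm_num) hcs)
        _ ≤ 2 ^ E x := Nat.mul_div_le _ _
    obtain ⟨S, hSl, hSE, hSc⟩ := shifts_exists hφcard (E x + 1)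
    refine ⟨S, ?_, ?_⟩
    · have h1 : ∀ u ∈ S, size u ≤ E x + 1 := fun u hu => by rw [size_bits, hSE u hu]
      have h2 := size_list_le h1
      rw [hSl] at h2
      exact h2.trans (hk1 x)
    · rintro ⟨⟨r, Wl⟩, _, hg⟩
      have hwf' : wf (x, S) = true := by
        simp only [wf, Bool.and_eq_true, decide_eq_true_eq, List.all_eq_true]
        exact ⟨hSl, hSE⟩
      simp only [G, hwf', Bool.not_true, Bool.false_or, Bool.and_eq_true, decide_eq_true_eq,
        List.all_eq_true] at hg
      obtain ⟨⟨hr, hWl⟩, hall⟩ := hg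
      have hmem : r ∈ (bits (E x)).filter (fun r => ∀ s ∈ S, φ₂ (xorL r s)) := by
        refine Finset.mem_filter.2 ⟨mem_bits.2 hr, fun u hu => ?_⟩
        obtain ⟨i, hi, rfl⟩ := List.mem_iff_getElem.1 hu
        have hi2 : i < Wl.length := by rw [hWl]; exact hi
        have hz : (S[i], Wl[i]) ∈ S.zip Wl := by
          rw [List.mem_iff_getElem]
          exact ⟨i, by rw [List.length_zip]; omega, by rw [List.getElem_zip]⟩
        have := hall _ hz
        simp only [item, Bool.and_eq_true, decide_eq_true_eq] at this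
        exact ⟨Wl[i].1, this.1, Wl[i].2, this.2⟩
      have hpos : 0 < ((bits (E x)).filter (fun r => ∀ s ∈ S, φ₂ (xorL r s))).card :=
        Finset.card_pos.2 ⟨r, hmem⟩
      have : 2 ^ (E x + 1) ≤ 2 ^ E x := by
        calc 2 ^ (E x + 1) = 1 * 2 ^ (E x + 1) := by ring
          _ ≤ _ := (Nat.mul_le_mul_right _ hpos).trans hSc
      rw [pow_succ] at this
      have h3 : 0 < 2 ^ E x := by positivity
      omega

end Pool.Agent.FewPath
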