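import Pool.Agent.FewPath.Wit

namespace Pool.Agent.FewPath

variable {A : List Bool → Bool} {α β γ : Type} [PTy α] [PTy β] [PTy γ]

/-! ### A code for lists of bit strings -/

/-- one string in front of a code -/
def encS (s w : List Bool) : List Bool :=
  s.foldr (fun b u => true :: b :: u) (false :: false :: w)

/-- the code of a list of strings -/
def encL (l : List (List Bool)) : List Bool := l.foldr (fun s w => encS s w) []

/-- one bit of the decoder; the state consists of the parity, the saved bit and the stack -/
def decStep (u : Bool) (q : Bool × Bool × List (List Bool)) : Bool × Bool × List (List Bool) :=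
  if q.1 = true then
    (if u = true then (false, false, (q.2.1 :: q.2.2.headD []) :: q.2.2.tail)
      else (false, false, [] :: q.2.2))
  else (true, u, q.2.2)

/-- the decoder -/
def decL (w : List Bool) : List (List Bool) :=
  (w.foldr (fun u q => decStep u q) (false, false, ([] : List (List Bool)))).2.2

theorem decStep_encS (s w : List Bool) (z : Bool × Bool × List (List Bool))
    (st : List (List Bool)) (h : w.foldr (fun u q => decStep u q) z = (false, false, st)) :
    (encS s w).foldr (fun u q => decStep u q) z = (false, false, s :: st) := by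
  unfold encS
  induction s with
  | nil =>
    simp only [List.foldr_nil, List.foldr_cons, h]
    rfl
  | cons b s ih =>
    simp only [List.foldr_cons] at ih ⊢
    rw [ih]
    rfl

theorem decL_encL (l : List (List Bool)) : decL (encL l) = l := by
  have h : (encL l).foldr (fun u q => decStep u q) (false, false, ([] : List (List Bool))) =
      (false, false, l) := by
    induction l with
    | nil => rfl
    | cons s l ih => exact decStep_encS s (encL l) _ l ih
  unfold decL
  rw [h]

theorem size_encS (s w : List Bool) : size (encS s w) = size w + 2 * s.length + 2 := by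
  unfold encS
  induction s with
  | nil => simp only [List.foldr_nil, size_cons, size_bool, List.length_nil]; omega
  | cons b s ih =>
    simp only [List.foldr_cons, size_cons, size_bool, List.length_cons] at ih ⊢
    rw [ih]
    omega

theorem FP.encS' {f g : α → List Bool} (hf : FP A f) (hg : FP A g) :
    FP A (fun x => encS (f x) (g x)) := by
  refine FP.fold' (f := fun _ b u => true :: b :: u) hf
    (FP.cons' (FP.const false) (FP.cons' (FP.const false) hg))
    (FP.cons' (FP.const true) (FP.cons' (FP.fst' FP.snd) (FP.snd' FP.snd))) 2 ?_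
  intro x l z
  have h1 : size (l.foldr (fun b u => true :: b :: u) z) = size z + 2 * l.length := by
    induction l with
    | nil => simp
    | cons b l ih =>
      simp only [List.foldr_cons, size_cons, size_bool, List.length_cons] at ih ⊢
      rw [ih]
      omega
  have h2 := length_lt_size l
  have h3 := size_pos x
  have h4 := size_pos z
  rw [h1]
  simp only [size_prod]
  nlinarith

theorem FP.encL' {f : α → List (List Bool)} (hf : FP A f) : FP A (fun x => encL (f x)) := by
  refine FP.fold' (f := fun _ s w => encS s w) (z := fun _ => ([] : List Bool)) hf (FP.const [])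
    (FP.encS' (FP.fst' FP.snd) (FP.snd' FP.snd)) 2 ?_
  intro x l z
  have h1 : size (l.foldr (fun s w => encS s w) z) + 2 ≤ size z + 2 * size l := by
    induction l with
    | nil => simp
    | cons s l ih =>
      simp only [List.foldr_cons, size_cons, size_encS]
      have := length_lt_size s
      omega
  have h3 := size_pos x
  have h4 := size_pos z
  have h5 := size_pos l
  simp only [size_prod]
  nlinarith

theorem size_decStep (u : Bool) (q : Bool × Bool × List (List Bool)) :
    size (decStep u q) ≤ size q + 2 := by
  obtain ⟨p, s, st⟩ := q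
  unfold decStep
  cases p
  · simp
  · cases u
    · simp; omega
    · cases st with
      | nil => simp
      | cons t st => simp; omega

theorem FP.decStep' {f : α → Bool} {g : α → Bool × Bool × List (List Bool)} (hf : FP A f)
    (hg : FP A g) : FP A (fun x => decStep (f x) (g x)) := by
  unfold decStep
  refine FP.ite' (FP.fst' hg) (FP.ite' hf ?_ ?_) ?_
  · exact FP.pair (FP.const false) (FP.pair (FP.const false) (FP.cons' (FP.cons'
      (FP.fst' (FP.snd' hg)) (FP.head' (FP.const []) (FP.snd' (FP.snd' hg))))
      (FP.tail' (FP.snd' (FP.snd' hg)))))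
  · exact FP.pair (FP.const false) (FP.pair (FP.const false) (FP.cons' (FP.const [])
      (FP.snd' (FP.snd' hg))))
  · exact FP.pair (FP.const true) (FP.pair hf (FP.snd' (FP.snd' hg)))

theorem FP.decL' {f : α → List Bool} (hf : FP A f) : FP A (fun x => decL (f x)) := by
  refine FP.snd' (FP.snd' (FP.fold' (f := fun _ u q => decStep u q)
    (z := fun _ => ((false, false, []) : Bool × Bool × List (List Bool))) hf (FP.const _)
    (FP.decStep' (FP.fst' FP.snd) (FP.snd' FP.snd)) 2 ?_))
  intro x l z
  have h1 : size (l.foldr (fun u q => decStep u q) z) ≤ size z + 2 * l.length := by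
    induction l with
    | nil => simp
    | cons u l ih =>
      simp only [List.foldr_cons, List.length_cons]
      have := size_decStep u (l.foldr (fun u q => decStep u q) z)
      omega
  have h2 := length_lt_size l
  have h3 := size_pos x
  have h4 := size_pos z
  have h5 : size (x, l, z) = size x + (size l + size z) := rfl
  have h6 : size z + 2 * l.length ≤ (size (x, l, z)) ^ 2 := by
    rw [h5]
    generalize size z = c at *
    generalize size l = b at *
    generalize size x = a at *
    nlinarith
  exact h1.trans h6

/-- Every data type can be coded by bit strings. -/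
theorem exists_code (A : List Bool → Bool) {α : Type} (h : PTy α) :
    ∃ (e : α → List Bool) (d : List Bool → α), @FP A α (List Bool) h (instList (a := instBool)) e ∧
      @FP A (List Bool) α (instList (a := instBool)) h d ∧ ∀ x, d (e x) = x := by
  induction h with
  | bool =>
    refine ⟨fun b => [b], fun l => l.headD false, ?_, ?_, fun x => rfl⟩
    · exact FP.cons' (A := A) (FP.id (α := Bool)) (FP.const ([] : List Bool))
    · exact FP.head' (A := A) (FP.const false) (FP.id (α := List Bool))
  | nat =>
    refine ⟨fun n => List.replicate n true, fun l => l.length, ?_, ?_, fun x => by simp⟩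
    · exact FP.replicate' (A := A) (FP.id (α := ℕ)) (FP.const true)
    · exact FP.length' (A := A) (FP.id (α := List Bool))
  | @prod β γ a b iha ihb =>
    let _ : PTy β := a
    let _ : PTy γ := b
    obtain ⟨e1, d1, he1, hd1, h1⟩ := iha
    obtain ⟨e2, d2, he2, hd2, h2⟩ := ihb
    have he1' : FP A e1 := he1
    have he2' : FP A e2 := he2
    have hd1' : FP A d1 := hd1
    have hd2' : FP A d2 := hd2
    refine ⟨fun x => encL [e1 x.1, e2 x.2],
      fun w => (d1 ((decL w).headD []), d2 ((decL w).tail.headD [])), ?_, ?_, ?_⟩
    · exact FP.encL' (FP.cons' (FP.comp he1' (FP.fst (α := β) (β := γ)))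
        (FP.cons' (FP.comp he2' (FP.snd (α := β) (β := γ))) (FP.const [])))
    · exact FP.pair (FP.comp hd1' (FP.head' (FP.const []) (FP.decL' FP.id)))
        (FP.comp hd2' (FP.head' (FP.const []) (FP.tail' (FP.decL' FP.id))))
    · intro x
      simp only [decL_encL, List.headD_cons, List.tail_cons, h1, h2]
  | @list β a ih =>
    let _ : PTy β := a
    obtain ⟨e1, d1, he1, hd1, h1⟩ := ih
    have he1' : FP A e1 := he1
    have hd1' : FP A d1 := hd1
    refine ⟨fun l => encL (l.map e1), fun w => (decL w).map d1, ?_, ?_, ?_⟩
    · exact FP.encL' (FP.map' (f := fun _ y => e1 y) (FP.id (α := List β))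
        (FP.comp he1' FP.snd))
    · exact FP.map' (f := fun _ y => d1 y) (FP.decL' FP.id) (FP.comp hd1' FP.snd)
    · intro l
      simp only [decL_encL, List.map_map]
      conv_rhs => rw [← List.map_id l]
      refine List.map_congr_left fun x _ => ?_
      exact h1 x

/-! ### Machines -/

theorem strE_mono (m T : ℕ) (back : ℕ → List Bool → List Bool) (js : List ℕ)
    {f g : List (List Bool) → ℝ} (h : ∀ zs, f zs ≤ g zs) :
    qE m T back js f ≤ qE m T back js g := by
  induction js generalizing f g with
  | nil => exact h []
  | cons j js ih =>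
    rw [qE_cons, qE_cons]
    refine Finset.sum_le_sum fun z _ => mul_le_mul_of_nonneg_left ?_ (sq_nonneg _)
    exact ih fun zs => h (z :: zs)

theorem strE_zero (m T : ℕ) (back : ℕ → List Bool → List Bool) (js : List ℕ) :
    qE m T back js (fun _ => 0) = 0 := by
  induction js with
  | nil => rfl
  | cons j js ih => simp only [qE_cons, ih, mul_zero, Finset.sum_const_zero]

theorem strE_compl (m T : ℕ) (back : ℕ → List Bool → List Bool)
    (hn : ∀ j, ∑ z ∈ bits m, amp m (back j) T z ^ 2 = 1) (js : List ℕ)
    (f : List (List Bool) → ℝ) :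
    qE m T back js (fun zs => 1 - f zs) = 1 - qE m T back js f := by
  induction js generalizing f with
  | nil => rfl
  | cons j js ih =>
    simp only [qE_cons, ih, mul_sub, mul_one, Finset.sum_sub_distrib, hn]

private theorem str_sum_back {m : ℕ} {step back : List Bool → List Bool}
    (hs : ∀ c, c.length = m → (step c).length = m) (hb : ∀ c, c.length = m → (back c).length = m)
    (hsb : ∀ c, c.length = m → step (back c) = c) (hbs : ∀ c, c.length = m → back (step c) = c)
    (f : List Bool → ℝ) : ∑ c ∈ bits m, f (back c) = ∑ d ∈ bits m, f d := by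
  refine Finset.sum_nbij' (fun c => back c) (fun d => step d) ?_ ?_ ?_ ?_ ?_
  · intro c hc; exact mem_bits.2 (hb c (mem_bits.1 hc))
  · intro c hc; exact mem_bits.2 (hs c (mem_bits.1 hc))
  · intro c hc; exact hsb c (mem_bits.1 hc)
  · intro c hc; exact hbs c (mem_bits.1 hc)
  · intro c _; rfl

private theorem str_norm_amp {m : ℕ} {step back : List Bool → List Bool} (hm : 0 < m)
    (hs : ∀ c, c.length = m → (step c).length = m) (hb : ∀ c, c.length = m → (back c).length = m)
    (hsb : ∀ c, c.length = m → step (back c) = c) (hbs : ∀ c, c.length = m → back (step c) = c)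
    (t : ℕ) : ∑ c ∈ bits m, amp m back t c ^ 2 = 1 := by
  induction t with
  | zero =>
    have : ∀ c ∈ bits m, amp m back 0 c ^ 2 = if c = List.replicate m false then 1 else 0 := by
      intro c _
      rw [amp_zero]
      split <;> simp
    rw [Finset.sum_congr rfl this, Finset.sum_ite_eq']
    simp [mem_bits]
  | succ t ih =>
    obtain ⟨m', rfl⟩ : ∃ m', m = m' + 1 := ⟨m - 1, by omega⟩
    let F : List Bool → ℝ := fun d => ((amp (m' + 1) back t (false :: d.tail) +
        (if d.headD false = true then -1 else 1) * amp (m' + 1) back t (true :: d.tail))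
        / Real.sqrt 2) ^ 2
    have h1 : ∀ c ∈ bits (m' + 1), amp (m' + 1) back (t + 1) c ^ 2 = F (back c) :=
      fun c _ => rfl
    rw [Finset.sum_congr rfl h1, str_sum_back hs hb hsb hbs F, sum_bits_succ]
    rw [sum_bits_succ] at ih
    rw [← ih, ← Finset.sum_add_distrib, ← Finset.sum_add_distrib]
    refine Finset.sum_congr rfl (fun u _ => ?_)
    simp only [F, List.tail_cons, List.headD_cons, div_pow]
    rw [Real.sq_sqrt (by norm_num)]
    simp
    ring

theorem Machine.round_mono (M : Machine A α) (u : α × List Bool × Hist)
    {f g : List (List Bool) → ℝ} (h : ∀ zs, f zs ≤ g zs) : M.round u f ≤ M.round u g :=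
  strE_mono _ _ _ _ h

theorem Machine.round_zero (M : Machine A α) (u : α × List Bool × Hist) :
    M.round u (fun _ => 0) = 0 := strE_zero _ _ _ _

theorem Machine.round_compl (M : Machine A α) (u : α × List Bool × Hist)
    (f : List (List Bool) → ℝ) : M.round u (fun zs => 1 - f zs) = 1 - M.round u f :=
  strE_compl _ _ _ (fun j => str_norm_amp (step := fun c => M.step (u, j, c))
    (back := fun c => M.back (u, j, c)) (M.m_pos u.1) (M.step_len u j) (M.back_len u j)
    (M.step_back u j) (M.back_step u j) _) _ _

theorem Machine.round_one (M : Machine A α) (u : α × List Bool × Hist) :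
    M.round u (fun _ => 1) = 1 := by
  have h := M.round_compl u (fun _ => 0)
  rw [M.round_zero] at h
  simpa using h

theorem Machine.manyFrom_le_one (M : Machine A α) (K i : ℕ) (u : α × List Bool × Hist) :
    M.manyFrom K i u ≤ 1 := by
  classical
  induction i generalizing u with
  | zero => exact zero_le_one
  | succ i ih =>
    rw [Machine.manyFrom_succ]
    refine (M.round_mono u fun zs => ?_).trans (M.round_one u).le
    split_ifs
    · exact le_rfl
    · exact ih _

/-- the machine `M` on the input `f x` -/
def Machine.comap (M : Machine A β) {f : α → β} (hf : FP A f) : Machine A α where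
  rounds := M.rounds
  R x := M.R (f x)
  b x := M.b (f x)
  T x := M.T (f x)
  m x := M.m (f x)
  step p := M.step ((f p.1.1, p.1.2), p.2)
  back p := M.back ((f p.1.1, p.1.2), p.2)
  dec u := M.dec (f u.1, u.2)
  R_fp := FP.comp M.R_fp hf
  b_fp := FP.comp M.b_fp hf
  T_fp := FP.comp M.T_fp hf
  m_fp := FP.comp M.m_fp hf
  step_fp := FP.comp M.step_fp (FP.pair (FP.pair (FP.comp hf (FP.fst' FP.fst)) (FP.snd' FP.fst))
    FP.snd)
  back_fp := FP.comp M.back_fp (FP.pair (FP.pair (FP.comp hf (FP.fst' FP.fst)) (FP.snd' FP.fst))
    FP.snd)
  dec_fp := FP.comp M.dec_fp (FP.pair (FP.comp hf FP.fst) FP.snd)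
  m_pos x := M.m_pos (f x)
  step_len u j c h := M.step_len (f u.1, u.2) j c h
  back_len u j c h := M.back_len (f u.1, u.2) j c h
  step_back u j c h := M.step_back (f u.1, u.2) j c h
  back_step u j c h := M.back_step (f u.1, u.2) j c h

theorem Machine.comap_round (M : Machine A β) {f : α → β} (hf : FP A f)
    (u : α × List Bool × Hist) (g : List (List Bool) → ℝ) :
    (M.comap hf).round u g = M.round (f u.1, u.2) g := rfl

theorem Machine.comap_accFrom (M : Machine A β) {f : α → β} (hf : FP A f) (i : ℕ)
    (u : α × List Bool × Hist) : (M.comap hf).accFrom i u = M.accFrom i (f u.1, u.2) := by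
  induction i generalizing u with
  | zero => rfl
  | succ i ih =>
    simp only [Machine.accFrom_succ, Machine.comap_round]
    congr 1
    funext zs
    exact ih _

theorem Machine.comap_manyFrom (M : Machine A β) {f : α → β} (hf : FP A f) {K K' : ℕ}
    (hK : K ≤ K') (i : ℕ) (u : α × List Bool × Hist) :
    (M.comap hf).manyFrom K' i u ≤ M.manyFrom K i (f u.1, u.2) := by
  classical
  induction i generalizing u with
  | zero => exact le_rfl
  | succ i ih =>
    simp only [Machine.manyFrom_succ, Machine.comap_round]
    refine M.round_mono _ fun zs => ?_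
    by_cases h1 : (M.comap hf).Heavy K' u zs
    · have h2 : M.Heavy K (f u.1, u.2) zs := by
        obtain ⟨p, hp, hlt⟩ := h1
        exact ⟨p, hp, hK.trans_lt hlt⟩
      rw [if_pos h1, if_pos h2]
    · rw [if_neg h1]
      split_ifs
      · exact Machine.manyFrom_le_one _ _ _ _
      · exact ih _

theorem Few.comap {L : β → Prop} (h : Few A L) {f : α → β} (hf : FP A f) :
    Few A (fun x => L (f x)) := by
  obtain ⟨M, ⟨k, hk⟩, hd⟩ := h
  obtain ⟨k', hk'⟩ := (FP.sizePow hf k).bddNat
  refine ⟨M.comap hf, ⟨k', fun x => le_trans ?_ (hk (f x))⟩, fun x => ?_⟩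
  · unfold Machine.many
    refine div_le_div_of_nonneg_right ?_ (by positivity)
    exact Finset.sum_le_sum fun r _ => M.comap_manyFrom hf (hk' x) _ _
  · have h1 : (M.comap hf).acc x = M.acc (f x) := by
      unfold Machine.acc
      congr 1
      exact Finset.sum_congr rfl fun r _ => M.comap_accFrom hf _ _
    rw [h1]
    exact hd (f x)

/-- the machine `M` with another decision -/
def Machine.withDec (M : Machine A α) {d : α × List Bool × Hist → Bool} (hd : FP A d) :
    Machine A α where
  rounds := M.rounds
  R := M.R
  b := M.b
  T := M.T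
  m := M.m
  step := M.step
  back := M.back
  dec := d
  R_fp := M.R_fp
  b_fp := M.b_fp
  T_fp := M.T_fp
  m_fp := M.m_fp
  step_fp := M.step_fp
  back_fp := M.back_fp
  dec_fp := hd
  m_pos := M.m_pos
  step_len := M.step_len
  back_len := M.back_len
  step_back := M.step_back
  back_step := M.back_step

theorem Machine.withDec_round (M : Machine A α) {d : α × List Bool × Hist → Bool} (hd : FP A d)
    (u : α × List Bool × Hist) (g : List (List Bool) → ℝ) :
    (M.withDec hd).round u g = M.round u g := rfl

theorem Machine.withDec_manyFrom (M : Machine A α) {d : α × List Bool × Hist → Bool}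
    (hd : FP A d) (K i : ℕ) (u : α × List Bool × Hist) :
    (M.withDec hd).manyFrom K i u = M.manyFrom K i u := by
  classical
  induction i generalizing u with
  | zero => rfl
  | succ i ih =>
    simp only [Machine.manyFrom_succ, Machine.withDec_round]
    congr 1

theorem Machine.withDec_many (M : Machine A α) {d : α × List Bool × Hist → Bool}
    (hd : FP A d) (k : ℕ) (x : α) : (M.withDec hd).many k x = M.many k x := by
  unfold Machine.many
  congr 1

theorem Machine.and_accFrom (M : Machine A α) {c : α → Bool} (hc : FP A c) (i : ℕ)
    (u : α × List Bool × Hist) :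
    (M.withDec (FP.and' (FP.comp hc FP.fst) M.dec_fp)).accFrom i u =
      if c u.1 = true then M.accFrom i u else 0 := by
  induction i generalizing u with
  | zero =>
    simp only [Machine.accFrom_zero, Machine.withDec]
    by_cases h : c u.1 = true
    · simp only [h, Bool.true_and, if_true]
    · simp only [Bool.not_eq_true] at h
      simp only [h, Bool.false_and, Bool.false_eq_true, if_false]
  | succ i ih =>
    simp only [Machine.accFrom_succ, Machine.withDec_round]
    by_cases h : c u.1 = true
    · rw [if_pos h]
      congr 1
      funext zs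
      rw [ih, if_pos h]
    · rw [if_neg h]
      have h1 : (fun zs => (M.withDec (FP.and' (FP.comp hc FP.fst) M.dec_fp)).accFrom i
          (u.1, u.2.1, zs :: u.2.2)) = fun _ => 0 := by
        funext zs
        rw [ih, if_neg h]
      rw [h1, M.round_zero]

theorem Few.and_fp {L : α → Prop} (h : Few A L) {c : α → Bool} (hc : FP A c) :
    Few A (fun x => c x = true ∧ L x) := by
  obtain ⟨M, ⟨k, hk⟩, hd⟩ := h
  refine ⟨M.withDec (FP.and' (FP.comp hc FP.fst) M.dec_fp), ⟨k, fun x => ?_⟩, fun x => ?_⟩
  · rw [M.withDec_many]
    exact hk x
  · have h1 : (M.withDec (FP.and' (FP.comp hc FP.fst) M.dec_fp)).acc x =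
        if c x = true then M.acc x else 0 := by
      unfold Machine.acc
      have h2 : ∀ r ∈ bits (M.R x), (M.withDec (FP.and' (FP.comp hc FP.fst) M.dec_fp)).accFrom
          M.rounds (x, r, []) = if c x = true then M.accFrom M.rounds (x, r, []) else 0 :=
        fun r _ => M.and_accFrom hc _ _
      have h3 := Finset.sum_congr rfl h2
      by_cases h : c x = true
      · simp only [h, if_true] at h3 ⊢
        exact congrArg (fun s => s / 2 ^ M.R x) h3
      · rw [if_neg h]
        have h4 : (∑ r ∈ bits (M.R x), (M.withDec (FP.and' (FP.comp hc FP.fst) M.dec_fp)).accFrom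
            M.rounds (x, r, [])) = 0 := by
          rw [h3]
          exact Finset.sum_eq_zero fun r _ => if_neg h
        have h6 := congrArg (fun s => s / 2 ^ M.R x) h4
        rw [zero_div] at h6
        exact h6
    rw [h1]
    by_cases h : c x = true
    · simp only [h, if_true, true_and]
      exact hd x
    · refine ⟨fun h1 => absurd h1.1 h, fun _ => ?_⟩
      rw [if_neg h]
      norm_num

theorem Machine.compl_accFrom (M : Machine A α) (i : ℕ) (u : α × List Bool × Hist) :
    (M.withDec (FP.not' M.dec_fp)).accFrom i u = 1 - M.accFrom i u := by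
  induction i generalizing u with
  | zero =>
    by_cases h : M.dec u = true
    · simp [Machine.accFrom_zero, Machine.withDec, h]
    · simp only [Bool.not_eq_true] at h
      simp [Machine.accFrom_zero, Machine.withDec, h]
  | succ i ih =>
    simp only [Machine.accFrom_succ, Machine.withDec_round, ih]
    exact M.round_compl u _

/-- The class is closed under complement. -/
theorem Few.compl {L : α → Prop} (h : Few A L) : Few A (fun x => ¬ L x) := by
  obtain ⟨M, ⟨k, hk⟩, hd⟩ := h
  refine ⟨M.withDec (FP.not' M.dec_fp), ⟨k, fun x => ?_⟩, fun x => ?_⟩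
  · rw [M.withDec_many]
    exact hk x
  · have h1 : (M.withDec (FP.not' M.dec_fp)).acc x = 1 - M.acc x := by
      unfold Machine.acc
      have h2 : ∀ r ∈ bits (M.R x), (M.withDec (FP.not' M.dec_fp)).accFrom
          M.rounds (x, r, []) = 1 - M.accFrom M.rounds (x, r, []) :=
        fun r _ => M.compl_accFrom _ _
      have h3 := Finset.sum_congr rfl h2
      rw [Finset.sum_sub_distrib, Finset.sum_const, card_bits, nsmul_eq_mul, mul_one] at h3
      have h5 : ((2 ^ M.R x : ℕ) : ℝ) = 2 ^ M.R x := by push_cast; rfl
      rw [h5] at h3
      have h6 : (2 : ℝ) ^ M.R x ≠ 0 := by positivity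
      have h4 := congrArg (fun s => s / 2 ^ M.R x) h3
      simp only [sub_div, div_self h6] at h4
      exact h4
    rw [h1]
    obtain ⟨ha, hb⟩ := hd x
    constructor
    · intro hx
      have := hb hx
      linarith
    · intro hx
      have := ha (not_not.1 hx)
      linarith

theorem ExFew.comap {L : β → Prop} (h : ExFew A L) {f : α → β} (hf : FP A f) :
    ExFew A (fun x => L (f x)) := by
  obtain ⟨δ, _, N, k, hN, h⟩ := h
  obtain ⟨k', hk'⟩ := (FP.sizePow hf k).bddNat
  refine ⟨δ, inferInstance, fun p => decide (size p.2 ≤ (size (f p.1) + 1) ^ k) = true ∧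
    N (f p.1, p.2), k', ?_, fun x => ?_⟩
  · exact Few.and_fp (Few.comap hN (f := fun p : α × δ => (f p.1, p.2))
      (FP.pair (FP.comp hf FP.fst) FP.snd))
      (FP.le' (FP.size' FP.snd) (FP.sizePow (FP.comp hf FP.fst) k))
  · refine (h (f x)).trans ?_
    constructor
    · rintro ⟨y, hy, hm⟩
      exact ⟨y, hy.trans (hk' x), decide_eq_true hy, hm⟩
    · rintro ⟨y, _, hy, hm⟩
      exact ⟨y, of_decide_eq_true hy, hm⟩

theorem few_of_strings (h : ∀ L : List Bool → Prop, Sig A 1 L → Few A L)
    {α : Type} [PTy α] {L : α → Prop} (hL : Sig A 1 L) : Few A L := by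
  obtain ⟨e, d, he, hd, hde⟩ := exists_code A (inferInstance : PTy α)
  have h1 : Few A (fun w : List Bool => L (d w)) := h _ (Sig.comp hL hd)
  have h2 := Few.comap h1 (f := e) he
  have h3 : (fun x => L (d (e x))) = L := funext fun x => by rw [hde]
  exact h3 ▸ h2

theorem exfew_of_strings (h : ∀ L : List Bool → Prop, Sig A 1 (fun x => ¬ L x) → ExFew A L)
    {α : Type} [PTy α] {L : α → Prop} (hL : Sig A 1 (fun x => ¬ L x)) : ExFew A L := by
  obtain ⟨e, d, he, hd, hde⟩ := exists_code A (inferInstance : PTy α)
  have h1 : ExFew A (fun w : List Bool => L (d w)) :=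
    h _ (Sig.comp (L := fun x => ¬ L x) (f := d) hL hd)
  have h2 := ExFew.comap h1 (f := e) he
  have h3 : (fun x => L (d (e x))) = L := funext fun x => by rw [hde]
  exact h3 ▸ h2

end Pool.Agent.FewPath
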