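import Pool.Agent.FewPath.Final
import Pool.Agent.FewPath.Str

namespace Pool.Agent.FewPath

open Classical

variable {A : List Bool → Bool} {α : Type} [PTy α]

theorem AMs.toAM {L : α → Prop} (h : AMs A L) : AM A L := by
  obtain ⟨β, _, ell, V, k, hell, hV, hyes, hno⟩ := h
  have hpair : FP A (fun x : α => (x, 2)) := FP.pair FP.id (FP.const 2)
  obtain ⟨k', hk'⟩ := FP.bddNat (f := fun x : α => (size (x, 2) + 1) ^ k)
    (FP.sizePow hpair k)
  set V' : α × List Bool × β → Bool := fun q =>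
    V ((q.1, 2), q.2.1, q.2.2) && decide (size q.2.2 ≤ (size (q.1, 2) + 1) ^ k) with hV'
  refine ⟨β, inferInstance, fun x => ell (x, 2), V', k', FP.comp hell hpair, ?_, ?_, ?_⟩
  · refine FP.and' (FP.comp hV (FP.pair (FP.pair FP.fst (FP.const 2)) (FP.pair
      (FP.fst' FP.snd) (FP.snd' FP.snd)))) (FP.le' (FP.size' (FP.snd' FP.snd)) ?_)
    exact FP.sizePow (FP.pair FP.fst (FP.const 2)) k
  · intro x hx
    have h1 := hyes x 2 hx
    have h2 : ((bits (ell (x, 2))).filter (fun ρ =>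
        ¬ ∃ w, size w ≤ (size (x, 2) + 1) ^ k ∧ V ((x, 2), ρ, w) = true)).card +
        ((bits (ell (x, 2))).filter (fun ρ =>
        ∃ w, size w ≤ (size x + 1) ^ k' ∧ V' (x, ρ, w) = true)).card ≥ 2 ^ ell (x, 2) := by
      rw [← card_bits (ell (x, 2))]
      rw [← Finset.card_filter_add_card_filter_not (s := bits (ell (x, 2))) (fun ρ =>
        ∃ w, size w ≤ (size (x, 2) + 1) ^ k ∧ V ((x, 2), ρ, w) = true), add_comm]
      refine Nat.add_le_add (Finset.card_le_card (fun ρ hρ => ?_)) le_rfl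
      rw [Finset.mem_filter] at hρ ⊢
      obtain ⟨hρ1, w, hw1, hw2⟩ := hρ
      refine ⟨hρ1, w, hw1.trans (hk' x), ?_⟩
      simp only [hV', Bool.and_eq_true, decide_eq_true_eq]
      exact ⟨hw2, hw1⟩
    generalize ((bits (ell (x, 2))).filter (fun ρ =>
        ¬ ∃ w, size w ≤ (size (x, 2) + 1) ^ k ∧ V ((x, 2), ρ, w) = true)).card = a at h1 h2
    generalize ((bits (ell (x, 2))).filter (fun ρ =>
        ∃ w, size w ≤ (size x + 1) ^ k' ∧ V' (x, ρ, w) = true)).card = b at h2 ⊢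
    have h3 : (0 : ℝ) < 2 ^ ell (x, 2) := by positivity
    rw [le_div_iff₀ h3]
    have h4 : (a : ℝ) * 2 ^ 2 ≤ 2 ^ ell (x, 2) := by exact_mod_cast h1
    have h5 : (2 : ℝ) ^ ell (x, 2) ≤ a + b := by exact_mod_cast h2
    linarith
  · intro x hx
    have h1 := hno x 2 hx
    have h2 : ((bits (ell (x, 2))).filter (fun ρ =>
        ∃ w, size w ≤ (size x + 1) ^ k' ∧ V' (x, ρ, w) = true)).card ≤
        ((bits (ell (x, 2))).filter (fun ρ => ∃ w, V ((x, 2), ρ, w) = true)).card := by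
      refine Finset.card_le_card (fun ρ hρ => ?_)
      rw [Finset.mem_filter] at hρ ⊢
      obtain ⟨hρ1, w, _, hw2⟩ := hρ
      refine ⟨hρ1, w, ?_⟩
      simp only [hV', Bool.and_eq_true] at hw2
      exact hw2.1
    have h3 : (0 : ℝ) < 2 ^ ell (x, 2) := by positivity
    rw [div_le_iff₀ h3]
    have h4 := (Nat.mul_le_mul_right (2 ^ 2) h2).trans h1
    have h5 : (((bits (ell (x, 2))).filter (fun ρ =>
        ∃ w, size w ≤ (size x + 1) ^ k' ∧ V' (x, ρ, w) = true)).card : ℝ) * 2 ^ 2 ≤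
        2 ^ ell (x, 2) := by exact_mod_cast h4
    linarith

theorem AMavg.congr {L L' : α → Prop} (h : AMavg A L) (hL : ∀ x, L x ↔ L' x) : AMavg A L' := by
  have : L = L' := funext (fun x => propext (hL x))
  rwa [← this]

theorem Few.avg' {L : α → Prop} (h : Few A L) : AMavg A L :=
  h.compl.avg.congr (fun _ => not_not)

theorem Few.am {L : α → Prop} (h : Few A L) : AM A L ∧ AM A (fun x => ¬ L x) :=
  ⟨h.avg'.toAMs.toAM, h.avg.toAMs.toAM⟩

theorem collapse_exfew
    (h : ∀ L : List Bool → Prop, Sig A 1 (fun x => ¬ L x) → ExFew A L) :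
    ∀ (n : ℕ) {α : Type} [PTy α] (L : α → Prop), Sig A n L → Sig A 2 L := by
  refine collapse_of_avg (fun {α} _ L hL => ?_)
  have h1 : Sig A 1 (fun x : α => ¬ ¬ L x) := hL.congr (fun x => not_not.symm)
  obtain ⟨β, _, N, k, hN, hNL⟩ := exfew_of_strings h (L := fun x => ¬ L x) h1
  exact ⟨β, inferInstance, N, k, hN.avg', hNL⟩

theorem few_exfew {L : α → Prop} (h : Few A L) : ExFew A L := by
  refine ⟨Bool, inferInstance, fun p => L p.1, 0, h.comap FP.fst, fun x => ?_⟩
  constructor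
  · intro hx
    exact ⟨true, by simp, hx⟩
  · rintro ⟨_, _, hx⟩
    exact hx

theorem collapse_few (h : ∀ L : List Bool → Prop, Sig A 1 L → Few A L) :
    ∀ (n : ℕ) {α : Type} [PTy α] (L : α → Prop), Sig A n L → Sig A 2 L := by
  refine collapse_exfew (fun L hL => few_exfew ?_)
  have h1 := (h _ hL).compl
  simpa only [not_not] using h1

end Pool.Agent.FewPath
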