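import Pool.Agent.FewPath.FPver

namespace Pool.Agent.FewPath

open Classical

variable {A : List Bool → Bool} {α : Type} [PTy α]

section

variable {m T : ℕ} {backf : ℕ → List Bool → List Bool}

theorem qE_congr (js : List ℕ) : ∀ {f g : List (List Bool) → ℝ},
    (∀ zs, (∀ z ∈ zs, z.length = m) → f zs = g zs) →
    qE m T backf js f = qE m T backf js g := by
  induction js with
  | nil => intro f g h; exact h [] (by simp)
  | cons j js ih =>
    intro f g h
    rw [qE_cons, qE_cons]
    refine Finset.sum_congr rfl (fun z hz => ?_)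
    rw [ih (fun zs hzs => h (z :: zs) (fun y hy => ?_))]
    rcases List.mem_cons.1 hy with rfl | hy
    · exact mem_bits.1 hz
    · exact hzs y hy

theorem qE_abs_le (js : List ℕ) {f g : List (List Bool) → ℝ} (h : ∀ z, |f z| ≤ g z) :
    |qE m T backf js f| ≤ qE m T backf js g := by
  rw [abs_le]
  constructor
  · have h1 := qE_mono (m := m) (T := T) (backf := backf) js (f := fun z => (-1) * g z) (g := f)
      (fun z => by have := (abs_le.1 (h z)).1; linarith)
    rw [qE_mul] at h1
    linarith
  · exact qE_mono js (fun z => (abs_le.1 (h z)).2)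

theorem qE_sub (js : List ℕ) (f g : List (List Bool) → ℝ) :
    qE m T backf js (fun z => f z - g z) = qE m T backf js f - qE m T backf js g := by
  have h1 := qE_add (m := m) (T := T) (backf := backf) js (fun z => f z - g z) g
  simp only [sub_add_cancel] at h1
  linarith

end

section

variable (M : Machine A α) (k0 : ℕ)

/-- The number of bits of one block. -/
noncomputable def blen (i : ℕ) (x : α) : ℕ := pL M k0 x * ell2 (par M k0 i x)

/-- The number of bits of one round. -/
noncomputable def rlen (i : ℕ) (x : α) : ℕ := M.b x * blen M k0 i x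

/-- The blocks of one round. -/
noncomputable def blks (i : ℕ) (x : α) (ρ : List Bool) : List (List Bool) :=
  chunks (blen M k0 i x) (M.b x) (ρ.take (rlen M k0 i x))

/-- The number of bits of the last `i` rounds. -/
noncomputable def ellR : ℕ → α → ℕ
  | 0, _ => 0
  | i + 1, x => rlen M k0 i x + ellR i x

/-- The outcomes of one round. -/
noncomputable def outR (i : ℕ) (u : α × List Bool × Hist) (ρ : List Bool) : List (List Bool) :=
  outsJ (par M k0 i u.1) (stp M u) (List.range (M.b u.1)) (blks M k0 i u.1 ρ)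

/-- The statistic of the last `i` rounds. -/
noncomputable def Sst : ℕ → (α × List Bool × Hist) → List Bool → ℝ
  | 0, u, _ => if M.dec u = true then (pSc M k0 u.1 : ℝ) else 0
  | i + 1, u, ρ => zsum (par M k0 i u.1) (stp M u) (List.range (M.b u.1)) (blks M k0 i u.1 ρ) +
      Sst i (u.1, u.2.1, outR M k0 i u ρ :: u.2.2) (ρ.drop (rlen M k0 i u.1))

/-- The probability of acceptance with rejection sampling. -/
noncomputable def Pr : ℕ → (α × List Bool × Hist) → ℝ
  | 0, u => if M.dec u = true then 1 else 0
  | i + 1, u => ev (rlen M k0 i u.1) (fun l => Pr i (u.1, u.2.1, outR M k0 i u l :: u.2.2))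

theorem Pr_bounds (i : ℕ) : ∀ u, 0 ≤ Pr M k0 i u ∧ Pr M k0 i u ≤ 1 := by
  induction i with
  | zero => intro u; rw [Pr]; split <;> norm_num
  | succ i ih => intro u; exact ⟨ev_nonneg (fun _ _ => (ih _).1), ev_le (fun _ _ => (ih _).2)⟩

theorem blks_append (i : ℕ) (x : α) {l : List Bool} (l' : List Bool)
    (hl : l.length = rlen M k0 i x) : blks M k0 i x (l ++ l') = blks M k0 i x l := by
  rw [blks, blks, ← hl, List.take_left, List.take_length]

theorem sst_mean (i : ℕ) : ∀ u : α × List Bool × Hist,
    pSc M k0 u.1 * Pr M k0 i u ≤ ev (ellR M k0 i u.1) (Sst M k0 i u) ∧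
    ev (ellR M k0 i u.1) (Sst M k0 i u) ≤
      pSc M k0 u.1 * Pr M k0 i u + i * (M.b u.1 * (pL M k0 u.1 * 2)) := by
  induction i with
  | zero =>
    intro u
    have h1 : ev (ellR M k0 0 u.1) (Sst M k0 0 u) = pSc M k0 u.1 * Pr M k0 0 u := by
      have : Sst M k0 0 u = fun _ => if M.dec u = true then (pSc M k0 u.1 : ℝ) else 0 := by
        funext l; rfl
      rw [this, ev_const, Pr]
      split <;> simp
    rw [h1]
    simp
  | succ i ih =>
    intro u
    have h1 : ev (ellR M k0 (i + 1) u.1) (Sst M k0 (i + 1) u) =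
        ev (rlen M k0 i u.1) (fun l =>
          zsum (par M k0 i u.1) (stp M u) (List.range (M.b u.1)) (blks M k0 i u.1 l)) +
        ev (rlen M k0 i u.1) (fun l => ev (ellR M k0 i u.1)
          (Sst M k0 i (u.1, u.2.1, outR M k0 i u l :: u.2.2))) := by
      rw [ellR, ev_split, ← ev_add]
      refine ev_congr (fun l hl => ?_)
      rw [← ev_const (ellR M k0 i u.1) (zsum (par M k0 i u.1) (stp M u)
        (List.range (M.b u.1)) (blks M k0 i u.1 l)), ← ev_add]
      refine ev_congr (fun l' _ => ?_)
      rw [Sst, outR, blks_append M k0 i u.1 l' hl, ← hl, List.drop_left]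
      rfl
    have h2 := ev_zsum (stepf := stp M u) (backf := bck M u) (par_ok M k0 i u.1)
      (js := List.range (M.b u.1)) (fun j _ => isPerm M u j)
    rw [List.length_range] at h2
    have h3 : ev (rlen M k0 i u.1) (fun l =>
          zsum (par M k0 i u.1) (stp M u) (List.range (M.b u.1)) (blks M k0 i u.1 l)) =
        ev (M.b u.1 * ((par M k0 i u.1).L * ell2 (par M k0 i u.1))) (fun l =>
          zsum (par M k0 i u.1) (stp M u) (List.range (M.b u.1))
            (chunks ((par M k0 i u.1).L * ell2 (par M k0 i u.1)) (M.b u.1) l)) := by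
      refine ev_congr (fun l hl => ?_)
      rw [blks, ← hl, List.take_length]
      rfl
    rw [← h3] at h2
    have h4 : (pSc M k0 u.1 : ℝ) * Pr M k0 (i + 1) u = ev (rlen M k0 i u.1) (fun l =>
        pSc M k0 u.1 * Pr M k0 i (u.1, u.2.1, outR M k0 i u l :: u.2.2)) := by
      rw [Pr, ev_mul]
    have h5 := ev_mono (n := rlen M k0 i u.1)
      (fun l _ => (ih (u.1, u.2.1, outR M k0 i u l :: u.2.2)).1)
    have h6 := ev_mono (n := rlen M k0 i u.1)
      (fun l _ => (ih (u.1, u.2.1, outR M k0 i u l :: u.2.2)).2)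
    dsimp only at h5 h6
    rw [ev_add, ev_const, ← h4] at h6
    rw [← h4] at h5
    rw [h1]
    have h7 : (par M k0 i u.1).L = pL M k0 u.1 := rfl
    rw [h7] at h2
    constructor
    · linarith [h2.1]
    · push_cast
      linarith [h2.2]

theorem hvy_iff (i : ℕ) (u : α × List Bool × Hist) {zs : List (List Bool)}
    (hzs : ∀ z ∈ zs, z.length = M.m u.1) :
    hvy (par M k0 i u.1) (stp M u) (List.range (M.b u.1)) zs ↔
      M.Heavy (pK k0 u.1) u zs := by
  rw [hvy, Machine.Heavy]
  refine exists_congr (fun p => and_congr_right (fun hp => ?_))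
  have h1 : p.2.length = M.m u.1 := hzs _ (List.of_mem_zip (a := p.1) (b := p.2) hp).2
  have h2 := paths_eq (isPerm M u p.1) (M.T u.1) h1
  have h3 : paths (M.m u.1) (fun c => M.back (u, p.1, c)) (M.T u.1) p.2 =
      paths (M.m u.1) (bck M u p.1) (M.T u.1) p.2 := rfl
  rw [h3, h2]
  change ¬ (_ ≤ pK k0 u.1) ↔ _
  rw [not_le]
  rfl

omit k0 in
theorem accFrom_bounds (i : ℕ) : ∀ u, 0 ≤ M.accFrom i u ∧ M.accFrom i u ≤ 1 := by
  induction i with
  | zero => intro u; rw [Machine.accFrom_zero]; split <;> norm_num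
  | succ i ih =>
    intro u
    refine ⟨qE_nonneg _ (fun _ => (ih _).1), ?_⟩
    rw [← qE_const (T := M.T u.1) (stepf := stp M u) (backf := bck M u)
      (js := List.range (M.b u.1)) (fun j _ => isPerm M u j) 1]
    exact qE_mono _ (fun _ => (ih _).2)

theorem pr_err (i : ℕ) : ∀ u : α × List Bool × Hist,
    |Pr M k0 i u - M.accFrom i u| ≤ 4 * M.manyFrom (pK k0 u.1) i u +
      i * (M.b u.1 / (80 * pN M u.1)) := by
  induction i with
  | zero => intro u; simp [Pr, Machine.accFrom_zero, Machine.manyFrom_zero]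
  | succ i ih =>
    intro u
    have hN : 0 < 80 * pN M u.1 := by
      rw [pN]; positivity
    set F : List (List Bool) → ℝ := fun zs => Pr M k0 i (u.1, u.2.1, zs :: u.2.2) with hF
    have h1 := run_err (stepf := stp M u) (backf := bck M u) (par_ok M k0 i u.1)
      (js := List.range (M.b u.1)) (fun j _ => isPerm M u j) hN (le_of_eq rfl)
      (g := F) (fun z => (Pr_bounds M k0 i _).1) (fun z => (Pr_bounds M k0 i _).2)
    rw [List.length_range] at h1
    have h2 : Pr M k0 (i + 1) u =
        ev (M.b u.1 * ((par M k0 i u.1).L * ell2 (par M k0 i u.1))) (fun l =>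
          F (outsJ (par M k0 i u.1) (stp M u) (List.range (M.b u.1))
            (chunks ((par M k0 i u.1).L * ell2 (par M k0 i u.1)) (M.b u.1) l))) := by
      rw [Pr]
      refine ev_congr (fun l hl => ?_)
      rw [outR, blks, ← hl, List.take_length]
      rfl
    rw [← h2] at h1
    set Q := fun f => qE (M.m u.1) (M.T u.1) (bck M u) (List.range (M.b u.1)) f with hQ
    set hv : List (List Bool) → ℝ := fun zs =>
      if hvy (par M k0 i u.1) (stp M u) (List.range (M.b u.1)) zs then 1 else 0 with hhv
    have h1 : |Pr M k0 (i + 1) u - Q F| ≤ 3 * Q hv + M.b u.1 / ((80 * pN M u.1 : ℕ) : ℝ) := h1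
    push_cast at h1
    set G : List (List Bool) → ℝ := fun zs => M.accFrom i (u.1, u.2.1, zs :: u.2.2) with hG
    have h3 : M.accFrom (i + 1) u = Q G := rfl
    set W : List (List Bool) → ℝ := fun zs =>
      if hvy (par M k0 i u.1) (stp M u) (List.range (M.b u.1)) zs then 1
        else M.manyFrom (pK k0 u.1) i (u.1, u.2.1, zs :: u.2.2) with hW
    have h4 : M.manyFrom (pK k0 u.1) (i + 1) u = Q W := by
      refine qE_congr _ (fun zs hzs => ?_)
      rw [hW]
      dsimp only
      simp only [hvy_iff M k0 i u hzs]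
      rfl
    have hG0 : ∀ zs, 0 ≤ G zs ∧ G zs ≤ 1 := fun zs => accFrom_bounds M i _
    set δ : ℝ := i * (M.b u.1 / (80 * pN M u.1)) with hδ
    have hδ0 : 0 ≤ δ := by positivity
    have h5 : |Q F - Q G| ≤ Q (fun zs => (if hvy (par M k0 i u.1) (stp M u)
        (List.range (M.b u.1)) zs then 1 else 4 * M.manyFrom (pK k0 u.1) i
          (u.1, u.2.1, zs :: u.2.2)) + δ) := by
      have := qE_abs_le (m := M.m u.1) (T := M.T u.1) (backf := bck M u)
        (List.range (M.b u.1)) (f := fun zs => F zs - G zs) (g := fun zs =>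
          (if hvy (par M k0 i u.1) (stp M u) (List.range (M.b u.1)) zs then 1
          else 4 * M.manyFrom (pK k0 u.1) i (u.1, u.2.1, zs :: u.2.2)) + δ) (fun zs => ?_)
      · rwa [qE_sub] at this
      · split
        · have a1 := Pr_bounds M k0 i (u.1, u.2.1, zs :: u.2.2)
          have a2 := hG0 zs
          rw [abs_le]
          constructor <;> linarith [a1.1, a1.2, a2.1, a2.2]
        · exact ih (u.1, u.2.1, zs :: u.2.2)
    have h6 : 3 * Q hv + Q (fun zs => (if hvy (par M k0 i u.1) (stp M u)
        (List.range (M.b u.1)) zs then 1 else 4 * M.manyFrom (pK k0 u.1) i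
          (u.1, u.2.1, zs :: u.2.2)) + δ) = 4 * Q W + δ := by
      have e1 : Q (fun _ => δ) = δ := qE_const (stepf := stp M u)
        (fun j _ => isPerm M u j) δ
      have e2 : 4 * Q W + δ = Q (fun zs => 4 * W zs + δ) := by
        have := qE_add (m := M.m u.1) (T := M.T u.1) (backf := bck M u)
          (List.range (M.b u.1)) (fun zs => 4 * W zs) (fun _ => δ)
        rw [qE_mul] at this
        rw [hQ]
        dsimp only
        rw [this]
        rw [hQ] at e1
        dsimp only at e1
        rw [e1]
      rw [e2]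
      have := qE_add (m := M.m u.1) (T := M.T u.1) (backf := bck M u)
          (List.range (M.b u.1)) (fun zs => 3 * hv zs) (fun zs => (if hvy (par M k0 i u.1)
            (stp M u) (List.range (M.b u.1)) zs then 1 else 4 * M.manyFrom (pK k0 u.1) i
          (u.1, u.2.1, zs :: u.2.2)) + δ)
      rw [qE_mul] at this
      rw [hQ]
      dsimp only
      rw [← this]
      congr 1
      funext zs
      rw [hhv, hW]
      dsimp only
      split <;> ring
    rw [h3, h4]
    have h7 := abs_sub_le (Pr M k0 (i + 1) u) (Q F) (Q G)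
    push_cast
    have h8 : ((i : ℝ) + 1) * (M.b u.1 / (80 * pN M u.1)) =
        δ + M.b u.1 / (80 * pN M u.1) := by rw [hδ]; ring
    rw [h8]
    linarith

end

end Pool.Agent.FewPath
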