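import Pool.Agent.FewPath.Basic

namespace Pool.Agent.FewPath

variable {A : List Bool → Bool}

/-- Some element of a data type. -/
def PTy.dflt : {α : Type} → PTy α → α
  | _, PTy.bool => false
  | _, PTy.nat => 0
  | _, PTy.prod a b => (a.dflt, b.dflt)
  | _, PTy.list _ => []

theorem FP.bddNat {α : Type} [PTy α] {f : α → ℕ} (hf : FP A f) :
    ∃ k, ∀ x, f x ≤ (size x + 1) ^ k := by
  obtain ⟨k, hk⟩ := hf.bdd
  exact ⟨k, fun x => by have := hk x; rw [size_nat] at this; omega⟩

theorem Sig.congr {n : ℕ} {α : Type} [PTy α] {L L' : α → Prop} (h : Sig A n L)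
    (h' : ∀ x, L x ↔ L' x) : Sig A n L' := by
  have : L = L' := funext fun x => propext (h' x)
  exact this ▸ h

theorem FP.sizePow {α β : Type} [PTy α] [PTy β] {f : α → β} (hf : FP A f) (k : ℕ) :
    FP A (fun x => (size (f x) + 1) ^ k) :=
  FP.pow' (FP.add' (FP.size' hf) (FP.const 1)) k

theorem Sig.ite {n : ℕ} : ∀ {α : Type} [PTy α] {L : α → Prop} {c d : α → Bool},
    Sig A n L → FP A c → FP A d →
      Sig A n (fun x => if c x = true then d x = true else L x) := by
  induction n with
  | zero =>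
    intro α _ L c d h hc hd
    obtain ⟨f, hf, h⟩ := h
    refine ⟨_, FP.ite hc hd hf, fun x => ?_⟩
    by_cases hcx : c x = true
    · simp [hcx]
    · simp [hcx, h]
  | succ n ih =>
    intro α _ L c d h hc hd
    obtain ⟨β, _, M, k, hM, h⟩ := h
    have hsz : FP A (fun p : α × β => decide ((size p.1 + 1) ^ k < size p.2)) :=
      FP.lt' (FP.sizePow FP.fst k) (FP.size' FP.snd)
    refine ⟨β, inferInstance, fun p => if c p.1 = true then d p.1 = true else
      (size p.2 ≤ (size p.1 + 1) ^ k ∧ M p), k + size (PTy.dflt (inferInstance : PTy β)),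
      ?_, fun x => ?_⟩
    · refine Sig.congr (ih (ih hM hsz (FP.const true)) (FP.comp hc FP.fst)
        (FP.comp (FP.not' hd) FP.fst)) (fun p => ?_)
      by_cases h1 : c p.1 = true
      · simp [h1]
      · by_cases h2 : (size p.1 + 1) ^ k < size p.2
        · simp [h1, h2]
        · simp [h1, h2, not_lt.1 h2]
    · have h2 := one_lt_base x
      by_cases h1 : c x = true
      · simp only [h1, if_true]
        constructor
        · intro hdx
          refine ⟨PTy.dflt (inferInstance : PTy β), ?_, hdx⟩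
          calc size (PTy.dflt (inferInstance : PTy β))
              ≤ 2 ^ size (PTy.dflt (inferInstance : PTy β)) := Nat.lt_two_pow_self.le
            _ ≤ 2 ^ (k + size (PTy.dflt (inferInstance : PTy β))) :=
                Nat.pow_le_pow_right (by norm_num) (by omega)
            _ ≤ _ := Nat.pow_le_pow_left h2 _
        · rintro ⟨_, _, h⟩; exact h
      · simp only [h1]
        rw [h]
        constructor
        · rintro ⟨y, hy, hm⟩
          exact ⟨y, hy.trans (Nat.pow_le_pow_right (by omega) (by omega)), by simpa using ⟨hy, hm⟩⟩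
        · rintro ⟨y, _, hm⟩
          have hm : size y ≤ (size x + 1) ^ k ∧ M (x, y) := by simpa using hm
          exact ⟨y, hm.1, hm.2⟩

theorem Sig.comp {n : ℕ} : ∀ {α β : Type} [PTy α] [PTy β] {L : β → Prop} {f : α → β},
    Sig A n L → FP A f → Sig A n (fun x => L (f x)) := by
  induction n with
  | zero =>
    intro α β _ _ L f h hf
    obtain ⟨g, hg, h⟩ := h
    exact ⟨_, FP.comp hg hf, fun x => h (f x)⟩
  | succ n ih =>
    intro α β _ _ L f h hf
    obtain ⟨γ, _, M, k, hM, h⟩ := h
    obtain ⟨k', hk'⟩ := (FP.sizePow hf k).bddNat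
    refine ⟨γ, inferInstance, fun p => size p.2 ≤ (size (f p.1) + 1) ^ k ∧ M (f p.1, p.2), k',
      ?_, fun x => ?_⟩
    · refine Sig.congr (Sig.ite (c := fun p : α × γ => decide ((size (f p.1) + 1) ^ k < size p.2))
        (d := fun _ => true) (ih hM (f := fun p : α × γ => (f p.1, p.2))
        (FP.pair (FP.comp hf FP.fst) FP.snd)) ?_ (FP.const true)) (fun p => ?_)
      · exact FP.lt' (FP.sizePow (FP.comp hf FP.fst) k) (FP.size' FP.snd)
      · by_cases h2 : (size (f p.1) + 1) ^ k < size p.2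
        · simp [h2]
        · simp [h2, not_lt.1 h2]
    · dsimp only
      rw [h]
      constructor
      · rintro ⟨y, hy, hm⟩; exact ⟨y, hy.trans (hk' x), hy, hm⟩
      · rintro ⟨y, _, hy, hm⟩; exact ⟨y, hy, hm⟩

theorem Sig.succ {n : ℕ} : ∀ {α : Type} [PTy α] {L : α → Prop}, Sig A n L → Sig A (n + 1) L := by
  induction n with
  | zero =>
    intro α _ L h
    obtain ⟨f, hf, h⟩ := h
    refine ⟨Bool, inferInstance, fun p => L p.1, 0, ⟨fun p => !f p.1, FP.not' (FP.comp hf FP.fst),
      fun p => ?_⟩, fun x => ?_⟩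
    · simp [h]
    · constructor
      · intro hx; exact ⟨true, by simp, hx⟩
      · rintro ⟨_, _, hx⟩; exact hx
  | succ n ih =>
    intro α _ L h
    obtain ⟨β, _, M, k, hM, h⟩ := h
    exact ⟨β, inferInstance, M, k, ih hM, h⟩

theorem Sig.mono {n m : ℕ} (hnm : n ≤ m) {α : Type} [PTy α] {L : α → Prop} (h : Sig A n L) :
    Sig A m L := by
  induction m, hnm using Nat.le_induction with
  | base => exact h
  | succ m _ ih => exact ih.succ

theorem Sig.exists {n : ℕ} {α β : Type} [PTy α] [PTy β] {M : α × β → Prop}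
    (h : Sig A (n + 1) M) (k : ℕ) :
    Sig A (n + 1) (fun x => ∃ y, size y ≤ (size x + 1) ^ k ∧ M (x, y)) := by
  obtain ⟨γ, _, M', l, hM', h⟩ := h
  obtain ⟨k', hk'⟩ := FP.bddNat (A := A) (f := fun x : α => (size x + 1) ^ k +
    (size x + (size x + 1) ^ k + 1) ^ l) (FP.add' (FP.sizePow FP.id k) (FP.pow' (FP.add'
      (FP.add' (FP.size' FP.id) (FP.sizePow FP.id k)) (FP.const 1)) l))
  refine ⟨β × γ, inferInstance, fun p => (size p.2.1 ≤ (size p.1 + 1) ^ k ∧
    size p.2.2 ≤ (size (p.1, p.2.1) + 1) ^ l) ∧ M' ((p.1, p.2.1), p.2.2), k', ?_, fun x => ?_⟩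
  · refine Sig.congr (Sig.ite (c := fun p : α × β × γ =>
      decide ((size p.1 + 1) ^ k < size p.2.1) ||
      decide ((size (p.1, p.2.1) + 1) ^ l < size p.2.2)) (d := fun _ => true)
      (Sig.comp hM' (f := fun p : α × β × γ => ((p.1, p.2.1), p.2.2)) ?_) ?_ (FP.const true))
      (fun p => ?_)
    · exact FP.pair (FP.pair FP.fst (FP.fst' FP.snd)) (FP.snd' FP.snd)
    · exact FP.or' (FP.lt' (FP.sizePow FP.fst k) (FP.size' (FP.fst' FP.snd)))
        (FP.lt' (FP.sizePow (FP.pair FP.fst (FP.fst' FP.snd)) l) (FP.size' (FP.snd' FP.snd)))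
    · by_cases h1 : (size p.1 + 1) ^ k < size p.2.1
      · simp only [h1, decide_true, Bool.true_or, if_true, true_iff]
        intro hh; omega
      · by_cases h2 : (size (p.1, p.2.1) + 1) ^ l < size p.2.2
        · simp only [h2, decide_true, Bool.or_true, if_true, true_iff]
          intro hh; omega
        · simp only [h1, h2, decide_false, Bool.or_false]
          have h1 := not_lt.1 h1
          have h2 := not_lt.1 h2
          simp only [Bool.false_eq_true, if_false, h1, h2, true_and]
  · constructor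
    · rintro ⟨y, hy, hm⟩
      obtain ⟨z, hz, hm⟩ := (h (x, y)).1 hm
      refine ⟨(y, z), ?_, ⟨hy, hz⟩, hm⟩
      refine le_trans ?_ (hk' x)
      rw [size_prod]
      refine Nat.add_le_add hy (hz.trans (Nat.pow_le_pow_left ?_ _))
      rw [size_prod]
      dsimp only
      omega
    · rintro ⟨⟨y, z⟩, _, ⟨hy, hz⟩, hm⟩
      exact ⟨y, hy, (h (x, y)).2 ⟨z, hz, hm⟩⟩

/-- If `Σ₂ ⊆ Π₂` then the polynomial hierarchy is `Σ₂`. -/
theorem collapse (h : ∀ {α : Type} [PTy α] (L : α → Prop),
    Sig A 2 L → Sig A 2 (fun x => ¬ L x)) :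
    ∀ (n : ℕ) {α : Type} [PTy α] (L : α → Prop), Sig A n L → Sig A 2 L := by
  intro n
  induction n with
  | zero => intro α _ L hL; exact hL.mono (by norm_num)
  | succ n ih =>
    intro α _ L hL
    rcases Nat.lt_or_ge n 2 with hn | hn
    · exact hL.mono (by omega)
    · obtain ⟨β, _, M, k, hM, hL⟩ := hL
      have h2 := h _ (ih _ hM)
      exact ((h2.congr (fun p => not_not)).exists k).congr (fun x => (hL x).symm)

end Pool.Agent.FewPath
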