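import Pool.Agent.FewPath.Amp

namespace Pool.Agent.FewPath

open Classical

theorem lexLt_irrefl (l : List Bool) : lexLt l l = false := by
  induction l with
  | nil => rfl
  | cons a l ih => cases a <;> simp [lexLt_cons, ih]

theorem lexLt_trans {l k j : List Bool} (h1 : lexLt l k = true) (h2 : lexLt k j = true) :
    lexLt l j = true := by
  induction l generalizing k j with
  | nil =>
    cases k with
    | nil => simp at h1
    | cons b k =>
      cases j with
      | nil => simp at h2
      | cons c j => simp
  | cons a l ih =>
    cases k with
    | nil => simp at h1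
    | cons b k =>
      cases j with
      | nil => simp at h2
      | cons c j =>
        simp only [lexLt_cons, Bool.or_eq_true, Bool.and_eq_true] at h1 h2 ⊢
        cases a <;> cases b <;> cases c <;> simp_all
        all_goals exact ih h1 h2

theorem lexLt_total {n : ℕ} {l k : List Bool} (hl : l.length = n) (hk : k.length = n)
    (h : l ≠ k) : lexLt l k = true ∨ lexLt k l = true := by
  induction n generalizing l k with
  | zero =>
    rw [List.length_eq_zero_iff] at hl hk
    exact absurd (hl.trans hk.symm) h
  | succ n ih =>
    cases l with
    | nil => simp at hl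
    | cons a l =>
      cases k with
      | nil => simp at hk
      | cons b k =>
        by_cases hlk : l = k
        · subst hlk
          have : a ≠ b := fun hab => h (by rw [hab])
          cases a <;> cases b <;> simp_all [lexLt_cons]
        · have := ih (l := l) (k := k) (by simpa using hl) (by simpa using hk) hlk
          cases a <;> cases b <;> simp_all [lexLt_cons]

/-- The number of elements of `s` before `p`. -/
noncomputable def rank (s : Finset (List Bool)) (p : List Bool) : ℕ :=
  (s.filter (fun q => lexLt q p = true)).card

theorem card_rank {n : ℕ} {s : Finset (List Bool)} (hs : ∀ p ∈ s, p.length = n) {a : ℕ}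
    (ha : a ≤ s.card) : (s.filter (fun p => rank s p < a)).card = a := by
  have hlt : ∀ p ∈ s, rank s p < s.card := by
    intro p hp
    refine Finset.card_lt_card ?_
    rw [Finset.ssubset_iff_of_subset (Finset.filter_subset _ _)]
    exact ⟨p, hp, by simp [lexLt_irrefl]⟩
  have hmono : ∀ p ∈ s, ∀ q ∈ s, lexLt p q = true → rank s p < rank s q := by
    intro p hp q _ hpq
    refine Finset.card_lt_card ?_
    rw [Finset.ssubset_iff_of_subset (fun x hx => ?_)]
    · exact ⟨p, Finset.mem_filter.2 ⟨hp, hpq⟩, by simp [lexLt_irrefl]⟩
    · rw [Finset.mem_filter] at hx ⊢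
      exact ⟨hx.1, lexLt_trans hx.2 hpq⟩
  have hinj : Set.InjOn (rank s) s := by
    intro p hp q hq hpq
    by_contra hne
    rcases lexLt_total (hs p hp) (hs q hq) hne with h | h
    · have := hmono p hp q hq h; omega
    · have := hmono q hq p hp h; omega
  have himg : s.image (rank s) = Finset.range s.card := by
    refine Finset.eq_of_subset_of_card_le (fun x hx => ?_) ?_
    · obtain ⟨p, hp, rfl⟩ := Finset.mem_image.1 hx
      exact Finset.mem_range.2 (hlt p hp)
    · rw [Finset.card_image_of_injOn hinj, Finset.card_range]
  have h1 : (s.filter (fun p => rank s p < a)).image (rank s) = Finset.range a := by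
    ext x
    rw [Finset.mem_image, Finset.mem_range]
    constructor
    · rintro ⟨p, hp, rfl⟩
      exact (Finset.mem_filter.1 hp).2
    · intro hx
      have : x ∈ s.image (rank s) := by rw [himg, Finset.mem_range]; omega
      obtain ⟨p, hp, rfl⟩ := Finset.mem_image.1 this
      exact ⟨p, Finset.mem_filter.2 ⟨hp, hx⟩, rfl⟩
  rw [← Finset.card_image_of_injOn (hinj.mono (fun x hx => (Finset.mem_filter.1 hx).1)), h1,
    Finset.card_range]

theorem card_binval (e : ℕ) : ∀ a, a ≤ 2 ^ e →
    ((bits e).filter (fun i => binval i < a)).card = a := by
  induction e with
  | zero =>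
    intro a ha
    rw [Finset.card_filter, sum_bits_zero]
    simp only [binval_nil]
    rcases Nat.eq_zero_or_pos a with h | h
    · simp [h]
    · simp at ha; have : a = 1 := by omega
      simp [this]
  | succ e ih =>
    intro a ha
    rw [Finset.card_filter, sum_bits_succ]
    have h1 : ∑ l ∈ bits e, (if binval (false :: l) < a then 1 else 0) =
        ((bits e).filter (fun i => binval i < (a + 1) / 2)).card := by
      rw [Finset.card_filter]
      refine Finset.sum_congr rfl (fun i _ => ?_)
      have : (binval (false :: i) < a) ↔ (binval i < (a + 1) / 2) := by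
        simp only [binval_cons, Bool.false_eq_true, if_false]; omega
      simp only [this]
    have h2 : ∑ l ∈ bits e, (if binval (true :: l) < a then 1 else 0) =
        ((bits e).filter (fun i => binval i < a / 2)).card := by
      rw [Finset.card_filter]
      refine Finset.sum_congr rfl (fun i _ => ?_)
      have : (binval (true :: i) < a) ↔ (binval i < a / 2) := by
        simp only [binval_cons, if_true]; omega
      simp only [this]
    rw [h1, h2, ih _ (by rw [pow_succ] at ha; omega), ih _ (by rw [pow_succ] at ha; omega)]
    omega

section

variable {m : ℕ} {step back : List Bool → List Bool}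

/-- The state `z` is reached by at most `K` paths. -/
def light (m : ℕ) (step : List Bool → List Bool) (T K : ℕ) (z : List Bool) : Prop :=
  (fib m step T z).card ≤ K

/-- The acceptance test of rejection sampling: `p` is a path and `i` a random number. -/
def accept (m : ℕ) (step : List Bool → List Bool) (T K : ℕ) (p i : List Bool) : Prop :=
  light m step T K (endOf m step p) ∧
  rank (fib m step T (endOf m step p)) p < net m step T (endOf m step p) ∧
    binval i < net m step T (endOf m step p)

theorem sum_accept (h : IsPerm m step back) {T e K : ℕ} (hK : K ≤ 2 ^ e)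
    (g : List Bool → ℝ) :
    ∑ p ∈ bits T, ∑ i ∈ bits e, (if accept m step T K p i then g (endOf m step p) else 0) =
      ∑ z ∈ bits m, (if light m step T K z then (net m step T z : ℝ) ^ 2 * g z else 0) := by
  have h1 : ∀ p ∈ bits T,
      ∑ i ∈ bits e, (if accept m step T K p i then g (endOf m step p) else 0) =
      ∑ z ∈ bits m, if endOf m step p = z then
        (if rank (fib m step T z) p < net m step T z then
          (if light m step T K z then (net m step T z : ℝ) * g z else 0) else 0)
          else 0 := by
    intro p _
    rw [Finset.sum_ite_eq, if_pos (mem_bits.2 (length_endOf h p))]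
    by_cases h3 : light m step T K (endOf m step p)
    · by_cases h2 : rank (fib m step T (endOf m step p)) p < net m step T (endOf m step p)
      · rw [if_pos h2, if_pos h3]
        simp only [accept, h2, h3, true_and]
        rw [← Finset.sum_filter, Finset.sum_const, card_binval _ _
          ((net_le T _).trans (le_trans h3 hK)), nsmul_eq_mul]
      · rw [if_neg h2]
        simp only [accept, h2, false_and, and_false, if_false, Finset.sum_const_zero]
    · rw [if_neg h3]
      simp only [accept, h3, false_and, if_false, Finset.sum_const_zero, ite_self]
  rw [Finset.sum_congr rfl h1, Finset.sum_comm]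
  refine Finset.sum_congr rfl (fun z _ => ?_)
  rw [← Finset.sum_filter]
  change ∑ p ∈ fib m step T z, _ = _
  have hc := card_rank (s := fib m step T z) (n := T)
    (fun p hp => mem_bits.1 (Finset.mem_filter.1 hp).1) (net_le (m := m) (step := step) T z)
  rw [← Finset.sum_filter, Finset.sum_const, hc, nsmul_eq_mul]
  split
  · ring
  · simp

theorem sum_accept_amp (h : IsPerm m step back) {T e K : ℕ} (hK : K ≤ 2 ^ e)
    (g : List Bool → ℝ) :
    (∑ p ∈ bits T, ∑ i ∈ bits e, (if accept m step T K p i then g (endOf m step p) else 0)) /
      2 ^ (T + e) = (∑ z ∈ bits m, (if light m step T K z then amp m back T z ^ 2 * g z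
        else 0)) / 2 ^ e := by
  rw [sum_accept h hK, pow_add]
  have : ∀ z ∈ bits m, (if light m step T K z then amp m back T z ^ 2 * g z else 0) =
      (if light m step T K z then (net m step T z : ℝ) ^ 2 * g z else 0) / 2 ^ T := by
    intro z hz
    rw [amp_sq h T (mem_bits.1 hz)]
    split
    · ring
    · simp
  rw [Finset.sum_congr rfl this, ← Finset.sum_div, div_div]

end

end Pool.Agent.FewPath
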