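import Pool.Agent.FewPath.Hash

namespace Pool.Agent.FewPath

open Classical

/-- The average over bit strings. -/
noncomputable def ev (n : ℕ) (f : List Bool → ℝ) : ℝ := (∑ l ∈ bits n, f l) / 2 ^ n

theorem ev_split (a b : ℕ) (f : List Bool → ℝ) :
    ev (a + b) f = ev a (fun l => ev b (fun k => f (l ++ k))) := by
  simp only [ev]
  rw [sum_bits_add, ← Finset.sum_div, div_div, pow_add, mul_comm]

theorem ev_congr {n : ℕ} {f g : List Bool → ℝ} (h : ∀ l, l.length = n → f l = g l) :
    ev n f = ev n g := by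
  rw [ev, ev, Finset.sum_congr rfl (fun l hl => h l (mem_bits.1 hl))]

theorem ev_mono {n : ℕ} {f g : List Bool → ℝ} (h : ∀ l, l.length = n → f l ≤ g l) :
    ev n f ≤ ev n g := by
  rw [ev, ev]
  exact div_le_div_of_nonneg_right (Finset.sum_le_sum (fun l hl => h l (mem_bits.1 hl)))
    (by positivity)

@[simp] theorem ev_const (n : ℕ) (c : ℝ) : ev n (fun _ => c) = c := by
  rw [ev, Finset.sum_const, card_bits, nsmul_eq_mul]
  push_cast
  field_simp

theorem ev_add (n : ℕ) (f g : List Bool → ℝ) : ev n (fun l => f l + g l) = ev n f + ev n g := by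
  rw [ev, ev, ev, Finset.sum_add_distrib, add_div]

theorem ev_sub (n : ℕ) (f g : List Bool → ℝ) : ev n (fun l => f l - g l) = ev n f - ev n g := by
  rw [ev, ev, ev, Finset.sum_sub_distrib, sub_div]

theorem ev_mul (n : ℕ) (c : ℝ) (f : List Bool → ℝ) : ev n (fun l => c * f l) = c * ev n f := by
  rw [ev, ev, ← Finset.mul_sum, mul_div_assoc]

theorem ev_abs {n : ℕ} {f : List Bool → ℝ} {B : ℝ} (h : ∀ l, l.length = n → |f l| ≤ B) :
    |ev n f| ≤ B := by
  rw [abs_le]
  constructor
  · have := ev_mono (n := n) (f := fun _ => -B) (g := f) (fun l hl => (abs_le.1 (h l hl)).1)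
    rwa [ev_const] at this
  · have := ev_mono (n := n) (f := f) (g := fun _ => B) (fun l hl => (abs_le.1 (h l hl)).2)
    rwa [ev_const] at this

theorem ev_nonneg {n : ℕ} {f : List Bool → ℝ} (h : ∀ l, l.length = n → 0 ≤ f l) :
    0 ≤ ev n f := by
  have := ev_mono (n := n) (f := fun _ => 0) h
  rwa [ev_const] at this

theorem ev_le {n : ℕ} {f : List Bool → ℝ} {B : ℝ} (h : ∀ l, l.length = n → f l ≤ B) :
    ev n f ≤ B := by
  have := ev_mono (n := n) (g := fun _ => B) h
  rwa [ev_const] at this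

/-! ### Weights -/

/-- The credit of a state which is reached by `n` paths. -/
def om (K s n : ℕ) : ℕ := s * (min n (K + 1) * (2 * K + 2 - min n (K + 1)))

/-- The payment for a list of `n` paths. -/
def ph (K s n : ℕ) : ℕ := if n ≤ K + 1 then s * (2 * K + 2 - n) else s * (K + 1) ^ 2 / n + 1

theorem om_mono {K s n N : ℕ} (h : n ≤ N) : om K s n ≤ om K s N := by
  rw [om, om]
  refine Nat.mul_le_mul_left _ ?_
  have h1 : min n (K + 1) ≤ min N (K + 1) := by omega
  have h2 : min N (K + 1) ≤ K + 1 := by omega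
  generalize min n (K + 1) = a at h1
  generalize min N (K + 1) = b at h1 h2
  obtain ⟨d, rfl⟩ := Nat.exists_eq_add_of_le h1
  obtain ⟨f, hf⟩ := Nat.exists_eq_add_of_le h2
  have e1 : 2 * K + 2 - a = a + 2 * d + 2 * f := by omega
  have e2 : 2 * K + 2 - (a + d) = a + d + 2 * f := by omega
  rw [e1, e2]
  nlinarith

theorem om_large {K s n : ℕ} (h : K + 1 ≤ n) : om K s n = s * (K + 1) ^ 2 := by
  rw [om, Nat.min_eq_right h]
  have : 2 * K + 2 - (K + 1) = K + 1 := by omega
  rw [this, sq]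

theorem om_le (K s n : ℕ) : om K s n ≤ s * (K + 1) ^ 2 := by
  rw [← om_large (n := max n (K + 1)) (le_max_right _ _)]
  exact om_mono (le_max_left _ _)

@[simp] theorem om_zero (K s : ℕ) : om K s 0 = 0 := by simp [om]

theorem ph_large_le {K s n : ℕ} (hs : 2 ≤ s) (h : K + 1 < n) : ph K s n ≤ s * (K + 1) := by
  rw [ph, if_neg (by omega)]
  have h1 : s * (K + 1) ^ 2 / n ≤ s * (K + 1) ^ 2 / (K + 2) := Nat.div_le_div_left h (by omega)
  have h2 : s * (K + 1) ^ 2 / (K + 2) < s * (K + 1) := by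
    rw [Nat.div_lt_iff_lt_mul (by omega)]
    nlinarith
  omega

theorem ph_anti {K s n N : ℕ} (hs : 2 ≤ s) (h : n ≤ N) : ph K s N ≤ ph K s n := by
  by_cases hN : N ≤ K + 1
  · rw [ph, ph, if_pos hN, if_pos (by omega)]
    exact Nat.mul_le_mul_left _ (by omega)
  · by_cases hn : n ≤ K + 1
    · refine (ph_large_le hs (by omega)).trans ?_
      rw [ph, if_pos hn]
      exact Nat.mul_le_mul_left _ (by omega)
    · rw [ph, ph, if_neg hN, if_neg hn]
      exact Nat.add_le_add_right (Nat.div_le_div_left h (by omega)) 1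

theorem ph_gap {K s n N : ℕ} (hs : 2 ≤ s) (hn : n ≤ K) (h : n < N) :
    ph K s N + s ≤ ph K s n := by
  have h1 := ph_anti (K := K) hs (show n + 1 ≤ N from h)
  have h2 : ph K s (n + 1) + s = ph K s n := by
    rw [ph, ph, if_pos (by omega), if_pos (by omega)]
    have : 2 * K + 2 - n = (2 * K + 2 - (n + 1)) + 1 := by omega
    rw [this, mul_add, mul_one]
  omega

theorem ph_le {K s n : ℕ} (hs : 2 ≤ s) : ph K s n ≤ s * (2 * K + 2) := by
  refine (ph_anti hs (Nat.zero_le n)).trans (le_of_eq ?_)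
  rw [ph, if_pos (by omega)]
  rfl

theorem ph_mean {K s Kp N : ℕ} (h1 : s * (K + 1) ^ 2 < Kp) (h2 : K + 2 ≤ Kp) :
    om K s N ≤ N * ph K s (min N Kp) ∧ N * ph K s (min N Kp) ≤ om K s N + N := by
  by_cases h3 : N ≤ K + 1
  · rw [Nat.min_eq_left (by omega), ph, if_pos h3, om, Nat.min_eq_left h3]
    have : s * (N * (2 * K + 2 - N)) = N * (s * (2 * K + 2 - N)) := by ring
    rw [this]
    omega
  · rw [om_large (by omega)]
    by_cases h4 : N ≤ Kp
    · rw [Nat.min_eq_left h4, ph, if_neg h3]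
      generalize s * (K + 1) ^ 2 = a at h1
      have h5 := Nat.lt_mul_div_succ a (show 0 < N by omega)
      have h6 := Nat.mul_div_le a N
      constructor
      · exact h5.le
      · rw [mul_add, mul_one]; omega
    · rw [Nat.min_eq_right (by omega), ph, if_neg (by omega)]
      generalize s * (K + 1) ^ 2 = a at h1
      rw [Nat.div_eq_of_lt h1]
      omega

/-! ### The parameters -/

/-- The parameters of one round. -/
structure Par where
  m : ℕ
  T : ℕ
  e : ℕ
  c : ℕ
  K : ℕ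
  s : ℕ
  Kp : ℕ
  L : ℕ

/-- The conditions on the parameters. -/
structure Par.Ok (P : Par) : Prop where
  s_ge : 2 ≤ P.s
  K_le : P.K ≤ 2 ^ P.e
  c_ge : P.s * (P.K + 1) ^ 2 ≤ 2 ^ P.c
  Kp_gt : P.s * (P.K + 1) ^ 2 < P.Kp
  Kp_ge : P.K + 2 ≤ P.Kp

section

variable (P : Par) (stepf backf : ℕ → List Bool → List Bool)

/-- The number of random bits of one candidate. -/
def ell2 : ℕ := P.T + (P.e + (P.T + P.c) * (P.m + 1))

def zOf (j : ℕ) (ch : List Bool) : List Bool := endOf P.m (stepf j) (ch.take P.T)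
def iOf (ch : List Bool) : List Bool := (ch.drop P.T).take P.e
def rowsOf (ch : List Bool) : List (List Bool) :=
  chunks (P.m + 1) (P.T + P.c) ((ch.drop P.T).drop P.e)
def accJ (j : ℕ) (ch : List Bool) : Prop :=
  accept P.m (stepf j) P.T P.K (ch.take P.T) (iOf P ch)

/-- The number of paths to a state. -/
noncomputable def nf (j : ℕ) (z : List Bool) : ℕ := (fib P.m (stepf j) P.T z).card

noncomputable def zetaJ (j : ℕ) (ch : List Bool) : ℝ :=
  (ph P.K P.s (min (nf P stepf j (zOf P stepf j ch)) P.Kp) : ℝ) -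
    2 ^ P.c * (maxw P.m (fun z => om P.K P.s (nf P stepf j z)) (rowsOf P ch) : ℝ)

/-- The outcome of rejection sampling. -/
noncomputable def outJ (j : ℕ) (cl : List (List Bool)) : List Bool :=
  ((cl.filter (fun ch => accJ P stepf j ch)).map (zOf P stepf j)).headD []

/-- The expectation restricted to the states with few paths, for one computation. -/
noncomputable def Ql (j : ℕ) (g : List Bool → ℝ) : ℝ :=
  ∑ z ∈ bits P.m, (if light P.m (stepf j) P.T P.K z then amp P.m (backf j) P.T z ^ 2 * g z else 0)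

variable {P stepf backf}

theorem ev_ell2 (F : List Bool → List Bool → List Bool → ℝ) :
    ev (ell2 P) (fun ch => F (ch.take P.T) (iOf P ch) ((ch.drop P.T).drop P.e)) =
      ev P.T (fun p => ev P.e (fun i => ev ((P.T + P.c) * (P.m + 1)) (fun G => F p i G))) := by
  rw [ell2, ev_split]
  refine ev_congr (fun p hp => ?_)
  rw [ev_split]
  refine ev_congr (fun i hi => ev_congr (fun G _ => ?_))
  rw [iOf, ← hp, List.take_left, List.drop_left, ← hi, List.take_left, List.drop_left]

theorem ev_acc {j : ℕ} (hP : P.Ok) (h : IsPerm P.m (stepf j) (backf j)) (g : List Bool → ℝ) :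
    ev (ell2 P) (fun ch => if accJ P stepf j ch then g (zOf P stepf j ch) else 0) =
      Ql P stepf backf j g / 2 ^ P.e := by
  have h1 := ev_ell2 (P := P) (fun p i _ =>
    if accept P.m (stepf j) P.T P.K p i then g (endOf P.m (stepf j) p) else 0)
  simp only [ev_const] at h1
  have h2 : ev (ell2 P) (fun ch => if accJ P stepf j ch then
      g (zOf P stepf j ch) else 0) = ev (ell2 P) (fun ch => (fun (p i _ : List Bool) =>
        if accept P.m (stepf j) P.T P.K p i then g (endOf P.m (stepf j) p) else 0) (ch.take P.T)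
          (iOf P ch) ((ch.drop P.T).drop P.e)) := rfl
  rw [h2, h1, Ql, ← sum_accept_amp h hP.K_le g]
  simp only [ev]
  rw [← Finset.sum_div, div_div, pow_add, mul_comm]

theorem card_fib_sum (j : ℕ) (h : IsPerm P.m (stepf j) (backf j)) (f : ℕ → ℝ) :
    ∑ p ∈ bits P.T, f (nf P stepf j (endOf P.m (stepf j) p)) =
      ∑ z ∈ bits P.m, (nf P stepf j z) * f (nf P stepf j z) := by
  have h1 : ∀ p ∈ bits P.T, f (nf P stepf j (endOf P.m (stepf j) p)) =
      ∑ z ∈ bits P.m, if endOf P.m (stepf j) p = z then f (nf P stepf j z) else 0 := by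
    intro p _
    rw [Finset.sum_ite_eq, if_pos (mem_bits.2 (length_endOf h p))]
  rw [Finset.sum_congr rfl h1, Finset.sum_comm]
  refine Finset.sum_congr rfl (fun z _ => ?_)
  rw [← Finset.sum_filter, Finset.sum_const, nsmul_eq_mul]
  rfl

theorem ev_zeta {j : ℕ} (hP : P.Ok) (h : IsPerm P.m (stepf j) (backf j)) :
    0 ≤ ev (ell2 P) (zetaJ P stepf j) ∧ ev (ell2 P) (zetaJ P stepf j) ≤ 2 := by
  have h1 := ev_ell2 (P := P) (fun p _ G =>
    (ph P.K P.s (min (nf P stepf j (endOf P.m (stepf j) p)) P.Kp) : ℝ) -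
      2 ^ P.c * (maxw P.m (fun z => om P.K P.s (nf P stepf j z))
        (chunks (P.m + 1) (P.T + P.c) G) : ℝ))
  have h2 : ev (ell2 P) (zetaJ P stepf j) =
      (∑ z ∈ bits P.m, (nf P stepf j z : ℝ) * (ph P.K P.s (min (nf P stepf j z) P.Kp) : ℝ)) /
        2 ^ P.T - 2 ^ P.c *
        ev ((P.T + P.c) * (P.m + 1)) (fun G => (maxw P.m (fun z => om P.K P.s (nf P stepf j z))
          (chunks (P.m + 1) (P.T + P.c) G) : ℝ)) := by
    refine Eq.trans (Eq.trans rfl h1) ?_
    simp only [ev_sub, ev_mul, ev_const]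
    congr 1
    rw [ev, card_fib_sum j h (fun n => (ph P.K P.s (min n P.Kp) : ℝ))]
  have hu := maxw_upper (m := P.m) (k := P.T + P.c) (fun z => om P.K P.s (nf P stepf j z))
  set I := (bits P.m).filter (fun z => (fib P.m (stepf j) P.T z).Nonempty) with hI
  have hIc : I.card ≤ 2 ^ P.T := by
    have h3 : I ⊆ (bits P.T).image (endOf P.m (stepf j)) := by
      intro z hz
      obtain ⟨_, p, hp⟩ := Finset.mem_filter.1 hz
      obtain ⟨hp1, hp2⟩ := Finset.mem_filter.1 hp
      exact Finset.mem_image.2 ⟨p, hp1, hp2⟩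
    exact (Finset.card_le_card h3).trans (Finset.card_image_le.trans (card_bits P.T).le)
  have hl := maxw_lower (m := P.m) (k := P.T + P.c) (T := P.T)
    (fun z => om P.K P.s (nf P stepf j z)) (W := P.s * (P.K + 1) ^ 2)
    (fun z _ => om_le _ _ _) (Finset.filter_subset _ _) hIc
    (fun z hz hz' => by
      have : fib P.m (stepf j) P.T z = ∅ := by
        rw [← Finset.not_nonempty_iff_eq_empty]
        exact fun h => hz' (Finset.mem_filter.2 ⟨hz, h⟩)
      rw [nf, this]; simp)
  rw [h2]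
  change (ev _ _ ≤ _) at hu
  change (_ ≤ ev _ _) at hl
  set E := ev ((P.T + P.c) * (P.m + 1)) (fun G => (maxw P.m (fun z => om P.K P.s (nf P stepf j z))
          (chunks (P.m + 1) (P.T + P.c) G) : ℝ)) with hE
  set Sm := ∑ z ∈ bits P.m, (om P.K P.s (nf P stepf j z) : ℝ) with hS
  set Sp := ∑ z ∈ bits P.m,
    (nf P stepf j z : ℝ) * (ph P.K P.s (min (nf P stepf j z) P.Kp) : ℝ) with hSp
  have hc : (0 : ℝ) < 2 ^ P.c := by positivity
  have hT : (0 : ℝ) < 2 ^ P.T := by positivity
  have hSp1 : Sm ≤ Sp := by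
    rw [hS, hSp]
    refine Finset.sum_le_sum (fun z _ => ?_)
    have := (ph_mean (N := nf P stepf j z) hP.Kp_gt hP.Kp_ge).1
    exact_mod_cast this
  have hSp2 : Sp ≤ Sm + 2 ^ P.T := by
    have h3 := card_fib_sum j h (fun _ => (1 : ℝ))
    rw [Finset.sum_const, card_bits, nsmul_eq_mul, mul_one] at h3
    push_cast at h3
    rw [h3, hS, hSp, ← Finset.sum_add_distrib]
    refine Finset.sum_le_sum (fun z _ => ?_)
    have := (ph_mean (N := nf P stepf j z) hP.Kp_gt hP.Kp_ge).2
    rw [mul_one]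
    exact_mod_cast this
  have e1 : (2 : ℝ) ^ P.c * (Sm / 2 ^ (P.T + P.c)) = Sm / 2 ^ P.T := by
    rw [pow_add]; field_simp
  have e2 : (2 : ℝ) ^ P.c * (((P.s * (P.K + 1) ^ 2 : ℕ) : ℝ) * (2 ^ P.T) ^ 2 /
      4 ^ (P.T + P.c)) = ((P.s * (P.K + 1) ^ 2 : ℕ) : ℝ) / 2 ^ P.c := by
    have : (4 : ℝ) ^ (P.T + P.c) = (2 ^ P.T) ^ 2 * (2 ^ P.c) ^ 2 := by
      rw [pow_add, ← pow_mul, ← pow_mul, mul_comm P.T 2, mul_comm P.c 2, pow_mul, pow_mul]
      norm_num
    rw [this]
    field_simp
  have e3 : ((P.s * (P.K + 1) ^ 2 : ℕ) : ℝ) / 2 ^ P.c ≤ 1 := by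
    rw [div_le_one hc]; exact_mod_cast hP.c_ge
  have e4 : Sm / 2 ^ P.T ≤ Sp / 2 ^ P.T := div_le_div_of_nonneg_right hSp1 hT.le
  have e5 : Sp / 2 ^ P.T ≤ Sm / 2 ^ P.T + 1 := by
    rw [div_add_one hT.ne']
    exact div_le_div_of_nonneg_right hSp2 hT.le
  constructor
  · have := mul_le_mul_of_nonneg_left hu hc.le
    rw [e1] at this
    linarith
  · have := mul_le_mul_of_nonneg_left hl hc.le
    rw [mul_sub, e1, e2] at this
    linarith

/-! ### Rejection sampling -/

theorem outJ_cons (j : ℕ) (ch : List Bool) (cl : List (List Bool)) :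
    outJ P stepf j (ch :: cl) =
      if accJ P stepf j ch then zOf P stepf j ch else outJ P stepf j cl := by
  rw [outJ]
  by_cases h : accJ P stepf j ch
  · rw [List.filter_cons_of_pos (by simpa using h), if_pos h]; rfl
  · rw [List.filter_cons_of_neg (by simpa using h), if_neg h]; rfl

theorem Ql_nonneg {j : ℕ} {g : List Bool → ℝ} (hg : ∀ z, 0 ≤ g z) : 0 ≤ Ql P stepf backf j g :=
  Finset.sum_nonneg (fun z _ => by
    split
    · exact mul_nonneg (sq_nonneg _) (hg z)
    · exact le_rfl)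

theorem Ql_mono {j : ℕ} {g g' : List Bool → ℝ} (hg : ∀ z, g z ≤ g' z) :
    Ql P stepf backf j g ≤ Ql P stepf backf j g' :=
  Finset.sum_le_sum (fun z _ => by
    split
    · exact mul_le_mul_of_nonneg_left (hg z) (sq_nonneg _)
    · exact le_rfl)

theorem Ql_one_le {j : ℕ} (h : IsPerm P.m (stepf j) (backf j)) :
    Ql P stepf backf j (fun _ => 1) ≤ 1 := by
  refine le_trans ?_ (norm_amp h P.T).le
  refine Finset.sum_le_sum (fun z _ => ?_)
  split
  · rw [mul_one]
  · exact sq_nonneg _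

theorem ev_block {j : ℕ} (hP : P.Ok) (h : IsPerm P.m (stepf j) (backf j)) {g : List Bool → ℝ}
    (hg0 : ∀ z, 0 ≤ g z) (hg1 : ∀ z, g z ≤ 1) (L : ℕ) :
    |ev (L * ell2 P) (fun blk => g (outJ P stepf j (chunks (ell2 P) L blk))) -
      Ql P stepf backf j g| ≤ (1 - Ql P stepf backf j (fun _ => 1)) +
        (1 - Ql P stepf backf j (fun _ => 1) / 2 ^ P.e) ^ L := by
  set Q := Ql P stepf backf j g with hQ
  set q := Ql P stepf backf j (fun _ => 1) with hq
  have hQ0 : 0 ≤ Q := Ql_nonneg hg0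
  have hQq : Q ≤ q := Ql_mono hg1
  have hq1 : q ≤ 1 := Ql_one_le h
  have hq0 : 0 ≤ q := hQ0.trans hQq
  have he : (0 : ℝ) < 2 ^ P.e := by positivity
  have he1 : q / 2 ^ P.e ≤ 1 := by
    rw [div_le_one he]
    exact hq1.trans (one_le_pow₀ (by norm_num))
  have key : ∀ L : ℕ,
      |ev (L * ell2 P) (fun blk => g (outJ P stepf j (chunks (ell2 P) L blk))) * q - Q| ≤
        (1 - q / 2 ^ P.e) ^ L * q := by
    intro L
    induction L with
    | zero =>
      rw [zero_mul, pow_zero, one_mul, abs_le]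
      have : ev 0 (fun blk => g (outJ P stepf j (chunks (ell2 P) 0 blk))) = g [] := by
        simp only [ev, sum_bits_zero, chunks_zero, pow_zero, div_one]; rfl
      rw [this]
      have h1 := mul_le_mul_of_nonneg_right (hg1 []) hq0
      have h2 := mul_nonneg (hg0 []) hq0
      constructor <;> linarith
    | succ L ih =>
      set a := ev (L * ell2 P)
        (fun blk => g (outJ P stepf j (chunks (ell2 P) L blk))) with ha
      have h1 : (L + 1) * ell2 P = ell2 P + L * ell2 P := by ring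
      have h2 : ev ((L + 1) * ell2 P)
          (fun blk => g (outJ P stepf j (chunks (ell2 P) (L + 1) blk))) =
          ev (ell2 P) (fun ch => (if accJ P stepf j ch then g (zOf P stepf j ch) else 0)
            + a * (1 - if accJ P stepf j ch then 1 else 0)) := by
        rw [h1, ev_split]
        refine ev_congr (fun ch hch => ?_)
        simp only [chunks_append hch, outJ_cons]
        by_cases hacc : accJ P stepf j ch
        · simp [hacc]
        · simp [hacc, ha]
      rw [h2, ev_add, ev_acc hP h, ev_mul, ev_sub, ev_const]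
      have h3 := ev_acc hP h (fun _ => 1)
      rw [h3]
      have h4 : (Q / 2 ^ P.e + a * (1 - q / 2 ^ P.e)) * q - Q =
          (1 - q / 2 ^ P.e) * (a * q - Q) := by ring
      change |(Q / 2 ^ P.e + a * (1 - q / 2 ^ P.e)) * q - Q| ≤ _
      rw [h4, abs_mul, pow_succ, abs_of_nonneg (by linarith : (0 : ℝ) ≤ 1 - q / 2 ^ P.e)]
      have := mul_le_mul_of_nonneg_left ih (by linarith : (0 : ℝ) ≤ 1 - q / 2 ^ P.e)
      linarith
  have ha0 : 0 ≤ ev (L * ell2 P) (fun blk => g (outJ P stepf j (chunks (ell2 P) L blk))) :=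
    ev_nonneg (fun _ _ => hg0 _)
  have ha1 : ev (L * ell2 P) (fun blk => g (outJ P stepf j (chunks (ell2 P) L blk))) ≤ 1 :=
    ev_le (fun _ _ => hg1 _)
  have hk := abs_le.1 (key L)
  generalize ev (L * ell2 P) (fun blk => g (outJ P stepf j (chunks (ell2 P) L blk))) = a
    at ha0 ha1 hk ⊢
  have hf0 : 0 ≤ (1 - q / 2 ^ P.e) ^ L := pow_nonneg (by linarith) _
  have h5 : (1 - q / 2 ^ P.e) ^ L * q ≤ (1 - q / 2 ^ P.e) ^ L := mul_le_of_le_one_right hf0 hq1
  have h6 : a * (1 - q) ≤ 1 * (1 - q) := mul_le_mul_of_nonneg_right ha1 (by linarith)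
  have h7 : 0 ≤ a * (1 - q) := mul_nonneg ha0 (by linarith)
  rw [abs_le]
  constructor <;> linarith [hk.1, hk.2]

end

end Pool.Agent.FewPath
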