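import Pool.Agent.FewPath.Laut

namespace Pool.Agent.FewPath

open Classical

variable {A : List Bool → Bool}

theorem sum_prod_chunks (n m : ℕ) (h : List Bool → ℝ) :
    ∑ ρ ∈ bits (m * n), ((chunks n m ρ).map h).prod = (∑ c ∈ bits n, h c) ^ m := by
  induction m with
  | zero => simp [bits_zero]
  | succ m ih =>
    have : (m + 1) * n = n + m * n := by ring
    rw [this, sum_bits_add, pow_succ', ← ih, Finset.sum_mul]
    refine Finset.sum_congr rfl (fun l hl => ?_)
    rw [Finset.mul_sum]
    refine Finset.sum_congr rfl (fun k _ => ?_)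
    rw [chunks_append (mem_bits.1 hl), List.map_cons, List.prod_cons]

theorem exp_sum_map (l : List (List Bool)) (g : List Bool → ℝ) (lam : ℝ) :
    Real.exp (lam * (l.map g).sum) = (l.map (fun c => Real.exp (lam * g c))).prod := by
  induction l with
  | nil => simp
  | cons a l ih =>
    simp only [List.map_cons, List.sum_cons, List.prod_cons, mul_add, Real.exp_add, ih]

/-- A tail bound for sums of independent bounded variables with negative mean. -/
theorem tail_bound {n m s : ℕ} {g : List Bool → ℝ} {B : ℝ} (hB : 1 ≤ B)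
    (hg : ∀ c ∈ bits n, |g c| ≤ B) (hmean : (∑ c ∈ bits n, g c) / 2 ^ n ≤ -(1 / 20))
    (hm : 1600 * B ^ 2 * s ≤ m) :
    ((bits (m * n)).filter (fun ρ => 0 ≤ ((chunks n m ρ).map g).sum)).card * 2 ^ s ≤
      2 ^ (m * n) := by
  set lam : ℝ := 1 / (40 * B ^ 2) with hlam
  have hB2 : 0 < B ^ 2 := by positivity
  have hlam0 : 0 < lam := by positivity
  have h1 : ((bits (m * n)).filter (fun ρ => 0 ≤ ((chunks n m ρ).map g).sum)).card ≤
      (∑ c ∈ bits n, Real.exp (lam * g c)) ^ m := by
    rw [← sum_prod_chunks, Finset.card_filter]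
    push_cast
    refine Finset.sum_le_sum (fun ρ _ => ?_)
    rw [← exp_sum_map]
    split
    · rename_i h
      exact Real.one_le_exp (mul_nonneg hlam0.le h)
    · exact (Real.exp_pos _).le
  have h2 : ∀ c ∈ bits n, Real.exp (lam * g c) ≤ 1 + lam * g c + lam ^ 2 * B ^ 2 := by
    intro c hc
    have h3 := hg c hc
    have h4 : |lam * g c| ≤ 1 := by
      rw [abs_mul, abs_of_pos hlam0]
      have : lam * |g c| ≤ lam * B := mul_le_mul_of_nonneg_left h3 hlam0.le
      refine this.trans ?_
      rw [hlam, div_mul_eq_mul_div, div_le_one (by positivity)]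
      nlinarith
    have h5 := Real.abs_exp_sub_one_sub_id_le h4
    have h6 := (abs_le.1 h5).2
    have h7 : (lam * g c) ^ 2 ≤ lam ^ 2 * B ^ 2 := by
      rw [mul_pow]
      refine mul_le_mul_of_nonneg_left ?_ (by positivity)
      exact sq_le_sq' (by linarith [(abs_le.1 h3).1]) (abs_le.1 h3).2
    linarith
  have h3 : ∑ c ∈ bits n, Real.exp (lam * g c) ≤ 2 ^ n * Real.exp (-(1 / (1600 * B ^ 2))) := by
    have h4 := Finset.sum_le_sum h2
    rw [Finset.sum_add_distrib, Finset.sum_add_distrib, ← Finset.mul_sum, Finset.sum_const,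
      Finset.sum_const, card_bits] at h4
    refine h4.trans ?_
    have h5 : ∑ c ∈ bits n, g c ≤ -(1 / 20) * 2 ^ n := by
      rwa [div_le_iff₀ (by positivity)] at hmean
    have h6 : 1 - lam * (1 / 20) + lam ^ 2 * B ^ 2 ≤ Real.exp (-(1 / (1600 * B ^ 2))) := by
      have h7 := Real.add_one_le_exp (-(1 / (1600 * B ^ 2)))
      refine le_trans (le_of_eq ?_) h7
      rw [hlam]
      field_simp
      ring
    have h8 : lam * ∑ c ∈ bits n, g c ≤ lam * (-(1 / 20) * 2 ^ n) :=
      mul_le_mul_of_nonneg_left h5 hlam0.le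
    simp only [nsmul_eq_mul]
    push_cast
    have h9 := mul_le_mul_of_nonneg_left h6 (show (0 : ℝ) ≤ 2 ^ n by positivity)
    nlinarith
  have h4 : (∑ c ∈ bits n, Real.exp (lam * g c)) ^ m ≤ 2 ^ (m * n) * Real.exp (-(s : ℝ)) := by
    have h5 : 0 ≤ ∑ c ∈ bits n, Real.exp (lam * g c) :=
      Finset.sum_nonneg (fun c _ => (Real.exp_pos _).le)
    refine (pow_le_pow_left₀ h5 h3 m).trans ?_
    rw [mul_pow, ← pow_mul, mul_comm n m, ← Real.exp_nat_mul]
    refine mul_le_mul_of_nonneg_left (Real.exp_le_exp.2 ?_) (by positivity)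
    rw [mul_neg, neg_le_neg_iff, mul_one_div, le_div_iff₀ (by positivity)]
    linarith
  have h5 : Real.exp (-(s : ℝ)) * 2 ^ s ≤ 1 := by
    rw [Real.exp_neg, inv_mul_le_iff₀ (Real.exp_pos _), mul_one]
    have : (2 : ℝ) ≤ Real.exp 1 := by
      have := Real.add_one_le_exp (1 : ℝ); linarith
    calc (2 : ℝ) ^ s ≤ Real.exp 1 ^ s := pow_le_pow_left₀ (by norm_num) this s
      _ = Real.exp s := by rw [← Real.exp_nat_mul, mul_one]
  have h6 : (((bits (m * n)).filter (fun ρ => 0 ≤ ((chunks n m ρ).map g).sum)).card : ℝ) * 2 ^ s ≤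
      2 ^ (m * n) := by
    calc _ ≤ (2 ^ (m * n) * Real.exp (-(s : ℝ))) * 2 ^ s :=
          mul_le_mul_of_nonneg_right (h1.trans h4) (by positivity)
      _ = 2 ^ (m * n) * (Real.exp (-(s : ℝ)) * 2 ^ s) := by ring
      _ ≤ 2 ^ (m * n) * 1 := mul_le_mul_of_nonneg_left h5 (by positivity)
      _ = _ := mul_one _
  exact_mod_cast h6

theorem AMavg.toAMs {α : Type} [PTy α] {L : α → Prop} (h : AMavg A L) : AMs A L := by
  obtain ⟨β, _, ell, B, sc, pos, neg, ok, S, k, hell, hB, hsc, hpos, hneg, hok, hsc1, hSB, hlow,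
    hex, hyes, hno⟩ := h
  let m : α × ℕ → ℕ := fun p => 1600 * (B p.1 + 1) ^ 2 * p.2
  have hm : FP A m := FP.mul' (FP.mul' (FP.const 1600) (FP.pow' (FP.add' (FP.comp hB FP.fst)
    (FP.const 1)) 2)) FP.snd
  let ell' : α × ℕ → ℕ := fun p => m p * ell p.1
  have hell' : FP A ell' := FP.mul' hm (FP.comp hell FP.fst)
  let its : (α × ℕ) × List Bool × List β → List (List Bool × β) := fun q =>
    (chunks (ell q.1.1) (m q.1) q.2.1).zip q.2.2
  have hits : FP A its := FP.zip' (FP.chunks' (FP.comp hell (FP.fst' FP.fst))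
    (FP.comp hm FP.fst) (FP.fst' FP.snd)) (FP.snd' FP.snd)
  let V : (α × ℕ) × List Bool × List β → Bool := fun q =>
    decide (q.2.2.length = m q.1) && (its q).all (fun v => ok (q.1.1, v.1, v.2)) &&
      decide (2 * ((its q).map (fun v => pos (q.1.1, v.1, v.2))).sum ≤
        m q.1 * sc q.1.1 + 2 * ((its q).map (fun v => neg (q.1.1, v.1, v.2))).sum)
  have harg : FP A (fun p : ((α × ℕ) × List Bool × List β) × (List Bool × β) =>
      (p.1.1.1, p.2.1, p.2.2)) :=
    FP.pair (FP.fst' (FP.fst' FP.fst)) (FP.pair (FP.fst' FP.snd) (FP.snd' FP.snd))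
  have hV : FP A V := by
    refine FP.and' (FP.and' (FP.eqN' (FP.length' (FP.snd' FP.snd)) (FP.comp hm FP.fst))
      (FP.all' (f := fun (q : (α × ℕ) × List Bool × List β) v => ok (q.1.1, v.1, v.2)) hits
        (FP.comp hok harg)))
      (FP.le' (FP.mul' (FP.const 2) (FP.sum' (FP.map'
        (f := fun (q : (α × ℕ) × List Bool × List β) v => pos (q.1.1, v.1, v.2)) hits
        (FP.comp hpos harg))))
        (FP.add' (FP.mul' (FP.comp hm FP.fst) (FP.comp hsc (FP.fst' FP.fst)))
          (FP.mul' (FP.const 2) (FP.sum' (FP.map'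
        (f := fun (q : (α × ℕ) × List Bool × List β) v => neg (q.1.1, v.1, v.2)) hits
        (FP.comp hneg harg))))))
  obtain ⟨k', hk'⟩ := FP.bddNat (A := A) (f := fun p : α × ℕ => m p * (size p.1 + 1) ^ k + 1)
    (FP.add' (FP.mul' hm (FP.sizePow FP.fst k)) (FP.const 1))
  have habs : ∀ x c, c.length = ell x → |S x c / sc x| ≤ B x := by
    intro x c hc
    have h1 : (1 : ℝ) ≤ sc x := by exact_mod_cast hsc1 x
    rw [abs_div, abs_of_pos (by linarith : (0 : ℝ) < sc x)]
    exact (div_le_self (abs_nonneg _) h1).trans (hSB x c hc)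
  refine ⟨List β, inferInstance, ell', V, k', hell', hV, fun x s hx => ?_, fun x s hx => ?_⟩
  · -- completeness
    have hs0 : (0 : ℝ) < sc x := by
      have : (1 : ℝ) ≤ sc x := by exact_mod_cast hsc1 x
      linarith
    have ht := tail_bound (n := ell x) (m := m (x, s)) (s := s)
      (g := fun c => S x c / sc x - 1 / 2)
      (B := (B x : ℝ) + 1) (by linarith [show (0 : ℝ) ≤ B x from Nat.cast_nonneg _])
      (fun c hc => by
        have := abs_le.1 (habs x c (mem_bits.1 hc))
        rw [abs_le]; constructor <;> linarith)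
      (by
        rw [Finset.sum_sub_distrib, sub_div, Finset.sum_const, card_bits, nsmul_eq_mul]
        push_cast
        rw [mul_comm, mul_div_assoc, div_self (by positivity), ← Finset.sum_div, div_right_comm]
        have h1 := hyes x hx
        have h2 : (∑ ρ ∈ bits (ell x), S x ρ) / 2 ^ ell x / sc x ≤ 9 / 20 := by
          rw [div_le_iff₀ hs0]; exact h1
        linarith)
      (by simp only [m]; push_cast; exact le_rfl)
    refine le_trans (Nat.mul_le_mul_right _ (Finset.card_le_card (fun ρ hρ => ?_))) ht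
    rw [Finset.mem_filter] at hρ ⊢
    refine ⟨hρ.1, ?_⟩
    by_contra hneg'
    apply hρ.2
    rw [not_le] at hneg'
    have hlen : ρ.length = m (x, s) * ell x := mem_bits.1 hρ.1
    have hc : ∀ c ∈ chunks (ell x) (m (x, s)) ρ, c.length = ell x := fun c hc =>
      length_of_mem_chunks hlen hc
    have : Nonempty β := ⟨PTy.dflt inferInstance⟩
    choose! w hw1 hw2 hw3 using hex x
    have hzip : its ((x, s), ρ, (chunks (ell x) (m (x, s)) ρ).map w) =
        (chunks (ell x) (m (x, s)) ρ).map (fun c => (c, w c)) := by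
      simp only [its]
      generalize chunks (ell x) (m (x, s)) ρ = l
      induction l with
      | nil => rfl
      | cons a l ih => simp only [List.map_cons, List.zip_cons_cons, ih]
    refine ⟨(chunks (ell x) (m (x, s)) ρ).map w, ?_, ?_⟩
    · have h1 : ∀ v ∈ (chunks (ell x) (m (x, s)) ρ).map w, size v ≤ (size x + 1) ^ k := by
        intro v hv
        obtain ⟨c, hc1, rfl⟩ := List.mem_map.1 hv
        exact hw1 c (hc c hc1)
      have h2 := size_list_le h1
      rw [List.length_map, length_chunks] at h2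
      exact h2.trans (hk' (x, s))
    · simp only [V, hzip, Bool.and_eq_true, decide_eq_true_eq, List.all_eq_true, List.length_map,
        length_chunks, List.mem_map, forall_exists_index, and_imp, forall_apply_eq_imp_iff₂,
        List.map_map, Function.comp_def]
      refine ⟨⟨trivial, fun c hc1 => hw2 c (hc c hc1)⟩, ?_⟩
      have hsum : ∀ l : List (List Bool), (∀ c ∈ l, c.length = ell x) →
          (((l.map (fun c => pos (x, c, w c))).sum : ℕ) : ℝ) -
            (((l.map (fun c => neg (x, c, w c))).sum : ℕ) : ℝ) ≤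
            ((l.map (fun c => S x c / sc x - 1 / 2)).sum + l.length / 2) * sc x := by
        intro l hl
        induction l with
        | nil => simp
        | cons a l ih =>
          have h1 := ih (fun c hc => hl c (by simp [hc]))
          have h2 := hw3 a (hl a (by simp))
          have h3 : S x a / sc x * sc x = S x a := div_mul_cancel₀ _ hs0.ne'
          simp only [List.map_cons, List.sum_cons, List.length_cons]
          push_cast at h1 ⊢
          nlinarith
      have h1 := hsum _ hc
      rw [length_chunks] at h1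
      have h2 : (2 * (((chunks (ell x) (m (x, s)) ρ).map (fun c => pos (x, c, w c))).sum : ℕ) : ℝ)
          ≤ m (x, s) * sc x + 2 * (((chunks (ell x) (m (x, s)) ρ).map
            (fun c => neg (x, c, w c))).sum : ℕ) := by
        have h3 := mul_neg_of_neg_of_pos hneg' hs0
        nlinarith
      exact_mod_cast h2
  · -- soundness
    have hs0 : (0 : ℝ) < sc x := by
      have : (1 : ℝ) ≤ sc x := by exact_mod_cast hsc1 x
      linarith
    have ht := tail_bound (n := ell x) (m := m (x, s)) (s := s)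
      (g := fun c => 1 / 2 - S x c / sc x)
      (B := (B x : ℝ) + 1) (by linarith [show (0 : ℝ) ≤ B x from Nat.cast_nonneg _])
      (fun c hc => by
        have := abs_le.1 (habs x c (mem_bits.1 hc))
        rw [abs_le]; constructor <;> linarith)
      (by
        rw [Finset.sum_sub_distrib, sub_div, Finset.sum_const, card_bits, nsmul_eq_mul]
        push_cast
        rw [mul_comm, mul_div_assoc, div_self (by positivity), ← Finset.sum_div, div_right_comm]
        have h1 := hno x hx
        have h2 : 11 / 20 ≤ (∑ ρ ∈ bits (ell x), S x ρ) / 2 ^ ell x / sc x := by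
          rw [le_div_iff₀ hs0]; exact h1
        linarith)
      (by simp only [m]; push_cast; exact le_rfl)
    refine le_trans (Nat.mul_le_mul_right _ (Finset.card_le_card (fun ρ hρ => ?_))) ht
    rw [Finset.mem_filter] at hρ ⊢
    refine ⟨hρ.1, ?_⟩
    obtain ⟨hρ1, W, hW⟩ := hρ
    have hlen : ρ.length = m (x, s) * ell x := mem_bits.1 hρ1
    have hc : ∀ c ∈ chunks (ell x) (m (x, s)) ρ, c.length = ell x := fun c hc =>
      length_of_mem_chunks hlen hc
    simp only [V, its, Bool.and_eq_true, decide_eq_true_eq, List.all_eq_true] at hW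
    obtain ⟨⟨h1, h2⟩, h3⟩ := hW
    have hsum : ∀ (l : List (List Bool)) (W : List β), l.length = W.length →
        (∀ c ∈ l, c.length = ell x) → (∀ v ∈ l.zip W, ok (x, v.1, v.2) = true) →
        (-(l.length : ℝ) / 2 + (l.map (fun c => 1 / 2 - S x c / sc x)).sum) * sc x +
          ((((l.zip W).map (fun v => pos (x, v.1, v.2))).sum : ℕ) : ℝ) -
            ((((l.zip W).map (fun v => neg (x, v.1, v.2))).sum : ℕ) : ℝ) ≥ 0 := by
      intro l
      induction l with
      | nil => intro W _ _ _; simp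
      | cons a l ih =>
        intro W hlW hl hok
        cases W with
        | nil => simp at hlW
        | cons b W =>
          have h1 := ih W (by simpa using hlW) (fun c hc => hl c (by simp [hc]))
            (fun v hv => hok v (by simp [hv]))
          have h2 := hlow x a b (hl a (by simp)) (hok (a, b) (by simp))
          have h3 : S x a / sc x * sc x = S x a := div_mul_cancel₀ _ hs0.ne'
          simp only [List.zip_cons_cons, List.map_cons, List.sum_cons, List.length_cons]
          push_cast at h1 ⊢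
          nlinarith
    have h4 := hsum _ W (by rw [length_chunks]; exact h1.symm) hc h2
    rw [length_chunks] at h4
    have h5 : (2 * ((((chunks (ell x) (m (x, s)) ρ).zip W).map
        (fun v => pos (x, v.1, v.2))).sum : ℕ) : ℝ) ≤ m (x, s) * sc x + 2 *
          ((((chunks (ell x) (m (x, s)) ρ).zip W).map (fun v => neg (x, v.1, v.2))).sum : ℕ) := by
      exact_mod_cast h3
    have h6 : 0 ≤ ((chunks (ell x) (m (x, s)) ρ).map
        (fun c => 1 / 2 - S x c / sc x)).sum * sc x := by nlinarith
    exact nonneg_of_mul_nonneg_left h6 hs0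

theorem AMs.comp_and {α β : Type} [PTy α] [PTy β] {L : β → Prop} (h : AMs A L) {f : α → β}
    {c : α → Bool} (hf : FP A f) (hc : FP A c) : AMs A (fun x => c x = true ∧ L (f x)) := by
  obtain ⟨γ, _, ell, V, k, hell, hV, hyes, hno⟩ := h
  have harg : FP A (fun p : α × ℕ => (f p.1, p.2)) := FP.pair (FP.comp hf FP.fst) FP.snd
  obtain ⟨k', hk'⟩ := (FP.sizePow harg k).bddNat
  refine ⟨γ, inferInstance, fun p => ell (f p.1, p.2),
    fun q => c q.1.1 && V ((f q.1.1, q.1.2), q.2.1, q.2.2), k', FP.comp hell harg,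
    FP.and' (FP.comp hc (FP.fst' FP.fst)) (FP.comp hV (FP.pair (FP.pair
      (FP.comp hf (FP.fst' FP.fst)) (FP.snd' FP.fst)) (FP.pair (FP.fst' FP.snd)
        (FP.snd' FP.snd)))), ?_, ?_⟩
  · rintro x s ⟨hcx, hL⟩
    refine le_trans (Nat.mul_le_mul_right _ (Finset.card_le_card (fun ρ hρ => ?_)))
      (hyes (f x) s hL)
    rw [Finset.mem_filter] at hρ ⊢
    refine ⟨hρ.1, fun hh => hρ.2 ?_⟩
    obtain ⟨w, hw1, hw2⟩ := hh
    refine ⟨w, hw1.trans (hk' (x, s)), ?_⟩
    simp only [hcx, Bool.true_and]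
    exact hw2
  · intro x s hx
    by_cases hcx : c x = true
    · have hL : ¬ L (f x) := fun h => hx ⟨hcx, h⟩
      refine le_trans (Nat.mul_le_mul_right _ (Finset.card_le_card (fun ρ hρ => ?_)))
        (hno (f x) s hL)
      rw [Finset.mem_filter] at hρ ⊢
      refine ⟨hρ.1, ?_⟩
      obtain ⟨w, hw⟩ := hρ.2
      simp only [hcx, Bool.true_and] at hw
      exact ⟨w, hw⟩
    · have : (bits (ell (f x, s))).filter (fun ρ => ∃ w : γ,
          (c x && V ((f x, s), ρ, w)) = true) = ∅ := by
        refine Finset.filter_eq_empty_iff.2 (fun ρ _ hρ => ?_)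
        obtain ⟨w, hw⟩ := hρ
        rw [Bool.and_eq_true] at hw
        exact hcx hw.1
      dsimp only
      rw [this]
      simp

/-- If the complement of every NP set has classical proofs verified by Arthur–Merlin averages
then `PH = Σ₂`. -/
theorem collapse_of_avg (h : ∀ {α : Type} [PTy α] (L : α → Prop), Sig A 1 L →
    ∃ (β : Type) (_ : PTy β) (M : α × β → Prop) (k : ℕ), AMavg A M ∧
      ∀ x, ¬ L x ↔ ∃ y, size y ≤ (size x + 1) ^ k ∧ M (x, y)) :
    ∀ (n : ℕ) {α : Type} [PTy α] (L : α → Prop), Sig A n L → Sig A 2 L := by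
  refine collapse (fun {α} _ L hL => ?_)
  obtain ⟨β, _, M, k, hM, hL⟩ := hL
  obtain ⟨γ, _, M', k', hM', hMM⟩ := h _ hM
  have hf : FP A (fun p : α × β × γ => ((p.1, p.2.1), p.2.2)) :=
    FP.pair (FP.pair FP.fst (FP.fst' FP.snd)) (FP.snd' FP.snd)
  have hc : FP A (fun p : α × β × γ => decide (size p.2.1 ≤ (size p.1 + 1) ^ k) &&
      decide (size p.2.2 ≤ (size (p.1, p.2.1) + 1) ^ k')) :=
    FP.and' (FP.le' (FP.size' (FP.fst' FP.snd)) (FP.sizePow FP.fst k))
      (FP.le' (FP.size' (FP.snd' FP.snd)) (FP.sizePow (FP.pair FP.fst (FP.fst' FP.snd)) k'))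
  obtain ⟨K, hK⟩ := FP.bddNat (A := A) (f := fun x : α => (size x + 1) ^ k +
    (size x + (size x + 1) ^ k + 1) ^ k') (FP.add' (FP.sizePow FP.id k) (FP.pow' (FP.add'
      (FP.add' (FP.size' FP.id) (FP.sizePow FP.id k)) (FP.const 1)) k'))
  have h1 := pi2 (hM'.toAMs.comp_and hf hc) K
  refine h1.congr (fun x => ?_)
  rw [hL]
  refine not_congr ⟨?_, ?_⟩
  · rintro ⟨⟨y, u⟩, _, hc, hm⟩
    simp only [Bool.and_eq_true, decide_eq_true_eq] at hc
    exact ⟨y, hc.1, not_not.1 ((hMM (x, y)).2 ⟨u, hc.2, hm⟩)⟩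
  · rintro ⟨y, hy, hm⟩
    obtain ⟨u, hu, hm'⟩ := (hMM (x, y)).1 (not_not.2 hm)
    refine ⟨(y, u), ?_, ?_, hm'⟩
    · refine le_trans ?_ (hK x)
      rw [size_prod]
      refine Nat.add_le_add hy (hu.trans (Nat.pow_le_pow_left ?_ _))
      rw [size_prod]
      dsimp only
      omega
    · simp only [Bool.and_eq_true, decide_eq_true_eq]
      exact ⟨hy, hu⟩

end Pool.Agent.FewPath
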