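import Pool.Agent.FewPath.Run

namespace Pool.Agent.FewPath

open Classical

/-! ### Averages over a run -/

theorem ev_sum_chunks (n : ℕ) (f : List Bool → ℝ) (k : ℕ) :
    ev (k * n) (fun l => ((chunks n k l).map f).sum) = k * ev n f := by
  induction k with
  | zero => simp [ev, bits_zero]
  | succ k ih =>
    have h1 : (k + 1) * n = n + k * n := by ring
    rw [h1, ev_split]
    have h2 : ev n (fun l => ev (k * n) (fun l' => ((chunks n (k + 1) (l ++ l')).map f).sum)) =
        ev n (fun l => f l + k * ev n f) := by
      refine ev_congr (fun l hl => ?_)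
      rw [← ih, ← ev_const (k * n) (f l), ← ev_add]
      refine ev_congr (fun l' _ => ?_)
      rw [chunks_append hl, List.map_cons, List.sum_cons]
    rw [h2, ev_add, ev_const]
    push_cast
    ring

theorem ev_sum_zip (n : ℕ) (F : ℕ → List Bool → ℝ) (js : List ℕ) :
    ev (js.length * n) (fun l => ((js.zip (chunks n js.length l)).map
      (fun p => F p.1 p.2)).sum) = (js.map (fun j => ev n (F j))).sum := by
  induction js with
  | nil => simp [ev, bits_zero]
  | cons j js ih =>
    have h1 : (j :: js).length * n = n + js.length * n := by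
      rw [List.length_cons]; ring
    rw [h1, ev_split]
    have h2 : ev n (fun l => ev (js.length * n) (fun l' => (((j :: js).zip
        (chunks n (j :: js).length (l ++ l'))).map (fun p => F p.1 p.2)).sum)) =
        ev n (fun l => F j l + (js.map (fun j => ev n (F j))).sum) := by
      refine ev_congr (fun l hl => ?_)
      rw [← ih, ← ev_const (js.length * n) (F j l), ← ev_add]
      refine ev_congr (fun l' _ => ?_)
      rw [List.length_cons, chunks_append hl, List.zip_cons_cons, List.map_cons, List.sum_cons]
    rw [h2, ev_add, ev_const, List.map_cons, List.sum_cons]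

/-! ### The expectation over the outcomes -/

section

variable {m T : ℕ} {stepf backf : ℕ → List Bool → List Bool}

theorem qE_mono (js : List ℕ) : ∀ {f g : List (List Bool) → ℝ}, (∀ z, f z ≤ g z) →
    qE m T backf js f ≤ qE m T backf js g := by
  induction js with
  | nil => intro f g hg; exact hg []
  | cons j js ih =>
    intro f g hg
    exact Finset.sum_le_sum (fun z _ => mul_le_mul_of_nonneg_left (ih (fun zs => hg _))
      (sq_nonneg _))

theorem qE_add (js : List ℕ) : ∀ (f g : List (List Bool) → ℝ),
    qE m T backf js (fun z => f z + g z) = qE m T backf js f + qE m T backf js g := by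
  induction js with
  | nil => intro f g; rfl
  | cons j js ih =>
    intro f g
    simp only [qE_cons, ih, mul_add, Finset.sum_add_distrib]

theorem qE_mul (js : List ℕ) (c : ℝ) : ∀ (f : List (List Bool) → ℝ),
    qE m T backf js (fun z => c * f z) = c * qE m T backf js f := by
  induction js with
  | nil => intro f; rfl
  | cons j js ih =>
    intro f
    simp only [qE_cons, ih, Finset.mul_sum]
    refine Finset.sum_congr rfl (fun z _ => ?_)
    ring

theorem qE_const {js : List ℕ} (h : ∀ j ∈ js, IsPerm m (stepf j) (backf j)) (c : ℝ) :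
    qE m T backf js (fun _ => c) = c := by
  induction js with
  | nil => rfl
  | cons j js ih =>
    rw [qE_cons, ih (fun i hi => h i (List.mem_cons_of_mem _ hi)), ← Finset.sum_mul,
      norm_amp (h j List.mem_cons_self), one_mul]

theorem qE_zero (js : List ℕ) : qE m T backf js (fun _ => 0) = 0 := by
  have := qE_mul (m := m) (T := T) (backf := backf) js 0 (fun _ => 0)
  simpa using this

theorem qE_nonneg (js : List ℕ) {g : List (List Bool) → ℝ} (hg : ∀ z, 0 ≤ g z) :
    0 ≤ qE m T backf js g := by
  rw [← qE_zero (m := m) (T := T) (backf := backf) js]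
  exact qE_mono js hg

end

/-! ### Numerical bounds -/

theorem prod_bound (l : List ℝ) (h : ∀ q ∈ l, 0 ≤ q ∧ q ≤ 1) :
    (1 + (l.map (fun q => 1 - q)).sum) * l.prod ≤ 1 ∧ 0 ≤ l.prod ∧ l.prod ≤ 1 ∧
      0 ≤ (l.map (fun q => 1 - q)).sum ∧ ∀ q ∈ l, l.prod ≤ q := by
  induction l with
  | nil => simp
  | cons q l ih =>
    obtain ⟨h1, h2, h3, h4, h5⟩ := ih (fun r hr => h r (List.mem_cons_of_mem _ hr))
    obtain ⟨hq0, hq1⟩ := h q List.mem_cons_self
    rw [List.map_cons, List.sum_cons, List.prod_cons]
    refine ⟨?_, mul_nonneg hq0 h2, mul_le_one₀ hq1 h2 h3, by linarith, fun r hr => ?_⟩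
    · have e1 : q * (2 - q) ≤ 1 := by nlinarith [sq_nonneg (1 - q)]
      have e2 := mul_le_mul_of_nonneg_right e1 h2
      have e3 := mul_le_mul_of_nonneg_right hq1 (mul_nonneg h4 h2)
      linarith
    · rcases List.mem_cons.1 hr with rfl | hr
      · exact mul_le_of_le_one_right hq0 h3
      · exact (mul_le_of_le_one_left h2 hq1).trans (h5 r hr)

theorem pow_bound {y : ℝ} (h0 : 0 ≤ y) (h1 : y ≤ 1) (L : ℕ) :
    (1 - y) ^ L * (1 + L * y) ≤ 1 := by
  have h2 := one_add_mul_le_pow (show (-2 : ℝ) ≤ y by linarith) L
  calc (1 - y) ^ L * (1 + L * y) ≤ (1 - y) ^ L * (1 + y) ^ L :=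
        mul_le_mul_of_nonneg_left h2 (pow_nonneg (by linarith) _)
    _ = ((1 - y) * (1 + y)) ^ L := (mul_pow _ _ _).symm
    _ ≤ 1 := pow_le_one₀ (mul_nonneg (by linarith) (by linarith)) (by nlinarith)

section

variable (P : Par) (stepf backf : ℕ → List Bool → List Bool)

/-- The outcomes of all calls. -/
noncomputable def outsJ (js : List ℕ) (blks : List (List Bool)) : List (List Bool) :=
  (js.zip blks).map (fun p => outJ P stepf p.1 (chunks (ell2 P) P.L p.2))

/-- The sum of the statistics of all candidates. -/
noncomputable def zsum (js : List ℕ) (blks : List (List Bool)) : ℝ :=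
  ((js.zip blks).map (fun p =>
    ((chunks (ell2 P) P.L p.2).map (zetaJ P stepf p.1)).sum)).sum

/-- Some outcome is reached by many paths. -/
def hvy (js : List ℕ) (zs : List (List Bool)) : Prop :=
  ∃ p ∈ js.zip zs, ¬ light P.m (stepf p.1) P.T P.K p.2

/-- The expectation restricted to outcomes with few paths. -/
noncomputable def qlE (js : List ℕ) (g : List (List Bool) → ℝ) : ℝ :=
  qE P.m P.T backf js (fun zs => if hvy P stepf js zs then 0 else g zs)

variable {P stepf backf}

theorem hvy_cons (j : ℕ) (js : List ℕ) (z : List Bool) (zs : List (List Bool)) :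
    hvy P stepf (j :: js) (z :: zs) ↔
      ¬ light P.m (stepf j) P.T P.K z ∨ hvy P stepf js zs := by
  rw [hvy, List.zip_cons_cons]
  simp only [List.mem_cons, exists_eq_or_imp]
  rfl

theorem qlE_cons (j : ℕ) (js : List ℕ) (g : List (List Bool) → ℝ) :
    qlE P stepf backf (j :: js) g =
      Ql P stepf backf j (fun z => qlE P stepf backf js (fun zs => g (z :: zs))) := by
  rw [qlE, qE_cons, Ql]
  refine Finset.sum_congr rfl (fun z _ => ?_)
  by_cases h : light P.m (stepf j) P.T P.K z
  · rw [if_pos h]
    simp only [hvy_cons, h, not_true_eq_false, false_or]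
    rfl
  · rw [if_neg h]
    simp only [hvy_cons, h, not_false_eq_true, true_or, if_true]
    rw [qE_zero, mul_zero]

theorem Ql_const (j : ℕ) (c : ℝ) : Ql P stepf backf j (fun _ => c) =
    Ql P stepf backf j (fun _ => 1) * c := by
  rw [Ql, Ql, Finset.sum_mul]
  refine Finset.sum_congr rfl (fun z _ => ?_)
  split
  · ring
  · simp

theorem qlE_one (js : List ℕ) : qlE P stepf backf js (fun _ => 1) =
    (js.map (fun j => Ql P stepf backf j (fun _ => 1))).prod := by
  induction js with
  | nil => simp [qlE, qE_nil, hvy]
  | cons j js ih =>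
    rw [qlE_cons, ih, Ql_const, List.map_cons, List.prod_cons]

theorem ev_run (hP : P.Ok) {js : List ℕ} (h : ∀ j ∈ js, IsPerm P.m (stepf j) (backf j)) :
    ∀ {g : List (List Bool) → ℝ}, (∀ z, 0 ≤ g z) → (∀ z, g z ≤ 1) →
    |ev (js.length * (P.L * ell2 P)) (fun l =>
      g (outsJ P stepf js (chunks (P.L * ell2 P) js.length l))) -
      qlE P stepf backf js g| ≤ (js.map (fun j => (1 - Ql P stepf backf j (fun _ => 1)) +
        (1 - Ql P stepf backf j (fun _ => 1) / 2 ^ P.e) ^ P.L)).sum := by
  induction js with
  | nil =>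
    intro g hg0 hg1
    simp [ev, bits_zero, outsJ, qE_nil, qlE, hvy]
  | cons j js ih =>
    intro g hg0 hg1
    have ih := fun {g : List (List Bool) → ℝ} =>
      ih (fun i hi => h i (List.mem_cons_of_mem _ hi)) (g := g)
    have hp := h j List.mem_cons_self
    set n := P.L * ell2 P with hn
    have h1 : (j :: js).length * n = n + js.length * n := by
      rw [List.length_cons]; ring
    have h2 : ev ((j :: js).length * n) (fun l =>
        g (outsJ P stepf (j :: js) (chunks n (j :: js).length l))) =
        ev n (fun l => (fun z => ev (js.length * n) (fun l' => g (z ::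
          outsJ P stepf js (chunks n js.length l'))))
            (outJ P stepf j (chunks (ell2 P) P.L l))) := by
      rw [h1, ev_split]
      refine ev_congr (fun l hl => ev_congr (fun l' _ => ?_))
      rw [List.length_cons, chunks_append hl]
      rfl
    set G : List Bool → ℝ := fun z => ev (js.length * n) (fun l' => g (z ::
          outsJ P stepf js (chunks n js.length l'))) with hG
    have hG0 : ∀ z, 0 ≤ G z := fun z => ev_nonneg (fun _ _ => hg0 _)
    have hG1 : ∀ z, G z ≤ 1 := fun z => ev_le (fun _ _ => hg1 _)
    have h3 := ev_block hP hp hG0 hG1 P.L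
    set δ := (js.map (fun j => (1 - Ql P stepf backf j (fun _ => 1)) +
        (1 - Ql P stepf backf j (fun _ => 1) / 2 ^ P.e) ^ P.L)).sum with hδ
    have hδ0 : 0 ≤ δ := (abs_nonneg _).trans (ih (g := fun _ => 0) (fun _ => le_rfl)
      (fun _ => zero_le_one))
    have h4 : |Ql P stepf backf j G - qlE P stepf backf (j :: js) g| ≤ δ := by
      rw [qlE_cons, Ql, Ql, ← Finset.sum_sub_distrib]
      refine (Finset.abs_sum_le_sum_abs _ _).trans ?_
      calc _ ≤ ∑ z ∈ bits P.m, amp P.m (backf j) P.T z ^ 2 * δ := by
            refine Finset.sum_le_sum (fun z _ => ?_)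
            split
            · rw [← mul_sub, abs_mul, abs_of_nonneg (sq_nonneg _)]
              have h6 := ih (g := fun zs => g (z :: zs)) (fun _ => hg0 _) (fun _ => hg1 _)
              exact mul_le_mul_of_nonneg_left h6 (sq_nonneg _)
            · rw [sub_zero, abs_zero]
              exact mul_nonneg (sq_nonneg _) hδ0
        _ = _ := by rw [← Finset.sum_mul, norm_amp hp P.T, one_mul]
    rw [h2, List.map_cons, List.sum_cons]
    have h5 := abs_sub_le (ev n (fun l => G (outJ P stepf j (chunks (ell2 P) P.L l))))
      (Ql P stepf backf j G) (qlE P stepf backf (j :: js) g)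
    exact h5.trans (add_le_add h3 h4)

theorem run_err (hP : P.Ok) {js : List ℕ} (h : ∀ j ∈ js, IsPerm P.m (stepf j) (backf j))
    {Mx : ℕ} (hMx : 0 < Mx) (hL : 2 ^ P.e * (2 * Mx) ≤ P.L)
    {g : List (List Bool) → ℝ} (hg0 : ∀ z, 0 ≤ g z) (hg1 : ∀ z, g z ≤ 1) :
    |ev (js.length * (P.L * ell2 P)) (fun l =>
      g (outsJ P stepf js (chunks (P.L * ell2 P) js.length l))) -
      qE P.m P.T backf js g| ≤
      3 * qE P.m P.T backf js (fun zs => if hvy P stepf js zs then 1 else 0) +
        js.length / Mx := by
  set H := qE P.m P.T backf js (fun zs => if hvy P stepf js zs then 1 else 0) with hH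
  have hH0 : 0 ≤ H := qE_nonneg js (fun z => by split <;> norm_num)
  have hMx0 : (0 : ℝ) < Mx := by exact_mod_cast hMx
  have hlen : (0 : ℝ) ≤ js.length / Mx := by positivity
  rcases le_or_gt H (1 / 2) with h1 | h1
  · have h2 := ev_run hP h hg0 hg1
    set E := ev (js.length * (P.L * ell2 P)) (fun l =>
      g (outsJ P stepf js (chunks (P.L * ell2 P) js.length l)))
    -- the restricted expectation
    have h3 : qlE P stepf backf js g ≤ qE P.m P.T backf js g := qE_mono js (fun z => by
      split
      · exact hg0 z
      · exact le_rfl)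
    have h4 : qE P.m P.T backf js g ≤ qlE P stepf backf js g + H := by
      rw [qlE, hH, ← qE_add]
      refine qE_mono js (fun z => ?_)
      split
      · rw [zero_add]; exact hg1 z
      · rw [add_zero]
    have h5 : qlE P stepf backf js (fun _ => 1) + H = 1 := by
      rw [qlE, hH, ← qE_add]
      refine Eq.trans ?_ (qE_const (T := P.T) h 1)
      congr 1
      funext z
      split <;> norm_num
    rw [qlE_one] at h5
    have hq : ∀ q ∈ js.map (fun j => Ql P stepf backf j (fun _ => 1)), 0 ≤ q ∧ q ≤ 1 := by
      intro q hq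
      obtain ⟨j, hj, rfl⟩ := List.mem_map.1 hq
      exact ⟨Ql_nonneg (fun _ => zero_le_one), Ql_one_le (h j hj)⟩
    obtain ⟨p1, p2, p3, p4, p5⟩ := prod_bound _ hq
    set Pr := (js.map (fun j => Ql P stepf backf j (fun _ => 1))).prod with hPr
    rw [List.map_map] at p1 p4
    set S := (js.map ((fun q => 1 - q) ∘ (fun j => Ql P stepf backf j (fun _ => 1)))).sum
      with hS
    have h6 : S ≤ 2 * H := by nlinarith
    have h7 : (js.map (fun j => (1 - Ql P stepf backf j (fun _ => 1)) +
        (1 - Ql P stepf backf j (fun _ => 1) / 2 ^ P.e) ^ P.L)).sum ≤ S + js.length / Mx := by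
      have h8 : ∀ l : List ℕ, (∀ j ∈ l, j ∈ js) →
          (l.map (fun j => (1 - Ql P stepf backf j (fun _ => 1)) +
            (1 - Ql P stepf backf j (fun _ => 1) / 2 ^ P.e) ^ P.L)).sum ≤
          (l.map ((fun q => 1 - q) ∘ (fun j => Ql P stepf backf j (fun _ => 1)))).sum +
            l.length / Mx := by
        intro l
        induction l with
        | nil => intro _; simp
        | cons j l ih =>
          intro hl
          have ih := ih (fun i hi => hl i (List.mem_cons_of_mem _ hi))
          have hj := hl j List.mem_cons_self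
          have hjm : Ql P stepf backf j (fun _ => 1) ∈
              js.map (fun j => Ql P stepf backf j (fun _ => 1)) := List.mem_map.2 ⟨j, hj, rfl⟩
          have hj1 := p5 _ hjm
          have hj2 := hq _ hjm
          rw [List.map_cons, List.sum_cons, List.map_cons, List.sum_cons, List.length_cons]
          simp only [Function.comp]
          set q := Ql P stepf backf j (fun _ => 1) with hqd
          have he : (0 : ℝ) < 2 ^ P.e := by positivity
          have e1 : q / 2 ^ P.e ≤ 1 := by
            rw [div_le_one he]; exact hj2.2.trans (one_le_pow₀ (by norm_num))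
          have e2 := pow_bound (div_nonneg hj2.1 he.le) e1 P.L
          have e3 : (Mx : ℝ) ≤ P.L * (q / 2 ^ P.e) := by
            have e4 : ((2 ^ P.e * (2 * Mx) : ℕ) : ℝ) ≤ P.L := by exact_mod_cast hL
            push_cast at e4
            have e5 : (1 / 2 : ℝ) ≤ q := by linarith
            rw [← mul_div_assoc, le_div_iff₀ he]
            have e6 := mul_le_mul_of_nonneg_right e4 hj2.1
            have e7 : (0 : ℝ) ≤ 2 ^ P.e * (2 * Mx) := by positivity
            have e8 := mul_le_mul_of_nonneg_left e5 e7
            linarith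
          have e9 : (1 - q / 2 ^ P.e) ^ P.L ≤ 1 / Mx := by
            rw [le_div_iff₀ hMx0]
            have e10 : 0 ≤ (1 - q / 2 ^ P.e) ^ P.L := pow_nonneg (by linarith) _
            have e11 := mul_le_mul_of_nonneg_left e3 e10
            linarith
          push_cast
          rw [add_div]
          linarith
      exact h8 js (fun _ hj => hj)
    rw [abs_le] at h2 ⊢
    constructor <;> linarith [h2.1, h2.2]
  · have h2 : 0 ≤ ev (js.length * (P.L * ell2 P)) (fun l =>
      g (outsJ P stepf js (chunks (P.L * ell2 P) js.length l))) := ev_nonneg (fun _ _ => hg0 _)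
    have h3 : ev (js.length * (P.L * ell2 P)) (fun l =>
      g (outsJ P stepf js (chunks (P.L * ell2 P) js.length l))) ≤ 1 := ev_le (fun _ _ => hg1 _)
    have h4 : 0 ≤ qE P.m P.T backf js g := qE_nonneg js hg0
    have h5 : qE P.m P.T backf js g ≤ 1 := by
      have := qE_mono (m := P.m) (T := P.T) (backf := backf) js hg1
      rwa [qE_const h (1 : ℝ)] at this
    rw [abs_le]
    constructor <;> linarith

theorem ev_zsum (hP : P.Ok) {js : List ℕ} (h : ∀ j ∈ js, IsPerm P.m (stepf j) (backf j)) :
    0 ≤ ev (js.length * (P.L * ell2 P)) (fun l =>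
      zsum P stepf js (chunks (P.L * ell2 P) js.length l)) ∧
    ev (js.length * (P.L * ell2 P)) (fun l =>
      zsum P stepf js (chunks (P.L * ell2 P) js.length l)) ≤ js.length * (P.L * 2) := by
  have h1 := ev_sum_zip (P.L * ell2 P) (fun j blk =>
    ((chunks (ell2 P) P.L blk).map (zetaJ P stepf j)).sum) js
  have h2 : ev (js.length * (P.L * ell2 P)) (fun l =>
      zsum P stepf js (chunks (P.L * ell2 P) js.length l)) =
      (js.map (fun j => (P.L : ℝ) * ev (ell2 P) (zetaJ P stepf j))).sum := by
    refine Eq.trans (Eq.trans rfl h1) ?_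
    congr 1
    refine List.map_congr_left (fun j _ => ?_)
    rw [ev_sum_chunks]
  rw [h2]
  clear h1 h2
  induction js with
  | nil => simp
  | cons j js ih =>
    have ih := ih (fun i hi => h i (List.mem_cons_of_mem _ hi))
    have h3 := ev_zeta hP (h j List.mem_cons_self)
    have hL : (0 : ℝ) ≤ P.L := Nat.cast_nonneg _
    simp only [List.map_cons, List.sum_cons, List.length_cons]
    constructor
    · exact add_nonneg (mul_nonneg hL h3.1) ih.1
    · have := mul_le_mul_of_nonneg_left h3.2 hL
      push_cast
      linarith [ih.2]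

end

end Pool.Agent.FewPath
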