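import Pool.Agent.FewPath.Wit

namespace Pool.Agent.FewPath

open Classical

/-! ### Witnesses for one candidate -/

/-- The type of witnesses for one candidate. -/
abbrev WC := List (List Bool) × List (List Bool)

section

variable (P : Par) (stepf backf : ℕ → List Bool → List Bool)

/-- The checks for one candidate. -/
def chk (j : ℕ) (ch : List Bool) (w : WC) : Prop :=
  (w.1.Nodup ∧ ∀ p ∈ w.1, p.length = P.T ∧ endOf P.m (stepf j) p = zOf P stepf j ch) ∧
  (w.2.Nodup ∧ ∀ p ∈ w.2, p.length = P.T ∧ endOf P.m (stepf j) p =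
    endOf P.m (stepf j) (w.2.headD [])) ∧
  (w.2 = [] ∨ hit (endOf P.m (stepf j) (w.2.headD [])) (rowsOf P ch) = true)

def posC (w : WC) : ℕ := ph P.K P.s (min w.1.length P.Kp)

def negC (w : WC) : ℕ := 2 ^ P.c * om P.K P.s w.2.length

/-- The net number of paths computed from a list. -/
def netW (j : ℕ) (l : List (List Bool)) : ℕ :=
  ((l.filter (fun p => !sgn P.m (stepf j) p)).length -
    (l.filter (fun p => sgn P.m (stepf j) p)).length)
  + ((l.filter (fun p => sgn P.m (stepf j) p)).length -
    (l.filter (fun p => !sgn P.m (stepf j) p)).length)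

/-- The acceptance test computed from a list. -/
def accW (j : ℕ) (ch : List Bool) (l : List (List Bool)) : Bool :=
  decide (l.length ≤ P.K) &&
  (decide ((l.filter (fun q => lexLt q (ch.take P.T))).length < netW P stepf j l) &&
    decide (binval (iOf P ch) < netW P stepf j l))

/-- The list is short and incomplete. -/
def bad (j : ℕ) (ch : List Bool) (w : WC) : Prop :=
  w.1.length ≤ P.K ∧ w.1.length < nf P stepf j (zOf P stepf j ch)

variable {P stepf backf}

theorem chk_length {j : ℕ} {ch : List Bool} {w : WC} (h : chk P stepf j ch w) :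
    w.1.toFinset ⊆ fib P.m (stepf j) P.T (zOf P stepf j ch) ∧
      w.1.length ≤ nf P stepf j (zOf P stepf j ch) := by
  obtain ⟨⟨h1, h2⟩, _⟩ := h
  have h3 : w.1.toFinset ⊆ fib P.m (stepf j) P.T (zOf P stepf j ch) := by
    intro p hp
    have := h2 p (List.mem_toFinset.1 hp)
    exact Finset.mem_filter.2 ⟨mem_bits.2 this.1, this.2⟩
  refine ⟨h3, ?_⟩
  rw [← List.toFinset_card_of_nodup h1, nf]
  exact Finset.card_le_card h3

theorem filter_length {l : List (List Bool)} (hl : l.Nodup) (q : List Bool → Bool) :
    (l.filter q).length = (l.toFinset.filter (fun p => q p = true)).card := by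
  rw [← List.toFinset_filter, List.toFinset_card_of_nodup (hl.filter q)]

theorem accW_iff {j : ℕ} {ch : List Bool} {w : WC} (h : chk P stepf j ch w)
    (hl : ¬ bad P stepf j ch w) :
    accW P stepf j ch w.1 = true ↔ accJ P stepf j ch := by
  have h1 := chk_length h
  have hnd := h.1.1
  by_cases hK : w.1.length ≤ P.K
  · have h0 : w.1.length = nf P stepf j (zOf P stepf j ch) := by
      rw [bad] at hl
      have := h1.2
      omega
    have h2 : w.1.toFinset = fib P.m (stepf j) P.T (zOf P stepf j ch) :=
      Finset.eq_of_subset_of_card_le h1.1 (by rw [List.toFinset_card_of_nodup hnd, h0]; rfl)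
    have h3 : netW P stepf j w.1 = net P.m (stepf j) P.T (zOf P stepf j ch) := by
      rw [netW, net, filter_length hnd, filter_length hnd, h2]
      simp only [Bool.not_eq_true']
    have h4 : light P.m (stepf j) P.T P.K (endOf P.m (stepf j) (ch.take P.T)) := by
      have : nf P stepf j (zOf P stepf j ch) ≤ P.K := h0 ▸ hK
      exact this
    rw [accW, accJ, accept, h3, filter_length hnd, h2]
    simp only [Bool.and_eq_true, decide_eq_true_eq, hK, h4, true_and]
    rfl
  · have h2 : ¬ accJ P stepf j ch := by
      intro h3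
      have h4 : nf P stepf j (zOf P stepf j ch) ≤ P.K := h3.1
      have := h1.2
      omega
    simp [accW, hK, h2]

theorem cand_lower {j : ℕ} {ch : List Bool} {w : WC} (hP : P.Ok)
    (hp : IsPerm P.m (stepf j) (backf j)) (h : chk P stepf j ch w) :
    zetaJ P stepf j ch + P.s * (if bad P stepf j ch w then 1 else 0 : ℕ) ≤
      (posC P w : ℝ) - negC P w := by
  have h1 := (chk_length h).2
  have h3 : ph P.K P.s (min (nf P stepf j (zOf P stepf j ch)) P.Kp) +
      P.s * (if bad P stepf j ch w then 1 else 0) ≤ posC P w := by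
    rw [posC]
    split
    · rename_i hb
      obtain ⟨b1, b2⟩ := hb
      have b3 := hP.Kp_ge
      rw [Nat.min_eq_left (show w.1.length ≤ P.Kp by omega), mul_one]
      exact ph_gap hP.s_ge b1 (by omega)
    · rw [mul_zero, add_zero]
      exact ph_anti hP.s_ge (by omega)
  have h4 : negC P w ≤ 2 ^ P.c * maxw P.m (fun z => om P.K P.s (nf P stepf j z))
      (rowsOf P ch) := by
    rw [negC]
    refine Nat.mul_le_mul_left _ ?_
    obtain ⟨_, ⟨h5, h6⟩, h7⟩ := h
    rcases h7 with h7 | h7
    · rw [h7]; simp
    · set z' := endOf P.m (stepf j) (w.2.headD []) with hz'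
      have h8 : w.2.length ≤ nf P stepf j z' := by
        rw [← List.toFinset_card_of_nodup h5]
        refine Finset.card_le_card (fun p hp' => ?_)
        have := h6 p (List.mem_toFinset.1 hp')
        exact Finset.mem_filter.2 ⟨mem_bits.2 this.1, this.2⟩
      refine (om_mono h8).trans ?_
      exact Finset.le_sup (f := fun z => om P.K P.s (nf P stepf j z))
        (Finset.mem_filter.2 ⟨mem_bits.2 (length_endOf hp _), h7⟩)
  have h5 : (negC P w : ℝ) ≤ 2 ^ P.c * (maxw P.m (fun z => om P.K P.s (nf P stepf j z))
      (rowsOf P ch) : ℝ) := by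
    exact_mod_cast h4
  have h6 : ((ph P.K P.s (min (nf P stepf j (zOf P stepf j ch)) P.Kp) : ℕ) : ℝ) +
      P.s * ((if bad P stepf j ch w then 1 else 0 : ℕ) : ℝ) ≤ posC P w := by
    exact_mod_cast h3
  rw [zetaJ]
  linarith

theorem cand_exists {j : ℕ} (ch : List Bool) (hP : P.Ok) :
    ∃ w : WC, chk P stepf j ch w ∧ ¬ bad P stepf j ch w ∧
      (posC P w : ℝ) - negC P w = zetaJ P stepf j ch ∧
      size w ≤ 2 * (P.Kp * (P.T + 1) + 1) := by
  have hfib : ∀ z n, (∀ p ∈ (fib P.m (stepf j) P.T z).toList.take n, p.length = P.T ∧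
      endOf P.m (stepf j) p = z) := by
    intro z n p hp'
    have hp' := List.mem_of_mem_take hp'
    rw [Finset.mem_toList, fib, Finset.mem_filter, mem_bits] at hp'
    exact hp'
  have hnd : ∀ z n, ((fib P.m (stepf j) P.T z).toList.take n).Nodup := fun z n =>
    (Finset.nodup_toList _).sublist (List.take_sublist _ _)
  have hlen : ∀ z n, ((fib P.m (stepf j) P.T z).toList.take n).length =
      min n (nf P stepf j z) := fun z n => by
    rw [List.length_take, Finset.length_toList]; rfl
  have hsz : ∀ z n, n ≤ P.Kp →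
      size ((fib P.m (stepf j) P.T z).toList.take n) ≤ P.Kp * (P.T + 1) + 1 := by
    intro z n hn
    have h1 : ∀ p ∈ (fib P.m (stepf j) P.T z).toList.take n, size p ≤ P.T + 1 :=
      fun p hp' => by rw [size_bits, (hfib z n p hp').1]
    refine (size_list_le h1).trans ?_
    rw [hlen]
    exact Nat.add_le_add_right (Nat.mul_le_mul_right _ (by omega)) 1
  have hKp := hP.Kp_ge
  set rows := rowsOf P ch with hrows
  have hex : ∃ l : List (List Bool), (l.Nodup ∧ ∀ p ∈ l, p.length = P.T ∧
      endOf P.m (stepf j) p = endOf P.m (stepf j) (l.headD [])) ∧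
      (l = [] ∨ hit (endOf P.m (stepf j) (l.headD [])) rows = true) ∧
      om P.K P.s l.length = maxw P.m (fun z => om P.K P.s (nf P stepf j z)) rows ∧
      size l ≤ P.Kp * (P.T + 1) + 1 := by
    by_cases h0 : maxw P.m (fun z => om P.K P.s (nf P stepf j z)) rows = 0
    · exact ⟨[], by simp, Or.inl rfl, by rw [h0]; simp, by simp⟩
    · have hne : ((bits P.m).filter (fun z => hit z rows = true)).Nonempty := by
        rw [Finset.nonempty_iff_ne_empty]
        intro h1
        apply h0
        rw [maxw, h1]; rfl
      obtain ⟨z', hz', hmax⟩ := Finset.exists_mem_eq_sup _ hne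
        (fun z => om P.K P.s (nf P stepf j z))
      rw [Finset.mem_filter, mem_bits] at hz'
      have hpos : nf P stepf j z' ≠ 0 := by
        intro h1
        apply h0
        rw [maxw, hmax, h1, om_zero]
      have hhead : endOf P.m (stepf j)
          (((fib P.m (stepf j) P.T z').toList.take (P.K + 1)).headD []) = z' := by
        cases hl : (fib P.m (stepf j) P.T z').toList.take (P.K + 1) with
        | nil =>
          have h1 := hlen z' (P.K + 1)
          rw [hl, List.length_nil] at h1
          omega
        | cons a l =>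
          rw [List.headD_cons]
          exact (hfib z' (P.K + 1) a (by rw [hl]; simp)).2
      refine ⟨(fib P.m (stepf j) P.T z').toList.take (P.K + 1), ⟨hnd _ _, fun p hp' => ?_⟩,
        Or.inr (by rw [hhead]; exact hz'.2), ?_, hsz z' _ (by omega)⟩
      · rw [hhead]; exact hfib z' _ p hp'
      · rw [hlen, maxw, hmax, om, om]
        have : min (min (P.K + 1) (nf P stepf j z')) (P.K + 1) =
          min (nf P stepf j z') (P.K + 1) := by omega
        rw [this]
  obtain ⟨l, hl1, hl2, hl3, hl4⟩ := hex
  refine ⟨((fib P.m (stepf j) P.T (zOf P stepf j ch)).toList.take P.Kp, l),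
    ⟨⟨hnd _ _, hfib _ _⟩, hl1, hl2⟩, ?_, ?_, ?_⟩
  · rw [bad]
    dsimp only
    rw [hlen]
    omega
  · rw [posC, negC, zetaJ]
    dsimp only
    rw [hlen, hl3]
    have : min (min P.Kp (nf P stepf j (zOf P stepf j ch))) P.Kp =
      min (nf P stepf j (zOf P stepf j ch)) P.Kp := by omega
    rw [this]
    push_cast
    rfl
  · rw [size_prod]
    have := hsz (zOf P stepf j ch) P.Kp le_rfl
    dsimp only
    omega

end

end Pool.Agent.FewPath
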