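import Pool.Agent.FewPath.WitC

namespace Pool.Agent.FewPath

open Classical

section

variable (P : Par) (stepf backf : ℕ → List Bool → List Bool)

def outWl (j : ℕ) (cl : List (List Bool)) (Wl : List WC) : List Bool :=
  (((cl.zip Wl).filter (fun q => accW P stepf j q.1 q.2.1)).map
    (fun q => zOf P stepf j q.1)).headD []

def posL (cl : List (List Bool)) (Wl : List WC) : ℕ :=
  ((cl.zip Wl).map (fun q => posC P q.2)).sum

def negL (cl : List (List Bool)) (Wl : List WC) : ℕ :=
  ((cl.zip Wl).map (fun q => negC P q.2)).sum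

def okL (j : ℕ) (cl : List (List Bool)) (Wl : List WC) : Prop :=
  Wl.length = cl.length ∧ ∀ q ∈ cl.zip Wl, chk P stepf j q.1 q.2

def outsW (js : List ℕ) (blks : List (List Bool)) (Ws : List (List WC)) : List (List Bool) :=
  (js.zip (blks.zip Ws)).map (fun q =>
    outWl P stepf q.1 (chunks (ell2 P) P.L q.2.1) q.2.2)

def posR (js : List ℕ) (blks : List (List Bool)) (Ws : List (List WC)) : ℕ :=
  ((js.zip (blks.zip Ws)).map (fun q => posL P (chunks (ell2 P) P.L q.2.1) q.2.2)).sum

def negR (js : List ℕ) (blks : List (List Bool)) (Ws : List (List WC)) : ℕ :=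
  ((js.zip (blks.zip Ws)).map (fun q => negL P (chunks (ell2 P) P.L q.2.1) q.2.2)).sum

def okR (js : List ℕ) (blks : List (List Bool)) (Ws : List (List WC)) : Prop :=
  Ws.length = js.length ∧ ∀ q ∈ js.zip (blks.zip Ws),
    okL P stepf q.1 (chunks (ell2 P) P.L q.2.1) q.2.2

variable {P stepf backf}

theorem block_lower {j : ℕ} (hP : P.Ok) (hp : IsPerm P.m (stepf j) (backf j))
    (cl : List (List Bool)) :
    ∀ Wl : List WC, okL P stepf j cl Wl →
      ∃ D : ℕ, (cl.map (zetaJ P stepf j)).sum + P.s * D ≤
        (posL P cl Wl : ℝ) - negL P cl Wl ∧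
        (D = 0 → outWl P stepf j cl Wl = outJ P stepf j cl) := by
  induction cl with
  | nil => intro Wl _; exact ⟨0, by simp [posL, negL], fun _ => rfl⟩
  | cons ch cl ih =>
    intro Wl hok
    obtain ⟨hl, hc⟩ := hok
    cases Wl with
    | nil => simp at hl
    | cons w Wl =>
      obtain ⟨D, hD1, hD2⟩ := ih Wl ⟨by simpa using hl, fun q hq => hc q (by simp [hq])⟩
      have hcw := hc (ch, w) (by simp)
      dsimp only at hcw
      have h1 := cand_lower hP hp hcw
      refine ⟨D + (if bad P stepf j ch w then 1 else 0), ?_, fun h0 => ?_⟩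
      · simp only [posL, negL, List.zip_cons_cons, List.map_cons, List.sum_cons] at hD1 ⊢
        push_cast at hD1 h1 ⊢
        linarith
      · have h2 : ¬ bad P stepf j ch w := fun h => by
          rw [if_pos h] at h0; omega
        have h4 := accW_iff hcw h2
        have h5 := hD2 (by omega)
        rw [outJ_cons, ← h5]
        simp only [outWl, List.zip_cons_cons]
        by_cases h6 : accW P stepf j ch w.1 = true
        · rw [List.filter_cons_of_pos (by simpa using h6), if_pos (h4.1 h6)]; rfl
        · rw [List.filter_cons_of_neg (by simpa using h6), if_neg (fun h => h6 (h4.2 h))]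

theorem run_lower (hP : P.Ok) (js : List ℕ) (h : ∀ j ∈ js, IsPerm P.m (stepf j) (backf j)) :
    ∀ (blks : List (List Bool)) (Ws : List (List WC)), blks.length = js.length →
      okR P stepf js blks Ws →
      ∃ D : ℕ, zsum P stepf js blks + P.s * D ≤
        (posR P js blks Ws : ℝ) - negR P js blks Ws ∧
        (D = 0 → outsW P stepf js blks Ws = outsJ P stepf js blks) := by
  induction js with
  | nil => intro blks Ws _ _; exact ⟨0, by simp [posR, negR, zsum], fun _ => rfl⟩
  | cons j js ih =>
    intro blks Ws hb hok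
    obtain ⟨hl, hc⟩ := hok
    cases blks with
    | nil => simp at hb
    | cons blk blks =>
      cases Ws with
      | nil => simp at hl
      | cons Wl Ws =>
        obtain ⟨D, hD1, hD2⟩ := ih (fun i hi => h i (List.mem_cons_of_mem _ hi)) blks Ws
          (by simpa using hb) ⟨by simpa using hl, fun q hq => hc q (by simp [hq])⟩
        have hp := h j List.mem_cons_self
        obtain ⟨D', hD1', hD2'⟩ := block_lower hP hp _ Wl (hc (j, blk, Wl) (by simp))
        refine ⟨D + D', ?_, fun h0 => ?_⟩
        · simp only [posR, negR, zsum, List.zip_cons_cons, List.map_cons, List.sum_cons]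
            at hD1 hD1' ⊢
          push_cast at hD1 hD1' ⊢
          linarith
        · have h1 := hD2 (by omega)
          have h2 := hD2' (by omega)
          simp only [outsW, outsJ, List.zip_cons_cons, List.map_cons] at h1 h2 ⊢
          rw [h1, h2]

theorem block_exists {j : ℕ} (hP : P.Ok) (cl : List (List Bool)) :
    ∃ Wl : List WC, okL P stepf j cl Wl ∧
      (posL P cl Wl : ℝ) - negL P cl Wl = (cl.map (zetaJ P stepf j)).sum ∧
      outWl P stepf j cl Wl = outJ P stepf j cl ∧
      ∀ w ∈ Wl, size w ≤ 2 * (P.Kp * (P.T + 1) + 1) := by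
  induction cl with
  | nil => exact ⟨[], ⟨rfl, by simp⟩, by simp [posL, negL], rfl, by simp⟩
  | cons ch cl ih =>
    obtain ⟨Wl, ⟨hl, hc⟩, h1, h2, h3⟩ := ih
    obtain ⟨w, hw1, hw2, hw3, hw4⟩ := cand_exists (stepf := stepf) (j := j) ch hP
    refine ⟨w :: Wl, ⟨by simp [hl], ?_⟩, ?_, ?_, ?_⟩
    · intro q hq
      rw [List.zip_cons_cons, List.mem_cons] at hq
      rcases hq with rfl | hq
      · exact hw1
      · exact hc q hq
    · simp only [posL, negL, List.zip_cons_cons, List.map_cons, List.sum_cons] at h1 ⊢
      push_cast at h1 ⊢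
      linarith
    · have h4 := accW_iff hw1 hw2
      rw [outJ_cons, ← h2]
      simp only [outWl, List.zip_cons_cons]
      by_cases h6 : accW P stepf j ch w.1 = true
      · rw [List.filter_cons_of_pos (by simpa using h6), if_pos (h4.1 h6)]; rfl
      · rw [List.filter_cons_of_neg (by simpa using h6), if_neg (fun h => h6 (h4.2 h))]
    · intro w' hw'
      rcases List.mem_cons.1 hw' with rfl | hw'
      · exact hw4
      · exact h3 w' hw'

theorem run_exists (hP : P.Ok) (js : List ℕ) :
    ∀ (blks : List (List Bool)), blks.length = js.length →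
      ∃ Ws : List (List WC), okR P stepf js blks Ws ∧
        (posR P js blks Ws : ℝ) - negR P js blks Ws =
          zsum P stepf js blks ∧
        outsW P stepf js blks Ws = outsJ P stepf js blks ∧
        ∀ Wl ∈ Ws, size Wl ≤ P.L * (2 * (P.Kp * (P.T + 1) + 1)) + 1 := by
  induction js with
  | nil => intro blks _; exact ⟨[], ⟨rfl, by simp⟩, by simp [posR, negR, zsum], rfl, by simp⟩
  | cons j js ih =>
    intro blks hb
    cases blks with
    | nil => simp at hb
    | cons blk blks =>
      obtain ⟨Ws, ⟨hl, hc⟩, h1, h2, h3⟩ := ih blks (by simpa using hb)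
      obtain ⟨Wl, hw1, hw2, hw3, hw4⟩ := block_exists (stepf := stepf) (j := j) hP
        (chunks (ell2 P) P.L blk)
      refine ⟨Wl :: Ws, ⟨by simp [hl], ?_⟩, ?_, ?_, ?_⟩
      · intro q hq
        rw [List.zip_cons_cons, List.zip_cons_cons, List.mem_cons] at hq
        rcases hq with rfl | hq
        · exact hw1
        · exact hc q hq
      · simp only [posR, negR, zsum, List.zip_cons_cons, List.map_cons, List.sum_cons] at h1 ⊢
        push_cast at h1 ⊢
        linarith
      · simp only [outsW, outsJ, List.zip_cons_cons, List.map_cons] at h2 ⊢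
        rw [h2, hw3]
      · intro w' hw'
        rcases List.mem_cons.1 hw' with rfl | hw'
        · have h5 := size_list_le hw4
          rw [hw1.1, length_chunks] at h5
          exact h5
        · exact h3 w' hw'

end

end Pool.Agent.FewPath
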